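import Pool.Agent.ZCQL.AltFormN

/-!
# Towers of fields in which the rank rises by at most one

`trK K K'`: the trace of points from `K'` to `K`. `tower_zero`: invariant forms vanish on the points over the last field
of a tower if they vanish on pairs of points over the first field and on pairs of points over every `K (m + 1)` of trace
zero to `K m`. `main_towerN`, `main_tower`: Galois-invariant zero-cycles of degree and sum zero, on products of elliptic
curves and on the powers of one curve. `main_tower_rank`: the case of a tower in which the rank rises by at most one at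
every step.
-/

set_option autoImplicit false

noncomputable section

namespace Pool.Agent.ZCQL

open WeierstrassCurve Pool.Agent.ZC Pool.Agent.ZCQ Pool.Agent.ZCQK
open scoped Classical

variable {L : IntermediateField ℚ (AlgebraicClosure ℚ)}

/-- the `L`-embeddings of `K'` in `ℚ̄` which are the identity on `K` -/
def embK (K K' : IntermediateField L (AlgebraicClosure ℚ)) [FiniteDimensional L K'] :
    Finset (K' →ₐ[L] AlgebraicClosure ℚ) :=
  Finset.univ.filter fun σ => ∀ x : K', (x : AlgebraicClosure ℚ) ∈ K → σ x = x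

/-- the trace from `K'` to `K`: the sum of the conjugates of a point over `K'` under the embeddings over `K` -/
def trK (K K' : IntermediateField L (AlgebraicClosure ℚ)) [FiniteDimensional L K']
    (E : WeierstrassCurve L) :
    (E⁄K').toAffine.Point →+ (E⁄(AlgebraicClosure ℚ)).toAffine.Point :=
  ∑ σ ∈ embK K K', Affine.Point.map (W' := E.toAffine) σ

theorem trK_apply (K K' : IntermediateField L (AlgebraicClosure ℚ)) [FiniteDimensional L K']
    (E : WeierstrassCurve L) (P : (E⁄K').toAffine.Point) :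
    trK K K' E P = ∑ σ ∈ embK K K', Affine.Point.map (W' := E.toAffine) σ P := by
  rw [trK, AddMonoidHom.finset_sum_apply]

private theorem isGal_tw : IsGalois L (AlgebraicClosure ℚ) := by
  have h0 : Algebra.IsAlgebraic ℚ (AlgebraicClosure ℚ) := AlgebraicClosure.isAlgebraic ℚ
  have h : IsAlgClosure L (AlgebraicClosure ℚ) :=
    ⟨inferInstance, Algebra.IsAlgebraic.tower_top (K := ℚ) L⟩
  exact IsAlgClosure.isGalois L (AlgebraicClosure ℚ)

private theorem ext_tw (K' : IntermediateField L (AlgebraicClosure ℚ))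
    (σ : K' →ₐ[L] AlgebraicClosure ℚ) :
    ∃ τ : AlgebraicClosure ℚ ≃ₐ[L] AlgebraicClosure ℚ, ∀ x : K', τ x = σ x := by
  have hgal : IsGalois L (AlgebraicClosure ℚ) := isGal_tw
  have halg : Algebra.IsAlgebraic L (AlgebraicClosure ℚ) := inferInstance
  refine ⟨AlgEquiv.ofBijective (σ.liftNormal (AlgebraicClosure ℚ))
    (Algebra.IsAlgebraic.algHom_bijective _), fun x => ?_⟩
  exact σ.liftNormal_commutes (AlgebraicClosure ℚ) x

private theorem map_tw (K' : IntermediateField L (AlgebraicClosure ℚ))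
    (σ : K' →ₐ[L] AlgebraicClosure ℚ) (τ : AlgebraicClosure ℚ ≃ₐ[L] AlgebraicClosure ℚ)
    (h : ∀ x : K', τ x = σ x) (E : WeierstrassCurve L) (P : (E⁄K').toAffine.Point) :
    galL E τ (toQbar K' E P) = Affine.Point.map (W' := E.toAffine) σ P := by
  rcases P with _ | ⟨x, y, hxy⟩
  · rfl
  · exact (Affine.Point.some.injEq _ _ _ _ _ _).mpr ⟨h x, h y⟩

private theorem comp_tw (K' : IntermediateField L (AlgebraicClosure ℚ))
    (σ : K' →ₐ[L] AlgebraicClosure ℚ) (τ : AlgebraicClosure ℚ ≃ₐ[L] AlgebraicClosure ℚ)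
    (E : WeierstrassCurve L) (P : (E⁄K').toAffine.Point) :
    galL E τ (Affine.Point.map (W' := E.toAffine) σ P) =
      Affine.Point.map (W' := E.toAffine) (τ.toAlgHom.comp σ) P := by
  rcases P with _ | ⟨x, y, hxy⟩
  · rfl
  · rfl

/-- the points over `K` are the points fixed by the automorphisms over `K` -/
theorem range_iff (K : IntermediateField L (AlgebraicClosure ℚ)) (E : WeierstrassCurve L)
    (P : (E⁄(AlgebraicClosure ℚ)).toAffine.Point) :
    P ∈ (toQbar K E).range ↔ ∀ τ : AlgebraicClosure ℚ ≃ₐ[L] AlgebraicClosure ℚ,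
      (∀ x ∈ K, τ x = x) → galL E τ P = P := by
  constructor
  · rintro ⟨P, rfl⟩ τ hτ
    rcases P with _ | ⟨x, y, hxy⟩
    · rfl
    · exact (Affine.Point.some.injEq _ _ _ _ _ _).mpr ⟨hτ x x.2, hτ y y.2⟩
  · intro h
    rcases P with _ | ⟨x, y, hxy⟩
    · exact ⟨0, rfl⟩
    · have hgal : IsGalois L (AlgebraicClosure ℚ) := isGal_tw
      have h1 : ∀ σ ∈ K.fixingSubgroup, σ x = x ∧ σ y = y := by
        intro σ hσ
        have h3 := h σ fun y hy => (IntermediateField.mem_fixingSubgroup_iff K σ).1 hσ y hy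
        exact (Affine.Point.some.injEq _ _ _ _ _ _).mp h3
      have h2 : x ∈ K ∧ y ∈ K := by
        rw [← InfiniteGalois.fixedField_fixingSubgroup K, IntermediateField.mem_fixedField_iff,
          IntermediateField.mem_fixedField_iff]
        exact ⟨fun σ hσ => (h1 σ hσ).1, fun σ hσ => (h1 σ hσ).2⟩
      have h4 : (E⁄K).toAffine.Nonsingular ⟨x, h2.1⟩ ⟨y, h2.2⟩ :=
        (Affine.baseChange_nonsingular E.toAffine (f := K.val) K.val.injective
          ⟨x, h2.1⟩ ⟨y, h2.2⟩).1 hxy
      exact ⟨Affine.Point.some _ _ h4, rfl⟩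

/-- the points over `K` are the points with coordinates in `K` -/
theorem range_iff' (K : IntermediateField L (AlgebraicClosure ℚ)) (E : WeierstrassCurve L)
    (P : (E⁄(AlgebraicClosure ℚ)).toAffine.Point) :
    P ∈ (toQbar K E).range ↔ ∀ x y h, P = Affine.Point.some x y h → x ∈ K ∧ y ∈ K := by
  constructor
  · rintro ⟨P, rfl⟩ x y h e
    rcases P with _ | ⟨x', y', hxy⟩
    · have e2 : (0 : (E⁄(AlgebraicClosure ℚ)).toAffine.Point) = Affine.Point.some x y h := e
      exact absurd e2.symm (Affine.Point.some_ne_zero h)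
    · have e2 := (Affine.Point.some.injEq _ _ _ _ _ _).mp e
      rw [← e2.1, ← e2.2]
      exact ⟨x'.2, y'.2⟩
  · intro h
    rw [range_iff]
    intro τ hτ
    rcases P with _ | ⟨x, y, hxy⟩
    · exact map_zero _
    · obtain ⟨hx, hy⟩ := h x y hxy rfl
      exact (Affine.Point.some.injEq _ _ _ _ _ _).mpr ⟨hτ x hx, hτ y hy⟩

theorem trK_mem (K K' : IntermediateField L (AlgebraicClosure ℚ)) [FiniteDimensional L K']
    (E : WeierstrassCurve L) (P : (E⁄K').toAffine.Point) :
    trK K K' E P ∈ (toQbar K E).range := by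
  rw [range_iff]
  intro τ hτ
  rw [trK_apply, map_sum]
  refine Finset.sum_nbij' (fun σ => τ.toAlgHom.comp σ) (fun σ => τ.symm.toAlgHom.comp σ)
    ?_ ?_ ?_ ?_ ?_
  · intro σ hσ
    rw [embK, Finset.mem_filter] at hσ ⊢
    refine ⟨Finset.mem_univ _, fun x hx => ?_⟩
    change τ (σ x) = x
    rw [hσ.2 x hx, hτ x hx]
  · intro σ hσ
    rw [embK, Finset.mem_filter] at hσ ⊢
    refine ⟨Finset.mem_univ _, fun x hx => ?_⟩
    change τ.symm (σ x) = x
    rw [hσ.2 x hx, AlgEquiv.symm_apply_eq, hτ x hx]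
  · intro σ _
    ext x
    exact τ.symm_apply_apply (σ x)
  · intro σ _
    ext x
    exact τ.apply_symm_apply (σ x)
  · intro σ _
    exact comp_tw K' σ τ E P

theorem card_embK (K K' : IntermediateField L (AlgebraicClosure ℚ)) [FiniteDimensional L K'] :
    0 < (embK K K').card :=
  Finset.card_pos.2 ⟨K'.val, Finset.mem_filter.2 ⟨Finset.mem_univ _, fun _ _ => rfl⟩⟩

/-- the trace of a point over `K` -/
theorem trK_base (K K' : IntermediateField L (AlgebraicClosure ℚ)) [FiniteDimensional L K']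
    (hK : K ≤ K') (E : WeierstrassCurve L) (P : (E⁄K').toAffine.Point)
    (hP : toQbar K' E P ∈ (toQbar K E).range) :
    trK K K' E P = (embK K K').card • toQbar K' E P := by
  rw [trK_apply, ← Finset.sum_const]
  refine Finset.sum_congr rfl fun σ hσ => ?_
  obtain ⟨τ, hτ⟩ := ext_tw K' σ
  rw [← map_tw K' σ τ hτ]
  refine (range_iff K E _).1 hP τ fun x hx => ?_
  have h1 := (Finset.mem_filter.1 hσ).2 ⟨x, hK hx⟩ hx
  rw [← hτ] at h1
  exact h1

theorem decomp_tw (K K' : IntermediateField L (AlgebraicClosure ℚ)) [FiniteDimensional L K']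
    (hK : K ≤ K') (E : WeierstrassCurve L) (P : (E⁄K').toAffine.Point) :
    ∃ T w : (E⁄K').toAffine.Point, (embK K K').card • P = T + w ∧
      toQbar K' E T ∈ (toQbar K E).range ∧ trK K K' E w = 0 := by
  have h1 : trK K K' E P ∈ (toQbar K' E).range := by
    rw [range_iff]
    intro τ hτ
    exact (range_iff K E _).1 (trK_mem K K' E P) τ fun x hx => hτ x (hK hx)
  obtain ⟨T, hT⟩ := h1
  have h2 : toQbar K' E T ∈ (toQbar K E).range := by
    rw [hT]
    exact trK_mem K K' E P
  refine ⟨T, (embK K K').card • P - T, by abel, h2, ?_⟩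
  rw [map_sub, map_nsmul, trK_base K K' hK E T h2, hT, sub_self]

/-- invariant forms vanish on the points over the last field of a tower -/
theorem tower_zero {N : ℕ} (A : Fin N → WeierstrassCurve L) (I : Finset (Fin N))
    (hI : 2 ≤ I.card)
    (f : MultilinearMap ℤ (fun i : I => ((A i)⁄(AlgebraicClosure ℚ)).toAffine.Point) ℚ)
    (hinv : ∀ (σ : AlgebraicClosure ℚ ≃ₐ[L] AlgebraicClosure ℚ)
      (x : (i : I) → ((A i)⁄(AlgebraicClosure ℚ)).toAffine.Point),
      f (fun i => galL (A i) σ (x i)) = f x)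
    (K : ℕ → IntermediateField L (AlgebraicClosure ℚ)) (hK : Monotone K)
    (hfin : ∀ m, FiniteDimensional L (K m))
    (h0 : ∀ (x : (i : I) → ((A i)⁄(AlgebraicClosure ℚ)).toAffine.Point) (i j : I), i ≠ j →
      x i ∈ (toQbar (K 0) (A i)).range → x j ∈ (toQbar (K 0) (A j)).range → f x = 0) (r : ℕ)
    (h1 : ∀ m < r, ∀ (x : (i : I) → ((A i)⁄(AlgebraicClosure ℚ)).toAffine.Point) (i j : I),
      i ≠ j → (∃ P, trK (K m) (K (m + 1)) (A i) P = 0 ∧ x i = toQbar (K (m + 1)) (A i) P) →
      (∃ P, trK (K m) (K (m + 1)) (A j) P = 0 ∧ x j = toQbar (K (m + 1)) (A j) P) → f x = 0)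
    (x : (i : I) → ((A i)⁄(AlgebraicClosure ℚ)).toAffine.Point)
    (hx : ∀ i : I, x i ∈ (toQbar (K r) (A i)).range) : f x = 0 := by
  induction r generalizing x with
  | zero =>
    obtain ⟨i, j, hij⟩ : ∃ i j : I, i ≠ j := by
      obtain ⟨a, ha, b, hb, hab⟩ := Finset.one_lt_card.1 hI
      exact ⟨⟨a, ha⟩, ⟨b, hb⟩, fun h => hab (congrArg Subtype.val h)⟩
    exact h0 x i j hij (hx i) (hx j)
  | succ r ih =>
    have ih' := ih fun m hm => h1 m (Nat.lt_succ_of_lt hm)
    have hle : K r ≤ K (r + 1) := hK (Nat.le_succ r)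
    set d := (embK (K r) (K (r + 1))).card with hd
    have hd0 : (d : ℚ) ≠ 0 := Nat.cast_ne_zero.2 (card_embK (K r) (K (r + 1))).ne'
    have key : ∀ (S : Finset I) (x : (i : I) → ((A i)⁄(AlgebraicClosure ℚ)).toAffine.Point),
        (∀ i : I, i ∈ S → x i ∈ (toQbar (K (r + 1)) (A i)).range) →
        (∀ i : I, i ∉ S → x i ∈ (toQbar (K r) (A i)).range ∨
          ∃ P, trK (K r) (K (r + 1)) (A i) P = 0 ∧ x i = toQbar (K (r + 1)) (A i) P) →
        f x = 0 := by
      intro S
      induction S using Finset.induction_on with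
      | empty =>
        intro x _ hx
        have hx := fun i => hx i (Finset.notMem_empty i)
        by_cases hall : ∀ i : I, x i ∈ (toQbar (K r) (A i)).range
        · exact ih' x hall
        · push Not at hall
          obtain ⟨j, hj⟩ := hall
          obtain ⟨w, hw, hjw⟩ := (hx j).resolve_left hj
          by_cases hother : ∀ i : I, i ≠ j → x i ∈ (toQbar (K r) (A i)).range
          · -- one point of trace zero
            have h3 : ∀ σ ∈ embK (K r) (K (r + 1)), f (Function.update x j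
                (Affine.Point.map (W' := (A j).toAffine) σ w)) = f x := by
              intro σ hσ
              obtain ⟨τ, hτ⟩ := ext_tw _ σ
              rw [← hinv τ x]
              congr 1
              funext i
              by_cases hij : i = j
              · subst hij
                rw [Function.update_self, hjw, map_tw _ σ τ hτ]
              · rw [Function.update_of_ne hij]
                refine ((range_iff _ _ _).1 (hother i hij) τ fun y hy => ?_).symm
                have h4 := (Finset.mem_filter.1 hσ).2 ⟨y, hle hy⟩ hy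
                rw [← hτ] at h4
                exact h4
            have h5 : f (Function.update x j (trK (K r) (K (r + 1)) (A j) w)) = d • f x := by
              rw [trK_apply, f.map_update_sum, Finset.sum_congr rfl h3, Finset.sum_const]
            rw [hw, f.map_update_zero, nsmul_eq_mul] at h5
            exact (mul_eq_zero.1 h5.symm).resolve_left hd0
          · push Not at hother
            obtain ⟨i, hij, hi⟩ := hother
            exact h1 r (Nat.lt_succ_self r) x i j hij ((hx i).resolve_left hi) ⟨w, hw, hjw⟩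
      | insert t S ht ihS =>
        intro x hx1 hx2
        obtain ⟨P, hP⟩ := hx1 t (Finset.mem_insert_self t S)
        obtain ⟨T, w, e, hT, hw⟩ := decomp_tw (K r) (K (r + 1)) hle (A t) P
        have h6 : ∀ Q : ((A t)⁄(AlgebraicClosure ℚ)).toAffine.Point,
            (Q ∈ (toQbar (K r) (A t)).range ∨
              ∃ P, trK (K r) (K (r + 1)) (A t) P = 0 ∧ Q = toQbar (K (r + 1)) (A t) P) →
            f (Function.update x t Q) = 0 := by
          intro Q hQ
          refine ihS _ (fun i hi => ?_) fun i hi => ?_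
          · have hit : i ≠ t := fun h => ht (h ▸ hi)
            rw [Function.update_of_ne hit]
            exact hx1 i (Finset.mem_insert_of_mem hi)
          · by_cases hit : i = t
            · subst hit
              rw [Function.update_self]
              exact hQ
            · rw [Function.update_of_ne hit]
              exact hx2 i fun h => (Finset.mem_insert.1 h).elim hit hi
        have h7 : f (Function.update x t (d • x t)) = 0 := by
          have h8 : d • x t = toQbar (K (r + 1)) (A t) T + toQbar (K (r + 1)) (A t) w := by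
            rw [← hP, ← map_nsmul, e, map_add]
          rw [h8, f.map_update_add, h6 _ (Or.inl hT), h6 _ (Or.inr ⟨w, hw, rfl⟩), add_zero]
        have h9 : f (Function.update x t (d • x t)) = (d : ℤ) • f x := by
          rw [← natCast_zsmul, f.map_update_smul, Function.update_eq_self]
        rw [h7, zsmul_eq_mul] at h9
        exact (mul_eq_zero.1 h9.symm).resolve_left (by exact_mod_cast hd0)
    exact key Finset.univ x (fun i _ => hx i) fun i hi => absurd (Finset.mem_univ i) hi

/-- two dependent points are in a common group `HE` -/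
private theorem dep_tw (W : WeierstrassCurve (AlgebraicClosure ℚ)) (hW : W.IsElliptic)
    {P Q : W.toAffine.Point} {a b : ℤ} (hab : a ≠ 0 ∨ b ≠ 0) (h : a • P = b • Q) :
    ∃ v, P ∈ HE W v ∧ Q ∈ HE W v := by
  have key : ∀ {P Q : W.toAffine.Point} {a b : ℤ}, b ≠ 0 → a • P = b • Q →
      ∃ v, P ∈ HE W v ∧ Q ∈ HE W v := by
    intro P Q a b hb h
    obtain ⟨v, hv⟩ := main_aux3.2.1 W P hW
    refine ⟨v, hv, ?_⟩
    have h1 : b • Q ∈ HE W v := by
      rw [← h]
      exact (HE W v).zsmul_mem hv a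
    have h2 : b.natAbs • Q ∈ HE W v := by
      rcases Int.natAbs_eq b with hb1 | hb1
      · rw [hb1, natCast_zsmul] at h1
        exact h1
      · rw [hb1, neg_smul, natCast_zsmul] at h1
        exact (HE W v).neg_mem_iff.1 h1
    exact satur_sat (Int.natAbs_pos.2 hb) h2
  rcases hab with ha | hb
  · obtain ⟨v, h1, h2⟩ := key ha h.symm
    exact ⟨v, h2, h1⟩
  · exact key hb h

/-- Galois-invariant zero-cycles of degree and sum zero on a product of elliptic curves `A i` over `L` are torsion if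
every point in the support has its coordinates in the last field of a tower `K 0 ≤ K 1 ≤ ⋯ ≤ K r` of finite extensions
of `L` such that any two points over `K 0`, and any two points over `K (m + 1)` of trace zero to `K m`, on two of the
factors are in the groups `HE` for a common abscissa. -/
theorem main_towerN (L : IntermediateField ℚ (AlgebraicClosure ℚ)) (N : ℕ)
    (A : Fin N → WeierstrassCurve L) (hA : ∀ i, (A i).IsElliptic)
    (z : Z0N fun i => (A i)⁄(AlgebraicClosure ℚ))
    (hz : ∀ σ : AlgebraicClosure ℚ ≃ₐ[L] AlgebraicClosure ℚ,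
      z.mapDomain (fun p i => galL (A i) σ (p i)) = z)
    (hdeg : z.sum (fun _ n => n) = 0) (hsum : ∀ i, z.sum (fun p n => n • p i) = 0)
    (hsupp : ∀ p ∈ z.support, ∃ (K : ℕ → IntermediateField L (AlgebraicClosure ℚ)) (r : ℕ)
      (_ : ∀ m, FiniteDimensional L (K m)), Monotone K ∧
      (∀ i x y h, p i = Affine.Point.some x y h → x ∈ K r ∧ y ∈ K r) ∧
      (∀ i j, i ≠ j → ∀ P Q, ∃ v, toQbar (K 0) (A i) P ∈ HE ((A i)⁄(AlgebraicClosure ℚ)) v ∧
        toQbar (K 0) (A j) Q ∈ HE ((A j)⁄(AlgebraicClosure ℚ)) v) ∧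
      ∀ m < r, ∀ i j, i ≠ j → ∀ P Q, trK (K m) (K (m + 1)) (A i) P = 0 →
        trK (K m) (K (m + 1)) (A j) Q = 0 →
        ∃ v, toQbar (K (m + 1)) (A i) P ∈ HE ((A i)⁄(AlgebraicClosure ℚ)) v ∧
          toQbar (K (m + 1)) (A j) Q ∈ HE ((A j)⁄(AlgebraicClosure ℚ)) v) :
    ∃ M : ℕ, 0 < M ∧ M • z ∈ RatEqN fun i => (A i)⁄(AlgebraicClosure ℚ) := by
  refine main_aux3.1 L N A z hA hz hdeg hsum (Or.inl ?_)
  intro I f hI hinv hHE
  rw [Finsupp.sum]
  refine Finset.sum_eq_zero fun p hp => ?_
  obtain ⟨K, r, hfin, hK, hcoord, h0, h1⟩ := hsupp p hp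
  have h2 : f (fun i => p i) = 0 := by
    refine tower_zero A I hI f hinv K hK hfin ?_ r ?_ _ fun i => (range_iff' _ _ _).2 (hcoord i)
    · rintro x i j hij ⟨P, hP⟩ ⟨Q, hQ⟩
      obtain ⟨v, hv1, hv2⟩ := h0 i j (fun h => hij (Subtype.ext h)) P Q
      exact hHE i j v x hij (hP ▸ hv1) (hQ ▸ hv2)
    · rintro m hm x i j hij ⟨P, hP, hxP⟩ ⟨Q, hQ, hxQ⟩
      obtain ⟨v, hv1, hv2⟩ := h1 m hm i j (fun h => hij (Subtype.ext h)) P Q hP hQ
      exact hHE i j v x hij (hxP ▸ hv1) (hxQ ▸ hv2)
  rw [h2, smul_zero]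

/-- Galois-invariant zero-cycles of degree and sum zero on the powers of an elliptic curve `E` over `L` are torsion if
every point in the support has its coordinates in the last field of a tower `K 0 ≤ K 1 ≤ ⋯ ≤ K r` of finite extensions
of `L` such that any two points of `E(K 0)`, and any two points of `E(K (m + 1))` of trace zero to `K m`, are dependent or
in a common group `HE`. -/
theorem main_tower (L : IntermediateField ℚ (AlgebraicClosure ℚ)) (N : ℕ)
    (E : WeierstrassCurve L) (hE : E.IsElliptic)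
    (z : Z0N fun _ : Fin N => E⁄(AlgebraicClosure ℚ))
    (hz : ∀ σ : AlgebraicClosure ℚ ≃ₐ[L] AlgebraicClosure ℚ,
      z.mapDomain (fun p i => galL E σ (p i)) = z)
    (hdeg : z.sum (fun _ n => n) = 0) (hsum : ∀ i, z.sum (fun p n => n • p i) = 0)
    (hsupp : ∀ p ∈ z.support, ∃ (K : ℕ → IntermediateField L (AlgebraicClosure ℚ)) (r : ℕ)
      (_ : ∀ m, FiniteDimensional L (K m)), Monotone K ∧
      (∀ i x y h, p i = Affine.Point.some x y h → x ∈ K r ∧ y ∈ K r) ∧
      (∀ P Q : (E⁄(K 0)).toAffine.Point, (∃ a b : ℤ, (a ≠ 0 ∨ b ≠ 0) ∧ a • P = b • Q) ∨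
        ∃ v, toQbar (K 0) E P ∈ HE (E⁄(AlgebraicClosure ℚ)) v ∧
          toQbar (K 0) E Q ∈ HE (E⁄(AlgebraicClosure ℚ)) v) ∧
      ∀ m < r, ∀ P Q, trK (K m) (K (m + 1)) E P = 0 → trK (K m) (K (m + 1)) E Q = 0 →
        (∃ a b : ℤ, (a ≠ 0 ∨ b ≠ 0) ∧ a • P = b • Q) ∨
        ∃ v, toQbar (K (m + 1)) E P ∈ HE (E⁄(AlgebraicClosure ℚ)) v ∧
          toQbar (K (m + 1)) E Q ∈ HE (E⁄(AlgebraicClosure ℚ)) v) :
    ∃ M : ℕ, 0 < M ∧ M • z ∈ RatEqN fun _ : Fin N => E⁄(AlgebraicClosure ℚ) := by
  have hdep : ∀ (F : IntermediateField L (AlgebraicClosure ℚ)) (P Q : (E⁄F).toAffine.Point),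
      ((∃ a b : ℤ, (a ≠ 0 ∨ b ≠ 0) ∧ a • P = b • Q) ∨
        ∃ v, toQbar F E P ∈ HE (E⁄(AlgebraicClosure ℚ)) v ∧
          toQbar F E Q ∈ HE (E⁄(AlgebraicClosure ℚ)) v) →
      ∃ v, toQbar F E P ∈ HE (E⁄(AlgebraicClosure ℚ)) v ∧
          toQbar F E Q ∈ HE (E⁄(AlgebraicClosure ℚ)) v := by
    rintro F P Q (⟨a, b, hab, e⟩ | h)
    · refine dep_tw _
        (inferInstanceAs (E.map (algebraMap L (AlgebraicClosure ℚ))).IsElliptic) hab ?_
      rw [← map_zsmul, e, map_zsmul]
    · exact h
  refine main_towerN L N (fun _ => E) (fun _ => hE) z hz hdeg hsum fun p hp => ?_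
  obtain ⟨K, r, hfin, hK, hcoord, h0, h1⟩ := hsupp p hp
  exact ⟨K, r, hfin, hK, hcoord, fun i j _ P Q => hdep _ P Q (h0 P Q),
    fun m hm i j _ P Q hP hQ => hdep _ P Q (h1 m hm P Q hP hQ)⟩

/-- points of trace zero are dependent if the rank rises by at most one -/
theorem dep_of_rank (K K' : IntermediateField L (AlgebraicClosure ℚ)) [FiniteDimensional L K']
    (hK : K ≤ K') (E : WeierstrassCurve L) (P Q : (E⁄K').toAffine.Point)
    (hP : trK K K' E P = 0) (hQ : trK K K' E Q = 0) {a b : ℤ} (hab : a ≠ 0 ∨ b ≠ 0)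
    (h : toQbar K' E (a • P + b • Q) ∈ (toQbar K E).range) :
    ∃ a b : ℤ, (a ≠ 0 ∨ b ≠ 0) ∧ a • P = b • Q := by
  have h1 := trK_base K K' hK E _ h
  rw [map_add, map_zsmul, map_zsmul, hP, hQ, zsmul_zero, zsmul_zero, add_zero, ← map_nsmul] at h1
  have hιi : Function.Injective (toQbar K' E) := Affine.Point.map_injective _
  have h2 : (embK K K').card • (a • P + b • Q) = 0 := by
    apply hιi
    rw [← h1, map_zero]
  have h3 : ((embK K K').card : ℤ) ≠ 0 := by exact_mod_cast (card_embK K K').ne'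
  refine ⟨(embK K K').card * a, -((embK K K').card * b), ?_, ?_⟩
  · rcases hab with ha | hb
    · exact Or.inl (mul_ne_zero h3 ha)
    · exact Or.inr (neg_ne_zero.2 (mul_ne_zero h3 hb))
  · rw [smul_add, ← natCast_zsmul, ← natCast_zsmul, smul_smul, smul_smul] at h2
    rw [neg_smul]
    exact eq_neg_of_add_eq_zero_left h2

/-- Galois-invariant zero-cycles of degree and sum zero on the powers of an elliptic curve `E` over `L` are torsion if
every point in the support has its coordinates in the last field of a tower `K 0 ≤ K 1 ≤ ⋯ ≤ K r` of finite extensions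
of `L` such that any two points of `E(K 0)` are dependent or in a common group `HE`, and the rank of `E` rises by at most
one from `K m` to `K (m + 1)`. -/
theorem main_tower_rank (L : IntermediateField ℚ (AlgebraicClosure ℚ)) (N : ℕ)
    (E : WeierstrassCurve L) (hE : E.IsElliptic)
    (z : Z0N fun _ : Fin N => E⁄(AlgebraicClosure ℚ))
    (hz : ∀ σ : AlgebraicClosure ℚ ≃ₐ[L] AlgebraicClosure ℚ,
      z.mapDomain (fun p i => galL E σ (p i)) = z)
    (hdeg : z.sum (fun _ n => n) = 0) (hsum : ∀ i, z.sum (fun p n => n • p i) = 0)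
    (hsupp : ∀ p ∈ z.support, ∃ (K : ℕ → IntermediateField L (AlgebraicClosure ℚ)) (r : ℕ),
      (∀ m, FiniteDimensional L (K m)) ∧ Monotone K ∧
      (∀ i x y h, p i = Affine.Point.some x y h → x ∈ K r ∧ y ∈ K r) ∧
      (∀ P Q : (E⁄(K 0)).toAffine.Point, (∃ a b : ℤ, (a ≠ 0 ∨ b ≠ 0) ∧ a • P = b • Q) ∨
        ∃ v, toQbar (K 0) E P ∈ HE (E⁄(AlgebraicClosure ℚ)) v ∧
          toQbar (K 0) E Q ∈ HE (E⁄(AlgebraicClosure ℚ)) v) ∧
      ∀ m < r, ∀ P Q : (E⁄(K (m + 1))).toAffine.Point, ∃ a b : ℤ, (a ≠ 0 ∨ b ≠ 0) ∧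
        toQbar (K (m + 1)) E (a • P + b • Q) ∈ (toQbar (K m) E).range) :
    ∃ M : ℕ, 0 < M ∧ M • z ∈ RatEqN fun _ : Fin N => E⁄(AlgebraicClosure ℚ) := by
  refine main_tower L N E hE z hz hdeg hsum fun p hp => ?_
  obtain ⟨K, r, hfin, hK, hcoord, h0, h1⟩ := hsupp p hp
  refine ⟨K, r, hfin, hK, hcoord, h0, fun m hm P Q hP hQ => Or.inl ?_⟩
  obtain ⟨a, b, hab, h⟩ := h1 m hm P Q
  exact dep_of_rank (K m) (K (m + 1)) (hK (Nat.le_succ m)) E P Q hP hQ hab h

end Pool.Agent.ZCQL
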