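import Mathlib

/-!
# Functions which are affine in every coordinate
-/

set_option autoImplicit false

noncomputable section

namespace Pool.Agent.ZCQL

open Function
open scoped Classical

variable {I : Type} [Fintype I] {G : I → Type} [∀ i, AddCommGroup (G i)] {A : Type}
  [AddCommGroup A]

/-- `c` is affine in every coordinate. -/
def Aff (c : ((i : I) → G i) → A) : Prop :=
  ∀ (x : (i : I) → G i) (i : I) (a b : G i),
    c (update x i (a + b)) = c (update x i a) + c (update x i b) - c (update x i 0)

/-- `a` and `b` are orthogonal. -/
def Orth (c : ((i : I) → G i) → A) (i j : I) (a : G i) (b : G j) : Prop :=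
  ∀ x : (i : I) → G i, c (update (update x i a) j b) - c (update (update x i a) j 0) -
    c (update (update x i 0) j b) + c (update (update x i 0) j 0) = 0

variable {c : ((i : I) → G i) → A}

omit [Fintype I] in
theorem Aff.zero (hc : Aff c) (x : (i : I) → G i) (i : I) (a : G i) :
    c (x + Pi.single i a) - c x = c (update x i a) - c (update x i 0) := by
  have h := hc x i (x i) a
  rw [update_eq_self] at h
  have h1 : update x i (x i + a) = x + Pi.single i a := by
    ext k
    rcases eq_or_ne k i with rfl | hk
    · simp
    · simp [hk]
  rw [h1] at h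
  rw [h]
  abel

omit [Fintype I] in
theorem Orth.symm {i j : I} (hij : i ≠ j) {a : G i} {b : G j} (h : Orth c i j a b) :
    Orth c j i b a := by
  intro x
  have h1 := h x
  rw [update_comm hij.symm, update_comm hij.symm, update_comm hij.symm, update_comm hij.symm,
    ← h1]
  abel

omit [Fintype I] in
theorem Orth.eq (hc : Aff c) {i j : I} (hij : i ≠ j) {a : G i} {b : G j} (h : Orth c i j a b)
    (x : (i : I) → G i) :
    c (x + Pi.single i a + Pi.single j b) - c (x + Pi.single i a) =
      c (x + Pi.single j b) - c x := by
  rw [hc.zero, hc.zero]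
  have e : ∀ b' : G j, update (x + Pi.single i a) j b' = update x j b' + Pi.single i a := by
    intro b'
    ext k
    rcases eq_or_ne k j with rfl | hk
    · simp [hij]
    · simp [hk]
  have h1 := hc.zero (update x j b) i a
  have h2 := hc.zero (update x j 0) i a
  rw [← e] at h1 h2
  have h3 := h x
  rw [update_comm hij, update_comm hij, update_comm hij, update_comm hij] at h3
  have h4 : c (update (x + Pi.single i a) j b) =
      c (update x j b) + (c (update (update x j b) i a) - c (update (update x j b) i 0)) := by
    rw [← h1]
    abel
  have h5 : c (update (x + Pi.single i a) j 0) =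
      c (update x j 0) + (c (update (update x j 0) i a) - c (update (update x j 0) i 0)) := by
    rw [← h2]
    abel
  rw [h4, h5]
  have h6 : c (update (update x j b) i a) - c (update (update x j b) i 0) =
      c (update (update x j 0) i a) - c (update (update x j 0) i 0) := by
    rw [← sub_eq_zero, ← h3]
    abel
  rw [h6]
  abel

/-- A family of pairwise orthogonal elements. -/
def POrth (c : ((i : I) → G i) → A) (p : (i : I) → G i) : Prop :=
  ∀ i j, i ≠ j → Orth c i j (p i) (p j)

omit [Fintype I] in
theorem POrth.diff (hc : Aff c) {p : (i : I) → G i} (hp : POrth c p) (S : Finset I) {j : I}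
    (hj : j ∉ S) (x : (i : I) → G i) :
    c (x + ∑ i ∈ S, Pi.single i (p i) + Pi.single j (p j)) - c (x + ∑ i ∈ S, Pi.single i (p i)) =
      c (x + Pi.single j (p j)) - c x := by
  induction S using Finset.induction_on generalizing x with
  | empty => simp
  | insert k S hk ih =>
    rw [Finset.mem_insert, not_or] at hj
    rw [Finset.sum_insert hk, ← add_assoc x, ih hj.2 (x + Pi.single k (p k))]
    exact (hp k j (Ne.symm hj.1)).eq hc (Ne.symm hj.1) x

theorem POrth.formula (hc : Aff c) {p : (i : I) → G i} (hp : POrth c p) (x : (i : I) → G i) :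
    c (x + p) = c x + ∑ i, (c (x + Pi.single i (p i)) - c x) := by
  have key : ∀ S : Finset I, c (x + ∑ i ∈ S, Pi.single i (p i)) =
      c x + ∑ i ∈ S, (c (x + Pi.single i (p i)) - c x) := by
    intro S
    induction S using Finset.induction_on with
    | empty => simp
    | insert k S hk ih =>
      rw [Finset.sum_insert hk, Finset.sum_insert hk, add_comm (Pi.single k (p k)), ← add_assoc]
      have h := hp.diff hc S hk x
      rw [sub_eq_iff_eq_add] at h
      rw [h, ih]
      abel
  have h := key Finset.univ
  rwa [Finset.univ_sum_single p] at h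

/-- the linear part -/
def lin (c : ((i : I) → G i) → A) (i : I) (a : G i) : A := c (Pi.single i a) - c 0

/-- the bilinear part -/
def bil (c : ((i : I) → G i) → A) (i j : I) (a : G i) (b : G j) : A :=
  c (Pi.single i a + Pi.single j b) - c (Pi.single i a) - c (Pi.single j b) + c 0

omit [Fintype I] in
theorem Aff.diff_update (hc : Aff c) (x : (i : I) → G i) (i : I) (a b : G i) :
    c (update x i b + Pi.single i a) - c (update x i b) = c (x + Pi.single i a) - c x := by
  rw [hc.zero, hc.zero, update_idem, update_idem]

theorem formula2 (hc : Aff c) {g r : (i : I) → G i} (hg : POrth c g) (hr : POrth c r) :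
    c (g + r) = c 0 + ∑ i, lin c i (g i) + ∑ i, lin c i (r i) +
      ∑ i, ∑ j ∈ Finset.univ.erase i, bil c i j (g i) (r j) := by
  have h1 := hg.formula hc r
  have h2 := hr.formula hc 0
  simp only [zero_add] at h2
  have h3 : ∀ i, c (r + Pi.single i (g i)) - c r =
      lin c i (g i) + ∑ j ∈ Finset.univ.erase i, bil c i j (g i) (r j) := by
    intro i
    rw [← hc.diff_update r i (g i) 0]
    have hr' : POrth c (update r i 0) := by
      intro k l hkl x
      rcases eq_or_ne k i with rfl | hk
      · rw [update_self, update_of_ne hkl.symm]
        abel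
      · rcases eq_or_ne l i with rfl | hl
        · rw [update_self, update_of_ne hk]
          abel
        · rw [update_of_ne hk, update_of_ne hl]
          exact hr k l hkl x
    have h4 := hr'.formula hc (Pi.single i (g i))
    have h5 := hr'.formula hc 0
    simp only [zero_add] at h5
    rw [add_comm (update r i 0), h4, h5, ← Finset.add_sum_erase _ _ (Finset.mem_univ i),
      ← Finset.add_sum_erase _ (fun k => c (Pi.single k (update r i 0 k)) - c 0)
        (Finset.mem_univ i)]
    simp only [update_self, Pi.single_zero, add_zero, sub_self, zero_add]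
    have h6 : ∑ k ∈ Finset.univ.erase i,
        (c (Pi.single i (g i) + Pi.single k (update r i 0 k)) - c (Pi.single i (g i))) -
        ∑ k ∈ Finset.univ.erase i, (c (Pi.single k (update r i 0 k)) - c 0) =
        ∑ j ∈ Finset.univ.erase i, bil c i j (g i) (r j) := by
      rw [← Finset.sum_sub_distrib]
      refine Finset.sum_congr rfl fun k hk => ?_
      rw [update_of_ne (Finset.ne_of_mem_erase hk)]
      unfold bil
      abel
    rw [← h6]
    unfold lin
    abel
  rw [add_comm g r, h1, Finset.sum_congr rfl fun i _ => h3 i, Finset.sum_add_distrib, h2]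
  unfold lin
  abel

omit [Fintype I] in
theorem lin_add (hc : Aff c) (i : I) (a b : G i) : lin c i (a + b) = lin c i a + lin c i b := by
  have h := hc 0 i a b
  unfold lin
  have e : ∀ x : G i, update (0 : (i : I) → G i) i x = Pi.single i x := fun x => rfl
  rw [e, e, e, e, Pi.single_zero] at h
  rw [h]
  abel

omit [Fintype I] in
theorem bil_eq {i j : I} (hij : i ≠ j) (a : G i) (b : G j) :
    bil c i j a b = c (update (update 0 i a) j b) - c (update (update 0 i a) j 0) -
      c (update (update 0 i 0) j b) + c (update (update 0 i 0) j 0) := by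
  have e1 : update (update (0 : (i : I) → G i) i a) j b = Pi.single i a + Pi.single j b := by
    ext k
    rcases eq_or_ne k j with rfl | hk
    · simp [hij.symm]
    · rcases eq_or_ne k i with rfl | hk'
      · simp [hij]
      · simp [hk, hk']
  have e2 : update (update (0 : (i : I) → G i) i a) j 0 = Pi.single i a := by
    ext k
    rcases eq_or_ne k j with rfl | hk
    · simp [hij.symm]
    · rcases eq_or_ne k i with rfl | hk'
      · simp [hij]
      · simp [hk, hk']
  have e3 : update (update (0 : (i : I) → G i) i 0) j b = Pi.single j b := by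
    ext k
    rcases eq_or_ne k j with rfl | hk
    · simp
    · rcases eq_or_ne k i with rfl | hk'
      · simp [hij]
      · simp [hk]
  have e4 : update (update (0 : (i : I) → G i) i 0) j 0 = 0 := by
    ext k
    rcases eq_or_ne k j with rfl | hk
    · simp
    · rcases eq_or_ne k i with rfl | hk'
      · simp [hij]
      · simp [hk]
  rw [e1, e2, e3, e4, bil]

omit [Fintype I] in
theorem Orth.bil_eq_zero {i j : I} (hij : i ≠ j) {a : G i} {b : G j} (h : Orth c i j a b) :
    bil c i j a b = 0 := by
  rw [bil_eq hij]
  exact h 0

/-- the bilinear form in the presence of other entries -/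
def D (c : ((i : I) → G i) → A) (x : (i : I) → G i) (i j : I) (a : G i) (b : G j) : A :=
  c (update (update x i a) j b) - c (update (update x i a) j 0) -
    c (update (update x i 0) j b) + c (update (update x i 0) j 0)

omit [Fintype I] in
theorem D_add_right (hc : Aff c) (x : (i : I) → G i) (i j : I) (a : G i) (b b' : G j) :
    D c x i j a (b + b') = D c x i j a b + D c x i j a b' := by
  unfold D
  rw [hc (update x i a) j b b', hc (update x i 0) j b b']
  abel

omit [Fintype I] in
theorem D_add_left (hc : Aff c) (x : (i : I) → G i) {i j : I} (hij : i ≠ j) (a a' : G i)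
    (b : G j) : D c x i j (a + a') b = D c x i j a b + D c x i j a' b := by
  unfold D
  rw [update_comm hij, update_comm hij, update_comm hij, update_comm hij, update_comm hij a,
    update_comm hij a, update_comm hij a', update_comm hij a', hc (update x j b) i a a',
    hc (update x j 0) i a a']
  abel

/-- `D` as a biadditive map -/
def DH (hc : Aff c) (x : (i : I) → G i) {i j : I} (hij : i ≠ j) : G i →+ G j →+ A :=
  AddMonoidHom.mk' (fun a => AddMonoidHom.mk' (fun b => D c x i j a b) fun b b' =>
    D_add_right hc x i j a b b') fun a a' => by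
      ext b
      exact D_add_left hc x hij a a' b

omit [Fintype I] in
theorem orth_iff (hc : Aff c) {i j : I} (hij : i ≠ j) {a : G i} {b : G j} :
    Orth c i j a b ↔ ∀ x, DH hc x hij a b = 0 := Iff.rfl

omit [Fintype I] in
/-- Orthogonality passes to the generated saturated subgroups. -/
theorem orth_closure (hc : Aff c) (hA : ∀ (n : ℕ) (a : A), 0 < n → n • a = 0 → a = 0) {i j : I}
    (hij : i ≠ j) {S : Set (G i)} {T : Set (G j)} (h : ∀ a ∈ S, ∀ b ∈ T, Orth c i j a b)
    {a : G i} {b : G j} {m n : ℕ} (hm : 0 < m) (hn : 0 < n)
    (ha : m • a ∈ AddSubgroup.closure S) (hb : n • b ∈ AddSubgroup.closure T) :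
    Orth c i j a b := by
  rw [orth_iff hc hij]
  intro x
  have h1 : ∀ s ∈ AddSubgroup.closure S, ∀ t ∈ AddSubgroup.closure T, DH hc x hij s t = 0 := by
    intro s hs
    have h2 : ∀ s ∈ S, AddSubgroup.closure T ≤ (DH hc x hij s).ker := by
      intro s hs
      rw [AddSubgroup.closure_le]
      intro t ht
      exact (orth_iff hc hij).1 (h s hs t ht) x
    intro t ht
    have h3 : AddSubgroup.closure S ≤ ((DH hc x hij).flip t).ker := by
      rw [AddSubgroup.closure_le]
      intro s hs
      exact h2 s hs ht
    exact h3 hs
  apply hA (m * n) _ (Nat.mul_pos hm hn)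
  have h2 := h1 _ ha _ hb
  rw [map_nsmul, map_nsmul, AddMonoidHom.nsmul_apply] at h2
  rw [mul_comm, mul_smul]
  exact h2

end Pool.Agent.ZCQL
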