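import Pool.Agent.ZCQL.Ind

/-!
# Alternating sums of functions which are affine in every coordinate
-/

set_option autoImplicit false

noncomputable section

namespace Pool.Agent.ZCQL

open Function
open scoped Classical

variable {I : Type} [Fintype I] {G : I → Type} [∀ i, AddCommGroup (G i)] {A : Type}
  [AddCommGroup A]

/-- `c` depends only on the coordinates in `S`. -/
def Dep (c : ((i : I) → G i) → A) (S : Finset I) : Prop :=
  ∀ x y, (∀ i ∈ S, x i = y i) → c x = c y

omit [Fintype I] in
theorem Aff.sub {c c' : ((i : I) → G i) → A} (hc : Aff c) (hc' : Aff c') :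
    Aff fun x => c x - c' x := by
  intro x i a b
  beta_reduce
  rw [hc x i a b, hc' x i a b]
  abel

omit [Fintype I] in
/-- The difference in the coordinate `k` does not depend on the coordinate `k`. -/
theorem Dep.erase {c : ((i : I) → G i) → A} (hc : Aff c) {S : Finset I} (hS : Dep c S) (k : I)
    (a : G k) (r : (i : I) → G i) :
    Dep (fun y => c (y + r + Pi.single k a) - c (y + r)) (S.erase k) := by
  intro x y hxy
  have h1 := hc.diff_update (x + r) k a (y k + r k)
  have h2 : c (update (x + r) k (y k + r k) + Pi.single k a) = c (y + r + Pi.single k a) := by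
    apply hS
    intro i hi
    rcases eq_or_ne i k with rfl | hik
    · simp
    · have h3 := hxy i (Finset.mem_erase.2 ⟨hik, hi⟩)
      simp [hik, h3]
  have h3 : c (update (x + r) k (y k + r k)) = c (y + r) := by
    apply hS
    intro i hi
    rcases eq_or_ne i k with rfl | hik
    · simp
    · have h3 := hxy i (Finset.mem_erase.2 ⟨hik, hi⟩)
      simp [hik, h3]
  rw [h2, h3] at h1
  exact h1.symm

theorem alt_sum {κ : Type} (J : Finset κ) (r : κ → (i : I) → G i)
    (c : ((i : I) → G i) → A) (S : Finset I) (hc : Aff c) (hS : Dep c S) (hJ : S.card < J.card)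
    (x : (i : I) → G i) :
    ∑ T ∈ J.powerset, (-1 : ℤ) ^ (J.card + T.card) • c (x + ∑ j ∈ T, r j) = 0 := by
  induction J using Finset.induction_on generalizing c S x with
  | empty => exact absurd hJ (Nat.not_lt_zero _)
  | insert j J hj ih =>
    rw [Finset.card_insert_of_notMem hj] at hJ
    have h1 : ∑ T ∈ (insert j J).powerset, (-1 : ℤ) ^ ((insert j J).card + T.card) •
        c (x + ∑ j ∈ T, r j) =
        ∑ T ∈ J.powerset, (-1 : ℤ) ^ (J.card + T.card) •
          (c (x + ∑ j ∈ T, r j + r j) - c (x + ∑ j ∈ T, r j)) := by
      rw [Finset.sum_powerset_insert hj, ← Finset.sum_add_distrib]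
      refine Finset.sum_congr rfl fun T hT => ?_
      have hjT : j ∉ T := fun h => hj (Finset.mem_powerset.1 hT h)
      rw [Finset.card_insert_of_notMem hj, Finset.card_insert_of_notMem hjT,
        Finset.sum_insert hjT]
      have e1 : (-1 : ℤ) ^ (J.card + 1 + T.card) = -(-1) ^ (J.card + T.card) := by ring
      have e2 : (-1 : ℤ) ^ (J.card + 1 + (T.card + 1)) = (-1) ^ (J.card + T.card) := by ring
      have e3 : x + (r j + ∑ j ∈ T, r j) = x + ∑ j ∈ T, r j + r j := by abel
      rw [e1, e2, e3, smul_sub, neg_smul]
      abel
    rw [h1]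
    have key : ∀ K : Finset I, ∑ T ∈ J.powerset, (-1 : ℤ) ^ (J.card + T.card) •
        (c (x + ∑ j ∈ T, r j + ∑ i ∈ K, Pi.single i (r j i)) - c (x + ∑ j ∈ T, r j)) = 0 := by
      intro K
      induction K using Finset.induction_on with
      | empty => simp
      | insert k K hk ihK =>
        have h2 : ∀ T, c (x + ∑ j ∈ T, r j + ∑ i ∈ insert k K, Pi.single i (r j i)) -
            c (x + ∑ j ∈ T, r j) =
            (c (x + ∑ j ∈ T, r j + ∑ i ∈ K, Pi.single i (r j i) + Pi.single k (r j k)) -
              c (x + ∑ j ∈ T, r j + ∑ i ∈ K, Pi.single i (r j i))) +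
            (c (x + ∑ j ∈ T, r j + ∑ i ∈ K, Pi.single i (r j i)) - c (x + ∑ j ∈ T, r j)) := by
          intro T
          have e : x + ∑ j ∈ T, r j + ∑ i ∈ insert k K, Pi.single i (r j i) =
              x + ∑ j ∈ T, r j + ∑ i ∈ K, Pi.single i (r j i) + Pi.single k (r j k) := by
            rw [Finset.sum_insert hk]
            abel
          rw [e]
          abel
        rw [Finset.sum_congr rfl fun T _ => by rw [h2 T, smul_add], Finset.sum_add_distrib, ihK,
          add_zero]
        by_cases hkS : k ∈ S
        · refine ih (c := fun y => c (y + ∑ i ∈ K, Pi.single i (r j i) + Pi.single k (r j k)) -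
            c (y + ∑ i ∈ K, Pi.single i (r j i))) (S.erase k) ?_ (hS.erase hc k _ _) ?_ x
          · have h3 := hc.translate (∑ i ∈ K, Pi.single i (r j i) + Pi.single k (r j k))
            have h4 := h3.sub (hc.translate (∑ i ∈ K, Pi.single i (r j i)))
            intro y i a b
            have h5 := h4 y i a b
            simp only [← add_assoc] at h5
            exact h5
          · rw [Finset.card_erase_of_mem hkS]
            have : 0 < S.card := Finset.card_pos.2 ⟨k, hkS⟩
            omega
        · refine Finset.sum_eq_zero fun T _ => ?_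
          have h3 : c (x + ∑ j ∈ T, r j + ∑ i ∈ K, Pi.single i (r j i) + Pi.single k (r j k)) =
              c (x + ∑ j ∈ T, r j + ∑ i ∈ K, Pi.single i (r j i)) := by
            apply hS
            intro i hi
            have hik : i ≠ k := fun h => hkS (h ▸ hi)
            rw [Pi.add_apply, Pi.single_eq_of_ne hik, add_zero]
          rw [h3, sub_self, smul_zero]
    have h3 := key Finset.univ
    rwa [Finset.univ_sum_single (r j)] at h3

end Pool.Agent.ZCQL
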