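import Pool.Agent.ZCQL.MultiQuad

/-!
# Invariant forms on `E(F)`

`main_two`: the criterion with forms for `E × E`. `main_form`: Galois-invariant zero-cycles on `E × E` of degree and sum
zero supported on points over `F` are torsion if every form on `E(F)` with values in `ℚ` which is invariant under
`Aut(F/L)` and zero on the pairs of points in a common group `HE` is zero; `main_alt`: with alternating forms.
`form_zero_mq2`: the hypothesis of `main_form` if `Aut(F/L)` has exponent two and any two points of `E(F)` with the same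
character are dependent or in a common group `HE`.
-/

set_option autoImplicit false

noncomputable section

namespace Pool.Agent.ZCQL

open WeierstrassCurve Pool.Agent.ZC Pool.Agent.ZCQ Pool.Agent.ZCQK
open scoped Classical

/-- the criterion for `E × E` -/
theorem main_two {L : IntermediateField ℚ (AlgebraicClosure ℚ)} (E : WeierstrassCurve L)
    (hE : E.IsElliptic) (z : Z0N fun _ : Fin 2 => E⁄(AlgebraicClosure ℚ))
    (hz : ∀ σ : AlgebraicClosure ℚ ≃ₐ[L] AlgebraicClosure ℚ,
      z.mapDomain (fun p i => galL E σ (p i)) = z)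
    (hdeg : z.sum (fun _ n => n) = 0) (hsum : ∀ i, z.sum (fun p n => n • p i) = 0)
    (H : ∀ f : (E⁄(AlgebraicClosure ℚ)).toAffine.Point →+
        (E⁄(AlgebraicClosure ℚ)).toAffine.Point →+ ℚ,
      (∀ (σ : AlgebraicClosure ℚ ≃ₐ[L] AlgebraicClosure ℚ) P Q,
        f (galL E σ P) (galL E σ Q) = f P Q) →
      (∀ v P Q, P ∈ HE (E⁄(AlgebraicClosure ℚ)) v → Q ∈ HE (E⁄(AlgebraicClosure ℚ)) v →
        f P Q = 0) → ∀ p ∈ z.support, f (p 0) (p 1) = 0) :
    ∃ M : ℕ, 0 < M ∧ M • z ∈ RatEqN fun _ : Fin 2 => E⁄(AlgebraicClosure ℚ) := by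
  refine main_aux3.1 L 2 (fun _ => E) z (fun _ => hE) hz hdeg hsum (Or.inl ?_)
  intro I f hI hinv hHE
  have hIu : I = Finset.univ := Finset.eq_univ_of_card I (le_antisymm (by
    simpa using Finset.card_le_univ I) (by simpa using hI))
  subst hIu
  set i0 : (Finset.univ : Finset (Fin 2)) := ⟨0, Finset.mem_univ 0⟩ with hi0
  set i1 : (Finset.univ : Finset (Fin 2)) := ⟨1, Finset.mem_univ 1⟩ with hi1
  have h01 : i0 ≠ i1 := fun h => absurd (congrArg Subtype.val h) (by decide)
  have hcase : ∀ i : (Finset.univ : Finset (Fin 2)), i = i0 ∨ i = i1 := by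
    rintro ⟨i, hi⟩
    fin_cases i
    · left
      rfl
    · right
      rfl
  set pr : (E⁄(AlgebraicClosure ℚ)).toAffine.Point → (E⁄(AlgebraicClosure ℚ)).toAffine.Point →
    (↥(Finset.univ : Finset (Fin 2)) → (E⁄(AlgebraicClosure ℚ)).toAffine.Point) :=
    fun P Q i => if i = i0 then P else Q with hpr
  have hpr0 : ∀ P Q, pr P Q i0 = P := fun P Q => if_pos rfl
  have hpr1 : ∀ P Q, pr P Q i1 = Q := fun P Q => if_neg h01.symm
  have hext : ∀ (x : ↥(Finset.univ : Finset (Fin 2)) → (E⁄(AlgebraicClosure ℚ)).toAffine.Point),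
      x = pr (x i0) (x i1) := by
    intro x
    funext i
    rcases hcase i with rfl | rfl
    · rw [hpr0]
    · rw [hpr1]
  have hu0 : ∀ P Q R, Function.update (pr P Q) i0 R = pr R Q := by
    intro P Q R
    rw [hext (Function.update (pr P Q) i0 R), Function.update_self,
      Function.update_of_ne h01.symm, hpr1]
  have hu1 : ∀ P Q R, Function.update (pr P Q) i1 R = pr P R := by
    intro P Q R
    rw [hext (Function.update (pr P Q) i1 R), Function.update_self,
      Function.update_of_ne h01, hpr0]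
  have hl : ∀ P P' Q, f (pr (P + P') Q) = f (pr P Q) + f (pr P' Q) := by
    intro P P' Q
    have h3 := f.map_update_add (pr P Q) i0 P P'
    rw [hu0, hu0, hu0] at h3
    exact h3
  have hr : ∀ P Q Q', f (pr P (Q + Q')) = f (pr P Q) + f (pr P Q') := by
    intro P Q Q'
    have h3 := f.map_update_add (pr P Q) i1 Q Q'
    rw [hu1, hu1, hu1] at h3
    exact h3
  set g : (E⁄(AlgebraicClosure ℚ)).toAffine.Point →+
      (E⁄(AlgebraicClosure ℚ)).toAffine.Point →+ ℚ :=
    AddMonoidHom.mk' (fun P => AddMonoidHom.mk' (fun Q => f (pr P Q)) (hr P)) fun P P' => by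
      ext Q
      exact hl P P' Q with hg
  have hgf : ∀ P Q, g P Q = f (pr P Q) := fun P Q => rfl
  have h5 := H g ?_ ?_
  · rw [Finsupp.sum]
    refine Finset.sum_eq_zero fun p hp => ?_
    have h6 : f (fun i => p i) = 0 := by
      rw [hext (fun i : (Finset.univ : Finset (Fin 2)) => p i), ← hgf]
      exact h5 p hp
    rw [h6, smul_zero]
  · intro σ P Q
    have h3 := hinv σ (pr P Q)
    have h4 : (fun i : ↥(Finset.univ : Finset (Fin 2)) => galL E σ (pr P Q i)) =
        pr (galL E σ P) (galL E σ Q) := by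
      funext i
      rcases hcase i with rfl | rfl
      · rw [hpr0, hpr0]
      · rw [hpr1, hpr1]
    rw [h4] at h3
    exact h3
  · intro v P Q hP hQ
    refine hHE i0 i1 v (pr P Q) h01 ?_ ?_
    · rw [hpr0]
      exact hP
    · rw [hpr1]
      exact hQ

/-- the points over `F` as points over `ℚ̄` -/
def toQbar {L : IntermediateField ℚ (AlgebraicClosure ℚ)}
    (F : IntermediateField L (AlgebraicClosure ℚ)) (E : WeierstrassCurve L) :
    (E⁄F).toAffine.Point →+ (E⁄(AlgebraicClosure ℚ)).toAffine.Point :=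
  Affine.Point.map (W' := E.toAffine) F.val

private theorem toQbar_gal {L : IntermediateField ℚ (AlgebraicClosure ℚ)}
    (F : IntermediateField L (AlgebraicClosure ℚ)) (E : WeierstrassCurve L) (σ : F ≃ₐ[L] F) :
    ∃ τ : AlgebraicClosure ℚ ≃ₐ[L] AlgebraicClosure ℚ, ∀ P,
      toQbar F E (Affine.Point.map (W' := E.toAffine) σ.toAlgHom P) = galL E τ (toQbar F E P) := by
  have hgal : IsGalois L (AlgebraicClosure ℚ) := by
    have h0 : Algebra.IsAlgebraic ℚ (AlgebraicClosure ℚ) := AlgebraicClosure.isAlgebraic ℚ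
    have h : IsAlgClosure L (AlgebraicClosure ℚ) :=
      ⟨inferInstance, Algebra.IsAlgebraic.tower_top (K := ℚ) L⟩
    exact IsAlgClosure.isGalois L (AlgebraicClosure ℚ)
  refine ⟨σ.liftNormal (AlgebraicClosure ℚ), fun P => ?_⟩
  rcases P with _ | ⟨x, y, h⟩
  · rfl
  · refine (Affine.Point.some.injEq _ _ _ _ _ _).mpr ⟨?_, ?_⟩
    · exact (σ.liftNormal_commutes (AlgebraicClosure ℚ) x).symm
    · exact (σ.liftNormal_commutes (AlgebraicClosure ℚ) y).symm

/-- Galois-invariant zero-cycles of degree and sum zero on `E × E` supported on points over `F` are torsion if `E(F)` has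
no nonzero form with values in `ℚ` that is invariant under `Aut(F/L)` and zero on all pairs in a common group `HE`. -/
theorem main_form (L : IntermediateField ℚ (AlgebraicClosure ℚ))
    (F : IntermediateField L (AlgebraicClosure ℚ)) (E : WeierstrassCurve L) (hE : E.IsElliptic)
    (hb : ∀ b : (E⁄F).toAffine.Point →+ (E⁄F).toAffine.Point →+ ℚ,
      (∀ v P Q, toQbar F E P ∈ HE (E⁄(AlgebraicClosure ℚ)) v →
        toQbar F E Q ∈ HE (E⁄(AlgebraicClosure ℚ)) v → b P Q = 0) →
      (∀ (σ : F ≃ₐ[L] F) P Q, b (Affine.Point.map (W' := E.toAffine) σ.toAlgHom P)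
        (Affine.Point.map (W' := E.toAffine) σ.toAlgHom Q) = b P Q) → b = 0)
    (z : Z0N fun _ : Fin 2 => E⁄(AlgebraicClosure ℚ))
    (hz : ∀ σ : AlgebraicClosure ℚ ≃ₐ[L] AlgebraicClosure ℚ,
      z.mapDomain (fun p i => galL E σ (p i)) = z)
    (hdeg : z.sum (fun _ n => n) = 0) (hsum : ∀ i, z.sum (fun p n => n • p i) = 0)
    (hsupp : ∀ p ∈ z.support, ∀ i x y h, p i = Affine.Point.some x y h → x ∈ F ∧ y ∈ F) :
    ∃ M : ℕ, 0 < M ∧ M • z ∈ RatEqN fun _ : Fin 2 => E⁄(AlgebraicClosure ℚ) := by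
  refine main_two E hE z hz hdeg hsum fun f hinv hHE p hp => ?_
  set ι := toQbar F E with hι
  set b : (E⁄F).toAffine.Point →+ (E⁄F).toAffine.Point →+ ℚ :=
    AddMonoidHom.mk' (fun P => (f (ι P)).comp ι) fun P P' => by
      ext Q
      simp with hbd
  have hbf : ∀ P Q, b P Q = f (ι P) (ι Q) := fun P Q => rfl
  have hb0 : b = 0 := by
    refine hb b (fun v P Q hP hQ => ?_) fun σ P Q => ?_
    · rw [hbf]
      exact hHE v _ _ hP hQ
    · obtain ⟨τ, hτ⟩ := toQbar_gal F E σ
      rw [hbf, hτ, hτ, hinv, ← hbf]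
  have hx : ∀ i, ∃ P, p i = ι P := by
    intro i
    have h1 := hsupp p hp i
    rcases hpi : p i with _ | ⟨x, y, h⟩
    · exact ⟨0, rfl⟩
    · obtain ⟨h2, h3⟩ := h1 x y h hpi
      have h4 : (E⁄F).toAffine.Nonsingular ⟨x, h2⟩ ⟨y, h3⟩ :=
        (Affine.baseChange_nonsingular E.toAffine (f := F.val) F.val.injective
          ⟨x, h2⟩ ⟨y, h3⟩).1 h
      exact ⟨Affine.Point.some _ _ h4, rfl⟩
  obtain ⟨P, hP⟩ := hx 0
  obtain ⟨Q, hQ⟩ := hx 1
  rw [hP, hQ, ← hbf, hb0]
  rfl

/-- Galois-invariant zero-cycles of degree and sum zero on `E × E` supported on points over `F` are torsion if `E(F)` has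
no nonzero alternating form with values in `ℚ` that is invariant under `Aut(F/L)`. -/
theorem main_alt (L : IntermediateField ℚ (AlgebraicClosure ℚ))
    (F : IntermediateField L (AlgebraicClosure ℚ)) (E : WeierstrassCurve L) (hE : E.IsElliptic)
    (hb : ∀ b : (E⁄F).toAffine.Point →+ (E⁄F).toAffine.Point →+ ℚ, (∀ P, b P P = 0) →
      (∀ (σ : F ≃ₐ[L] F) P Q, b (Affine.Point.map (W' := E.toAffine) σ.toAlgHom P)
        (Affine.Point.map (W' := E.toAffine) σ.toAlgHom Q) = b P Q) → b = 0)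
    (z : Z0N fun _ : Fin 2 => E⁄(AlgebraicClosure ℚ))
    (hz : ∀ σ : AlgebraicClosure ℚ ≃ₐ[L] AlgebraicClosure ℚ,
      z.mapDomain (fun p i => galL E σ (p i)) = z)
    (hdeg : z.sum (fun _ n => n) = 0) (hsum : ∀ i, z.sum (fun p n => n • p i) = 0)
    (hsupp : ∀ p ∈ z.support, ∀ i x y h, p i = Affine.Point.some x y h → x ∈ F ∧ y ∈ F) :
    ∃ M : ℕ, 0 < M ∧ M • z ∈ RatEqN fun _ : Fin 2 => E⁄(AlgebraicClosure ℚ) := by
  refine main_form L F E hE (fun b h1 h2 => hb b (fun P => ?_) h2) z hz hdeg hsum hsupp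
  obtain ⟨v, hv⟩ := main_aux3.2.1 (E⁄(AlgebraicClosure ℚ)) (toQbar F E P)
    (inferInstanceAs (E.map (algebraMap L (AlgebraicClosure ℚ))).IsElliptic)
  exact h1 v P P hv hv

/-- If `Aut(F/L)` has exponent two and any two points of `E(F)` with the same character are dependent or in a common group
`HE`, the hypothesis of `main_form` is fulfilled. -/
theorem form_zero_mq2 {L : IntermediateField ℚ (AlgebraicClosure ℚ)}
    (F : IntermediateField L (AlgebraicClosure ℚ)) (E : WeierstrassCurve L) (hE : E.IsElliptic)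
    (hF : ∀ σ : F ≃ₐ[L] F, ∀ x, σ (σ x) = x)
    (hr : ∀ P Q : (E⁄F).toAffine.Point, (∀ σ : F ≃ₐ[L] F,
      (Affine.Point.map (W' := E.toAffine) σ.toAlgHom P = P ∧
        Affine.Point.map (W' := E.toAffine) σ.toAlgHom Q = Q) ∨
      (Affine.Point.map (W' := E.toAffine) σ.toAlgHom P = -P ∧
        Affine.Point.map (W' := E.toAffine) σ.toAlgHom Q = -Q)) →
      (∃ a b : ℤ, (a ≠ 0 ∨ b ≠ 0) ∧ a • P = b • Q) ∨
        ∃ v, toQbar F E P ∈ HE (E⁄(AlgebraicClosure ℚ)) v ∧
          toQbar F E Q ∈ HE (E⁄(AlgebraicClosure ℚ)) v)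
    (b : (E⁄F).toAffine.Point →+ (E⁄F).toAffine.Point →+ ℚ)
    (hb : ∀ v P Q, toQbar F E P ∈ HE (E⁄(AlgebraicClosure ℚ)) v →
        toQbar F E Q ∈ HE (E⁄(AlgebraicClosure ℚ)) v → b P Q = 0)
    (hinv : ∀ (σ : F ≃ₐ[L] F) P Q, b (Affine.Point.map (W' := E.toAffine) σ.toAlgHom P)
      (Affine.Point.map (W' := E.toAffine) σ.toAlgHom Q) = b P Q) : b = 0 := by
  set ρ : (F ≃ₐ[L] F) →* AddMonoid.End (E⁄F).toAffine.Point :=
    { toFun := fun σ => Affine.Point.map (W' := E.toAffine) σ.toAlgHom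
      map_one' := by
        ext P
        rcases P with _ | ⟨x, y, h⟩ <;> rfl
      map_mul' := fun σ τ => by
        ext P
        rcases P with _ | ⟨x, y, h⟩ <;> rfl } with hρ
  have hιi : Function.Injective (toQbar F E) := Affine.Point.map_injective _
  have hb' : ∀ P, b P P = 0 := by
    intro P
    obtain ⟨v, hv⟩ := main_aux3.2.1 (E⁄(AlgebraicClosure ℚ)) (toQbar F E P)
      (inferInstanceAs (E.map (algebraMap L (AlgebraicClosure ℚ))).IsElliptic)
    exact hb v P P hv hv
  have h0 := form_zero_mq ρ ⊤ (fun _ _ _ => AddSubgroup.mem_top _) ?_ ?_ (fun P Q => b P Q)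
    ?_ ?_ ?_ ?_
  · ext P Q
    exact h0 P (AddSubgroup.mem_top _) Q (AddSubgroup.mem_top _)
  · intro σ P _
    rcases P with _ | ⟨x, y, h⟩
    · rfl
    · refine (Affine.Point.some.injEq _ _ _ _ _ _).mpr ⟨?_, ?_⟩
      · exact hF σ x
      · exact hF σ y
  · intro P _
    refine ((galL_finite E (toQbar F E P)).preimage hιi.injOn).subset ?_
    rintro _ ⟨σ, rfl⟩
    obtain ⟨τ, hτ⟩ := toQbar_gal F E σ
    exact ⟨τ, (hτ P).symm⟩
  · intro P P' Q
    simp
  · intro P Q Q'
    simp
  · intro σ P Q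
    exact hinv σ P Q
  · intro P _ Q _ h
    rcases hr P Q h with ⟨m, n, hmn, e⟩ | ⟨v, hP, hQ⟩
    · have e1 : (m : ℚ) * b P Q = 0 := by
        have e2 : b (m • P) Q = b (n • Q) Q := by rw [e]
        rw [map_zsmul, map_zsmul, AddMonoidHom.smul_apply, AddMonoidHom.smul_apply, hb', smul_zero,
          zsmul_eq_mul] at e2
        exact e2
      have e3 : (n : ℚ) * b P Q = 0 := by
        have e2 : b P (m • P) = b P (n • Q) := by rw [e]
        rw [map_zsmul, map_zsmul, hb', smul_zero, zsmul_eq_mul] at e2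
        exact e2.symm
      rcases hmn with hm | hn
      · exact (mul_eq_zero.1 e1).resolve_left (Int.cast_ne_zero.2 hm)
      · exact (mul_eq_zero.1 e3).resolve_left (Int.cast_ne_zero.2 hn)
    · exact hb v P Q hP hQ

end Pool.Agent.ZCQL
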