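import Pool.Agent.ZCQL.AltForm

/-!
# Invariant forms on the groups `A i (F)`

`main_formN`: Galois-invariant zero-cycles on a product of elliptic curves `A i` over `L`, of degree and sum zero and
supported on points over `F`, are torsion if there are no nonzero multiadditive forms on two or more of the groups
`A i (F)` with values in `ℚ` which are invariant under `Aut(F/L)` and zero if two coordinates are in the groups `HE` for
the same abscissa; `main_formP`: the field may depend on the point. `main_altN`: for the powers of one curve, with alternating forms. `main_exp2`: `Aut(F/L)` of exponent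
two.
-/

set_option autoImplicit false

noncomputable section

namespace Pool.Agent.ZCQL

open WeierstrassCurve Pool.Agent.ZC Pool.Agent.ZCQ Pool.Agent.ZCQK
open scoped Classical

private theorem toQbar_galN {L : IntermediateField ℚ (AlgebraicClosure ℚ)}
    (F : IntermediateField L (AlgebraicClosure ℚ)) (σ : F ≃ₐ[L] F) :
    ∃ τ : AlgebraicClosure ℚ ≃ₐ[L] AlgebraicClosure ℚ, ∀ (E : WeierstrassCurve L) P,
      toQbar F E (Affine.Point.map (W' := E.toAffine) σ.toAlgHom P) = galL E τ (toQbar F E P) := by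
  have hgal : IsGalois L (AlgebraicClosure ℚ) := by
    have h0 : Algebra.IsAlgebraic ℚ (AlgebraicClosure ℚ) := AlgebraicClosure.isAlgebraic ℚ
    have h : IsAlgClosure L (AlgebraicClosure ℚ) :=
      ⟨inferInstance, Algebra.IsAlgebraic.tower_top (K := ℚ) L⟩
    exact IsAlgClosure.isGalois L (AlgebraicClosure ℚ)
  refine ⟨σ.liftNormal (AlgebraicClosure ℚ), fun E P => ?_⟩
  rcases P with _ | ⟨x, y, h⟩
  · rfl
  · refine (Affine.Point.some.injEq _ _ _ _ _ _).mpr ⟨?_, ?_⟩
    · exact (σ.liftNormal_commutes (AlgebraicClosure ℚ) x).symm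
    · exact (σ.liftNormal_commutes (AlgebraicClosure ℚ) y).symm

private theorem toQbar_surjN {L : IntermediateField ℚ (AlgebraicClosure ℚ)}
    (F : IntermediateField L (AlgebraicClosure ℚ)) (E : WeierstrassCurve L)
    (p : (E⁄(AlgebraicClosure ℚ)).toAffine.Point)
    (h1 : ∀ x y h, p = Affine.Point.some x y h → x ∈ F ∧ y ∈ F) : ∃ P, p = toQbar F E P := by
  rcases p with _ | ⟨x, y, h⟩
  · exact ⟨0, rfl⟩
  · obtain ⟨h2, h3⟩ := h1 x y h rfl
    have h4 : (E⁄F).toAffine.Nonsingular ⟨x, h2⟩ ⟨y, h3⟩ :=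
      (Affine.baseChange_nonsingular E.toAffine (f := F.val) F.val.injective
        ⟨x, h2⟩ ⟨y, h3⟩).1 h
    exact ⟨Affine.Point.some _ _ h4, rfl⟩

/-- Galois-invariant zero-cycles of degree and sum zero on a product of elliptic curves supported on points over `F` are
torsion if there are no nonzero invariant forms on the points over `F` which vanish when two coordinates are in the groups
`HE` for the same abscissa. -/
theorem main_formN (L : IntermediateField ℚ (AlgebraicClosure ℚ))
    (F : IntermediateField L (AlgebraicClosure ℚ)) (N : ℕ) (A : Fin N → WeierstrassCurve L)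
    (hA : ∀ i, (A i).IsElliptic)
    (hb : ∀ (I : Finset (Fin N))
      (b : MultilinearMap ℤ (fun i : I => ((A i)⁄F).toAffine.Point) ℚ), 2 ≤ I.card →
      (∀ (σ : F ≃ₐ[L] F) (x : (i : I) → ((A i)⁄F).toAffine.Point),
        b (fun i => Affine.Point.map (W' := (A i).toAffine) σ.toAlgHom (x i)) = b x) →
      (∀ (i j : I) (v : AlgebraicClosure ℚ) (x : (i : I) → ((A i)⁄F).toAffine.Point), i ≠ j →
        toQbar F (A i) (x i) ∈ HE ((A i)⁄(AlgebraicClosure ℚ)) v →
        toQbar F (A j) (x j) ∈ HE ((A j)⁄(AlgebraicClosure ℚ)) v → b x = 0) → b = 0)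
    (z : Z0N fun i => (A i)⁄(AlgebraicClosure ℚ))
    (hz : ∀ σ : AlgebraicClosure ℚ ≃ₐ[L] AlgebraicClosure ℚ,
      z.mapDomain (fun p i => galL (A i) σ (p i)) = z)
    (hdeg : z.sum (fun _ n => n) = 0) (hsum : ∀ i, z.sum (fun p n => n • p i) = 0)
    (hsupp : ∀ p ∈ z.support, ∀ i x y h, p i = Affine.Point.some x y h → x ∈ F ∧ y ∈ F) :
    ∃ M : ℕ, 0 < M ∧ M • z ∈ RatEqN fun i => (A i)⁄(AlgebraicClosure ℚ) := by
  refine main_aux3.1 L N A z hA hz hdeg hsum (Or.inl ?_)
  intro I f hI hinv hHE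
  set b : MultilinearMap ℤ (fun i : I => ((A i)⁄F).toAffine.Point) ℚ :=
    f.compLinearMap fun i => (toQbar F (A i)).toIntLinearMap with hbd
  have hbf : ∀ x, b x = f fun i => toQbar F (A i) (x i) := fun x => rfl
  have hb0 : b = 0 := by
    refine hb I b hI (fun σ x => ?_) fun i j v x hij h1 h2 => ?_
    · obtain ⟨τ, hτ⟩ := toQbar_galN F σ
      rw [hbf, hbf, ← hinv τ fun i => toQbar F (A i) (x i)]
      congr 1
      funext i
      exact hτ (A i) (x i)
    · rw [hbf]
      exact hHE i j v _ hij h1 h2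
  rw [Finsupp.sum]
  refine Finset.sum_eq_zero fun p hp => ?_
  choose x hx using fun i : I => toQbar_surjN F (A i) (p i) (hsupp p hp i)
  have h6 : f (fun i => p i) = 0 := by
    have h7 : (fun i : I => p i) = fun i : I => toQbar F (A i) (x i) := funext hx
    rw [h7, ← hbf, hb0]
    rfl
  rw [h6, smul_zero]

/-- Galois-invariant zero-cycles of degree and sum zero on a product of elliptic curves are torsion if every point in the
support has its coordinates in a field `F` (which may depend on the point) over which there are no nonzero invariant forms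
which vanish when two coordinates are in the groups `HE` for the same abscissa. -/
theorem main_formP (L : IntermediateField ℚ (AlgebraicClosure ℚ)) (N : ℕ)
    (A : Fin N → WeierstrassCurve L) (hA : ∀ i, (A i).IsElliptic)
    (z : Z0N fun i => (A i)⁄(AlgebraicClosure ℚ))
    (hz : ∀ σ : AlgebraicClosure ℚ ≃ₐ[L] AlgebraicClosure ℚ,
      z.mapDomain (fun p i => galL (A i) σ (p i)) = z)
    (hdeg : z.sum (fun _ n => n) = 0) (hsum : ∀ i, z.sum (fun p n => n • p i) = 0)
    (hsupp : ∀ p ∈ z.support, ∃ F : IntermediateField L (AlgebraicClosure ℚ),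
      (∀ i x y h, p i = Affine.Point.some x y h → x ∈ F ∧ y ∈ F) ∧
      ∀ (I : Finset (Fin N))
      (b : MultilinearMap ℤ (fun i : I => ((A i)⁄F).toAffine.Point) ℚ), 2 ≤ I.card →
      (∀ (σ : F ≃ₐ[L] F) (x : (i : I) → ((A i)⁄F).toAffine.Point),
        b (fun i => Affine.Point.map (W' := (A i).toAffine) σ.toAlgHom (x i)) = b x) →
      (∀ (i j : I) (v : AlgebraicClosure ℚ) (x : (i : I) → ((A i)⁄F).toAffine.Point), i ≠ j →
        toQbar F (A i) (x i) ∈ HE ((A i)⁄(AlgebraicClosure ℚ)) v →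
        toQbar F (A j) (x j) ∈ HE ((A j)⁄(AlgebraicClosure ℚ)) v → b x = 0) → b = 0) :
    ∃ M : ℕ, 0 < M ∧ M • z ∈ RatEqN fun i => (A i)⁄(AlgebraicClosure ℚ) := by
  refine main_aux3.1 L N A z hA hz hdeg hsum (Or.inl ?_)
  intro I f hI hinv hHE
  rw [Finsupp.sum]
  refine Finset.sum_eq_zero fun p hp => ?_
  obtain ⟨F, hF, hb⟩ := hsupp p hp
  set b : MultilinearMap ℤ (fun i : I => ((A i)⁄F).toAffine.Point) ℚ :=
    f.compLinearMap fun i => (toQbar F (A i)).toIntLinearMap with hbd
  have hbf : ∀ x, b x = f fun i => toQbar F (A i) (x i) := fun x => rfl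
  have hb0 : b = 0 := by
    refine hb I b hI (fun σ x => ?_) fun i j v x hij h1 h2 => ?_
    · obtain ⟨τ, hτ⟩ := toQbar_galN F σ
      rw [hbf, hbf, ← hinv τ fun i => toQbar F (A i) (x i)]
      congr 1
      funext i
      exact hτ (A i) (x i)
    · rw [hbf]
      exact hHE i j v _ hij h1 h2
  choose x hx using fun i : I => toQbar_surjN F (A i) (p i) (hF i)
  have h6 : f (fun i => p i) = 0 := by
    have h7 : (fun i : I => p i) = fun i : I => toQbar F (A i) (x i) := funext hx
    rw [h7, ← hbf, hb0]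
    rfl
  rw [h6, smul_zero]

/-- Galois-invariant zero-cycles of degree and sum zero on `E ^ N` supported on points over `F` are torsion if there are
no nonzero invariant alternating forms in `k` variables, `2 ≤ k ≤ N`, on `E(F)`. -/
theorem main_altN (L : IntermediateField ℚ (AlgebraicClosure ℚ))
    (F : IntermediateField L (AlgebraicClosure ℚ)) (N : ℕ) (E : WeierstrassCurve L)
    (hE : E.IsElliptic)
    (hb : ∀ k, 2 ≤ k → k ≤ N → ∀ b : (E⁄F).toAffine.Point [⋀^Fin k]→ₗ[ℤ] ℚ,
      (∀ (σ : F ≃ₐ[L] F) x,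
        b (fun i => Affine.Point.map (W' := E.toAffine) σ.toAlgHom (x i)) = b x) → b = 0)
    (z : Z0N fun _ : Fin N => E⁄(AlgebraicClosure ℚ))
    (hz : ∀ σ : AlgebraicClosure ℚ ≃ₐ[L] AlgebraicClosure ℚ,
      z.mapDomain (fun p i => galL E σ (p i)) = z)
    (hdeg : z.sum (fun _ n => n) = 0) (hsum : ∀ i, z.sum (fun p n => n • p i) = 0)
    (hsupp : ∀ p ∈ z.support, ∀ i x y h, p i = Affine.Point.some x y h → x ∈ F ∧ y ∈ F) :
    ∃ M : ℕ, 0 < M ∧ M • z ∈ RatEqN fun _ : Fin N => E⁄(AlgebraicClosure ℚ) := by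
  refine main_formN L F N (fun _ => E) (fun _ => hE) ?_ z hz hdeg hsum hsupp
  intro I b hI hinv hHE
  have hdiag : ∀ (x : I → (E⁄F).toAffine.Point) (i j : I), x i = x j → i ≠ j → b x = 0 := by
    intro x i j hx hij
    obtain ⟨v, hv⟩ := main_aux3.2.1 (E⁄(AlgebraicClosure ℚ)) (toQbar F E (x i))
      (inferInstanceAs (E.map (algebraMap L (AlgebraicClosure ℚ))).IsElliptic)
    refine hHE i j v x hij hv ?_
    rw [← hx]
    exact hv
  set e : I ≃ Fin I.card := I.equivFin with he
  set a : (E⁄F).toAffine.Point [⋀^I]→ₗ[ℤ] ℚ :=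
    { b with map_eq_zero_of_eq' := fun x i j h hij => hdiag x i j h hij } with ha
  have h1 := hb I.card hI (by simpa using Finset.card_le_univ I) (a.domDomCongr e) ?_
  · ext x
    have h2 : a.domDomCongr e (fun i => x (e.symm i)) = 0 := by
      rw [h1]
      rfl
    rw [AlternatingMap.domDomCongr_apply] at h2
    have h3 : (fun i => x (e.symm i)) ∘ e = x := by
      funext i
      exact congrArg x (e.symm_apply_apply i)
    rw [h3] at h2
    exact h2
  · intro σ x
    exact hinv σ fun i => x (e i)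

/-- Zero-cycles on `E × E` over `L` of degree and sum zero supported on points over `F` are torsion if `Aut(F/L)` has
exponent two and any two points of `E(F)` with the same character are dependent or in a common group `HE`. -/
theorem main_exp2 (L : IntermediateField ℚ (AlgebraicClosure ℚ))
    (F : IntermediateField L (AlgebraicClosure ℚ)) (E : WeierstrassCurve L) (hE : E.IsElliptic)
    (hF : ∀ σ : F ≃ₐ[L] F, ∀ x, σ (σ x) = x)
    (hr : ∀ P Q : (E⁄F).toAffine.Point, (∀ σ : F ≃ₐ[L] F,
      (Affine.Point.map (W' := E.toAffine) σ.toAlgHom P = P ∧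
        Affine.Point.map (W' := E.toAffine) σ.toAlgHom Q = Q) ∨
      (Affine.Point.map (W' := E.toAffine) σ.toAlgHom P = -P ∧
        Affine.Point.map (W' := E.toAffine) σ.toAlgHom Q = -Q)) →
      (∃ a b : ℤ, (a ≠ 0 ∨ b ≠ 0) ∧ a • P = b • Q) ∨
        ∃ v, Affine.Point.map (W' := E.toAffine) F.val P ∈ HE (E⁄(AlgebraicClosure ℚ)) v ∧
          Affine.Point.map (W' := E.toAffine) F.val Q ∈ HE (E⁄(AlgebraicClosure ℚ)) v)
    (z : Z0N fun _ : Fin 2 => E⁄(AlgebraicClosure ℚ))
    (hz : ∀ σ : AlgebraicClosure ℚ ≃ₐ[L] AlgebraicClosure ℚ,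
      z.mapDomain (fun p i => galL E σ (p i)) = z)
    (hdeg : z.sum (fun _ n => n) = 0) (hsum : ∀ i, z.sum (fun p n => n • p i) = 0)
    (hsupp : ∀ p ∈ z.support, ∀ i x y h, p i = Affine.Point.some x y h → x ∈ F ∧ y ∈ F) :
    ∃ M : ℕ, 0 < M ∧ M • z ∈ RatEqN fun _ : Fin 2 => E⁄(AlgebraicClosure ℚ) :=
  main_form L F E hE (fun b h1 h2 => form_zero_mq2 F E hE hF hr b h1 h2) z hz hdeg hsum hsupp

end Pool.Agent.ZCQL
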