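import Pool.Agent.ZCQL.Alg

/-!
# Averages over a group
-/

set_option autoImplicit false

noncomputable section

namespace Pool.Agent.ZCQL

open Function
open scoped Classical

variable {Γ : Type} [Group Γ]

/-- Finitely many elements with finite orbits: the group acts on them through a finite set. -/
theorem exists_avg {M : Type} [AddCommGroup M] (ρ : Γ →* AddMonoid.End M) (T : Finset M)
    (hT : ∀ x ∈ T, (Set.range fun γ => ρ γ x).Finite) :
    ∃ (ι : Type) (_ : Fintype ι) (_ : Nonempty ι) (γ : ι → Γ), ∀ σ : Γ, ∃ π : ι ≃ ι,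
      ∀ f, ∀ t ∈ T, ρ σ (ρ (γ f) t) = ρ (γ (π f)) t := by
  set F : Γ → (T → M) := fun γ t => ρ γ t with hF
  have hfin : (Set.range F).Finite := by
    refine (Set.Finite.pi' (t := fun t : T => Set.range fun γ => ρ γ (t : M))
      fun t => hT t t.2).subset ?_
    rintro _ ⟨γ, rfl⟩ t
    exact ⟨γ, rfl⟩
  have := hfin.fintype
  choose g hg using fun f : Set.range F => f.2
  have hmap : ∀ σ : Γ, ∀ f : Set.range F, (fun t => ρ σ (f.1 t)) ∈ Set.range F := by
    intro σ f
    refine ⟨σ * g f, ?_⟩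
    funext t
    have h1 : f.1 t = ρ (g f) t := (congrFun (hg f) t).symm
    rw [h1, hF]
    simp only [map_mul]
    rfl
  refine ⟨Set.range F, this, ⟨⟨F 1, 1, rfl⟩⟩, g, fun σ => ?_⟩
  have hinv : ∀ (σ : Γ) (x : M), ρ σ⁻¹ (ρ σ x) = x := by
    intro σ x
    have h1 : (ρ σ⁻¹ * ρ σ) x = x := by
      rw [← map_mul, inv_mul_cancel, map_one]
      rfl
    exact h1
  let e : Set.range F ≃ Set.range F :=
    { toFun := fun f => ⟨_, hmap σ f⟩
      invFun := fun f => ⟨_, hmap σ⁻¹ f⟩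
      left_inv := fun f => by
        ext t
        exact hinv σ _
      right_inv := fun f => by
        ext t
        have h1 := hinv σ⁻¹ (f.1 t)
        rw [inv_inv] at h1
        exact h1 }
  refine ⟨e, fun f t ht => ?_⟩
  have h1 : ρ (g f) t = f.1 ⟨t, ht⟩ := congrFun (hg f) ⟨t, ht⟩
  have h2 : ρ (g (e f)) t = (e f).1 ⟨t, ht⟩ := congrFun (hg (e f)) ⟨t, ht⟩
  rw [h1, h2]
  rfl

section

variable {I : Type} [Fintype I] {G : I → Type} [∀ i, AddCommGroup (G i)]

/-- The diagonal action on the product. -/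
def act (ρ : (i : I) → Γ →* AddMonoid.End (G i)) : Γ →* AddMonoid.End ((i : I) → G i) where
  toFun γ :=
    { toFun := fun p i => ρ i γ (p i)
      map_zero' := by
        funext i
        exact map_zero _
      map_add' := fun p q => by
        funext i
        exact map_add _ _ _ }
  map_one' := by
    ext p i
    change ρ i 1 (p i) = p i
    rw [map_one]
    rfl
  map_mul' γ δ := by
    ext p i
    change ρ i (γ * δ) (p i) = ρ i γ (ρ i δ (p i))
    rw [map_mul]
    rfl

omit [Fintype I] in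
theorem act_apply (ρ : (i : I) → Γ →* AddMonoid.End (G i)) (γ : Γ) (p : (i : I) → G i) (i : I) :
    act ρ γ p i = ρ i γ (p i) := rfl

/-- The sum of the conjugates of an element with finite orbit. -/
def trc {M : Type} [AddCommGroup M] (ρ : Γ →* AddMonoid.End M) (x : M) : M :=
  ∑ᶠ y ∈ Set.range fun γ => ρ γ x, y

theorem sum_mem_of_trc {M : Type} [AddCommGroup M] (ρ : Γ →* AddMonoid.End M) {x : M}
    (hx : (Set.range fun γ => ρ γ x).Finite) {S : AddSubgroup M} (h : trc ρ x ∈ S) {ι : Type}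
    [Fintype ι] (γ : ι → Γ)
    (hπ : ∀ σ : Γ, ∃ π : ι ≃ ι, ∀ f, ρ σ (ρ (γ f) x) = ρ (γ (π f)) x) :
    ∑ f, ρ (γ f) x ∈ S := by
  set O := hx.toFinset with hO
  have hmaps : ∀ f ∈ (Finset.univ : Finset ι), ρ (γ f) x ∈ O := fun f _ =>
    hx.mem_toFinset.2 ⟨γ f, rfl⟩
  rw [← Finset.sum_fiberwise_of_maps_to hmaps]
  have hcard : ∃ k : ℕ, ∀ y ∈ O, (Finset.univ.filter fun f => ρ (γ f) x = y).card = k := by
    refine ⟨(Finset.univ.filter fun f => ρ (γ f) x = x).card, fun y hy => ?_⟩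
    obtain ⟨σ, rfl⟩ := hx.mem_toFinset.1 hy
    obtain ⟨π, hπ'⟩ := hπ σ
    symm
    refine Finset.card_bij (fun f _ => π f) ?_ (fun _ _ _ _ h => π.injective h) ?_
    · intro f hf
      rw [Finset.mem_filter] at hf ⊢
      refine ⟨Finset.mem_univ _, ?_⟩
      rw [← hπ' f, hf.2]
    · intro f hf
      rw [Finset.mem_filter] at hf
      refine ⟨π.symm f, ?_, π.apply_symm_apply f⟩
      rw [Finset.mem_filter]
      refine ⟨Finset.mem_univ _, ?_⟩
      have h1 := hπ' (π.symm f)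
      rw [π.apply_symm_apply, hf.2] at h1
      have h2 : (ρ σ⁻¹ * ρ σ) (ρ (γ (π.symm f)) x) = (ρ σ⁻¹ * ρ σ) x := congrArg (ρ σ⁻¹) h1
      rw [← map_mul, inv_mul_cancel, map_one] at h2
      exact h2
  obtain ⟨k, hk⟩ := hcard
  have h1 : ∑ y ∈ O, ∑ f ∈ Finset.univ.filter (fun f => ρ (γ f) x = y), ρ (γ f) x =
      k • ∑ y ∈ O, y := by
    rw [Finset.smul_sum]
    refine Finset.sum_congr rfl fun y hy => ?_
    rw [← hk y hy, ← Finset.sum_const]
    refine Finset.sum_congr rfl fun f hf => ?_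
    exact (Finset.mem_filter.1 hf).2
  rw [h1]
  have h2 : trc ρ x = ∑ y ∈ O, y := by
    unfold trc
    rw [finsum_mem_eq_finite_toFinset_sum _ hx]
  rw [h2] at h
  exact S.nsmul_mem h k

theorem trc_fixed {M : Type} [AddCommGroup M] (ρ : Γ →* AddMonoid.End M) {x : M}
    (hx : (Set.range fun γ => ρ γ x).Finite) (σ : Γ) : ρ σ (trc ρ x) = trc ρ x := by
  have h2 : trc ρ x = ∑ y ∈ hx.toFinset, y := by
    unfold trc
    rw [finsum_mem_eq_finite_toFinset_sum _ hx]
  have hinv : ∀ (σ : Γ) (y : M), ρ σ⁻¹ (ρ σ y) = y := by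
    intro σ y
    have h1 : (ρ σ⁻¹ * ρ σ) y = y := by
      rw [← map_mul, inv_mul_cancel, map_one]
      rfl
    exact h1
  have hmem : ∀ (σ : Γ), ∀ y ∈ hx.toFinset, ρ σ y ∈ hx.toFinset := by
    intro σ y hy
    obtain ⟨δ, rfl⟩ := hx.mem_toFinset.1 hy
    refine hx.mem_toFinset.2 ⟨σ * δ, ?_⟩
    change ρ (σ * δ) x = ρ σ (ρ δ x)
    rw [map_mul]
    rfl
  rw [h2, map_sum]
  refine Finset.sum_nbij' (fun y => ρ σ y) (fun y => ρ σ⁻¹ y) (hmem σ) (hmem σ⁻¹)
    (fun y _ => hinv σ y) (fun y _ => ?_) (fun _ _ => rfl)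
  have h1 := hinv σ⁻¹ y
  rw [inv_inv] at h1
  exact h1

variable {A : Type} [AddCommGroup A] {c : ((i : I) → G i) → A}

theorem avg (hc : Aff c) (hA : ∀ (n : ℕ) (a : A), 0 < n → n • a = 0 → a = 0)
    (ρ : (i : I) → Γ →* AddMonoid.End (G i)) (S : (i : I) → AddSubgroup (G i))
    (hS : ∀ i j, i ≠ j → ∀ a ∈ S i, ∀ b ∈ S j, Orth c i j a b)
    (hsat : ∀ i (a : G i) (n : ℕ), 0 < n → n • a ∈ S i → a ∈ S i)
    (hfix : ∀ i, ∀ a ∈ S i, ∀ γ, ∃ n : ℕ, 0 < n ∧ n • (ρ i γ a) = n • a)
    (hfin : ∀ i (x : G i), (Set.range fun γ => ρ i γ x).Finite)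
    (z : ((i : I) → G i) →₀ ℤ) (hz : ∀ γ, z.mapDomain (act ρ γ) = z)
    (hp : ∀ p ∈ z.support, ∃ r : (i : I) → G i, (∀ i, p i - r i ∈ S i) ∧
      ∀ γ, POrth c (act ρ γ r))
    (htr : ∀ p ∈ z.support, ∀ i, trc (ρ i) (p i) ∈ S i)
    (hd : z.sum (fun _ n => n) = 0) (hs : ∀ i, z.sum (fun p n => n • p i) = 0) :
    z.sum (fun p n => n • c p) = 0 := by
  classical
  choose! R hR1 hR2 using hp
  have hact : ∀ x : (i : I) → G i, (Set.range fun γ => act ρ γ x).Finite := by
    intro x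
    refine (Set.Finite.pi' (t := fun i : I => Set.range fun γ => ρ i γ (x i))
      fun i => hfin i (x i)).subset ?_
    rintro _ ⟨γ, rfl⟩ i
    exact ⟨γ, rfl⟩
  obtain ⟨ι, hι, hne, γ, hπ⟩ := exists_avg (act ρ) (z.support ∪ z.support.image R)
    fun x _ => hact x
  -- the elements of `S i` stay in `S i`
  have hSρ : ∀ i, ∀ a ∈ S i, ∀ δ, ρ i δ a ∈ S i := by
    intro i a ha δ
    obtain ⟨n, hn, h⟩ := hfix i a ha δ
    apply hsat i _ n hn
    rw [h]
    exact (S i).nsmul_mem ha n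
  -- the linear and bilinear maps
  let L : (i : I) → G i →+ A := fun i => AddMonoidHom.mk' (lin c i) (lin_add hc i)
  have hL : ∀ i a, L i a = lin c i a := fun _ _ => rfl
  have hbil : ∀ {i j : I} (hij : i ≠ j) (a : G i) (b : G j), bil c i j a b = DH hc 0 hij a b :=
    fun hij a b => bil_eq hij a b
  -- the value of the average
  have key : ∀ p ∈ z.support, ∑ f, c (act ρ (γ f) p) =
      (Fintype.card ι : ℕ) • c 0 + ∑ i, L i (∑ f, ρ i (γ f) (p i)) := by
    intro p hp
    set r := R p with hr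
    set g : (i : I) → G i := p - r with hg
    have hgS : ∀ i, g i ∈ S i := fun i => hR1 p hp i
    have h1 : ∀ f, c (act ρ (γ f) p) = c 0 + ∑ i, L i (ρ i (γ f) (g i)) +
        ∑ i, L i (ρ i (γ f) (r i)) +
        ∑ i, ∑ j ∈ Finset.univ.erase i, bil c i j (ρ i (γ f) (g i)) (ρ j (γ f) (r j)) := by
      intro f
      have h2 : act ρ (γ f) p = act ρ (γ f) g + act ρ (γ f) r := by
        rw [← map_add, hg, sub_add_cancel]
      rw [h2]
      refine formula2 hc (fun i j hij => ?_) (hR2 p hp (γ f))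
      exact hS i j hij _ (hSρ i _ (hgS i) _) _ (hSρ j _ (hgS j) _)
    rw [Finset.sum_congr rfl fun f _ => h1 f, Finset.sum_add_distrib, Finset.sum_add_distrib,
      Finset.sum_add_distrib, Finset.sum_const, Finset.card_univ]
    have h3 : ∑ f, ∑ i, ∑ j ∈ Finset.univ.erase i,
        bil c i j (ρ i (γ f) (g i)) (ρ j (γ f) (r j)) = 0 := by
      rw [Finset.sum_comm]
      refine Finset.sum_eq_zero fun i _ => ?_
      rw [Finset.sum_comm]
      refine Finset.sum_eq_zero fun j hj => ?_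
      have hij : i ≠ j := (Finset.ne_of_mem_erase hj).symm
      have h4 : ∀ f, bil c i j (ρ i (γ f) (g i)) (ρ j (γ f) (r j)) =
          DH hc 0 hij (g i) (ρ j (γ f) (r j)) := by
        intro f
        obtain ⟨n, hn, h5⟩ := hfix i _ (hgS i) (γ f)
        rw [hbil hij, ← sub_eq_zero]
        apply hA n _ hn
        have e : ∀ a, n • DH hc 0 hij a (ρ j (γ f) (r j)) =
            DH hc 0 hij (n • a) (ρ j (γ f) (r j)) := by
          intro a
          rw [map_nsmul, AddMonoidHom.nsmul_apply]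
        rw [smul_sub, e, e, h5, sub_self]
      rw [Finset.sum_congr rfl fun f _ => h4 f, ← map_sum]
      have h6 : ∑ f, ρ j (γ f) (r j) ∈ S j := by
        have h7 : ∑ f, ρ j (γ f) (r j) = ∑ f, ρ j (γ f) (p j) - ∑ f, ρ j (γ f) (g j) := by
          rw [← Finset.sum_sub_distrib]
          refine Finset.sum_congr rfl fun f _ => ?_
          rw [← map_sub, hg, Pi.sub_apply, sub_sub_cancel]
        rw [h7]
        refine (S j).sub_mem ?_ ((S j).sum_mem fun f _ => hSρ j _ (hgS j) _)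
        refine sum_mem_of_trc (ρ j) (hfin j (p j)) (htr p hp j) γ fun σ => ?_
        obtain ⟨π, h8⟩ := hπ σ
        exact ⟨π, fun f => congrFun (h8 f p (Finset.mem_union_left _ hp)) j⟩
      exact (hS i j hij _ (hgS i) _ h6) 0
    rw [h3, add_zero, add_assoc]
    congr 1
    rw [Finset.sum_comm, Finset.sum_comm (f := fun f i => L i (ρ i (γ f) (r i))),
      ← Finset.sum_add_distrib]
    refine Finset.sum_congr rfl fun i _ => ?_
    rw [← map_sum, ← map_sum, ← map_add, ← Finset.sum_add_distrib]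
    congr 1
    refine Finset.sum_congr rfl fun f _ => ?_
    rw [← map_add, hg, Pi.sub_apply, sub_add_cancel]
  -- invariance
  have hinv : ∀ f, z.sum (fun p n => n • c (act ρ (γ f) p)) = z.sum (fun p n => n • c p) := by
    intro f
    conv_rhs => rw [← hz (γ f)]
    rw [Finsupp.sum_mapDomain_index (h := fun p n => n • c p) (fun _ => zero_smul _ _)
      (fun _ _ _ => add_smul _ _ _)]
  apply hA (Fintype.card ι) _ (Fintype.card_pos_iff.2 hne)
  have h1 : (Fintype.card ι) • z.sum (fun p n => n • c p) =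
      ∑ f : ι, z.sum (fun p n => n • c (act ρ (γ f) p)) := by
    rw [Finset.sum_congr rfl fun f _ => hinv f, Finset.sum_const, Finset.card_univ]
  rw [h1]
  have h2 : ∑ f : ι, z.sum (fun p n => n • c (act ρ (γ f) p)) =
      z.sum (fun p n => n • ((Fintype.card ι : ℕ) • c 0 +
        ∑ i, L i (∑ f, ρ i (γ f) (p i)))) := by
    unfold Finsupp.sum
    rw [Finset.sum_comm]
    refine Finset.sum_congr rfl fun p hp => ?_
    rw [← Finset.smul_sum, key p hp]
  rw [h2]
  have h3 : z.sum (fun p n => n • ((Fintype.card ι : ℕ) • c 0 +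
        ∑ i, L i (∑ f, ρ i (γ f) (p i)))) =
      (z.sum fun _ n => n) • ((Fintype.card ι : ℕ) • c 0) +
        ∑ i, L i (∑ f, ρ i (γ f) (z.sum fun p n => n • p i)) := by
    unfold Finsupp.sum
    simp only [smul_add]
    rw [Finset.sum_add_distrib, ← Finset.sum_smul]
    congr 1
    simp only [Finset.smul_sum]
    rw [Finset.sum_comm]
    refine Finset.sum_congr rfl fun i _ => ?_
    simp only [← map_zsmul]
    rw [← map_sum]
    congr 1
    simp only [Finset.smul_sum, map_sum, map_zsmul]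
    rw [Finset.sum_comm]
  rw [h3, hd, zero_smul, zero_add]
  refine Finset.sum_eq_zero fun i _ => ?_
  rw [hs i]
  simp only [map_zero, Finset.sum_const_zero]

end

end Pool.Agent.ZCQL
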