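import Pool.Agent.ZCQL.Ind

/-!
# Averages of sums of independent elements
-/

set_option autoImplicit false

noncomputable section

namespace Pool.Agent.ZCQL

open Function
open scoped Classical

variable {Γ : Type} [Group Γ]

/-- The average over a finite set of group elements is the average over the orbit. -/
theorem equid {M : Type} [AddCommGroup M] (ρ : Γ →* AddMonoid.End M) {x : M}
    (hx : (Set.range fun γ => ρ γ x).Finite) {ι : Type} [Fintype ι] (γ : ι → Γ)
    (hπ : ∀ σ : Γ, ∃ π : ι ≃ ι, ∀ f, ρ σ (ρ (γ f) x) = ρ (γ (π f)) x) :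
    ∃ k : ℕ, ∀ (B : Type) [AddCommMonoid B] (Φ : M → B),
      ∑ f, Φ (ρ (γ f) x) = k • ∑ r ∈ hx.toFinset, Φ r := by
  set O := hx.toFinset with hO
  have hmaps : ∀ f ∈ (Finset.univ : Finset ι), ρ (γ f) x ∈ O := fun f _ =>
    hx.mem_toFinset.2 ⟨γ f, rfl⟩
  refine ⟨(Finset.univ.filter fun f => ρ (γ f) x = x).card, fun B _ Φ => ?_⟩
  have hcard : ∀ y ∈ O, (Finset.univ.filter fun f => ρ (γ f) x = y).card =
      (Finset.univ.filter fun f => ρ (γ f) x = x).card := by
    intro y hy
    obtain ⟨σ, rfl⟩ := hx.mem_toFinset.1 hy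
    obtain ⟨π, hπ'⟩ := hπ σ
    symm
    refine Finset.card_bij (fun f _ => π f) ?_ (fun _ _ _ _ h => π.injective h) ?_
    · intro f hf
      rw [Finset.mem_filter] at hf ⊢
      refine ⟨Finset.mem_univ _, ?_⟩
      rw [← hπ' f, hf.2]
    · intro f hf
      rw [Finset.mem_filter] at hf
      refine ⟨π.symm f, ?_, π.apply_symm_apply f⟩
      rw [Finset.mem_filter]
      refine ⟨Finset.mem_univ _, ?_⟩
      have h1 := hπ' (π.symm f)
      rw [π.apply_symm_apply, hf.2] at h1
      have h2 : (ρ σ⁻¹ * ρ σ) (ρ (γ (π.symm f)) x) = (ρ σ⁻¹ * ρ σ) x := congrArg (ρ σ⁻¹) h1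
      rw [← map_mul, inv_mul_cancel, map_one] at h2
      exact h2
  rw [← Finset.sum_fiberwise_of_maps_to hmaps, Finset.smul_sum]
  refine Finset.sum_congr rfl fun y hy => ?_
  rw [← hcard y hy, ← Finset.sum_const]
  refine Finset.sum_congr rfl fun f hf => ?_
  rw [(Finset.mem_filter.1 hf).2]

section

variable {I : Type} [Fintype I] {G : I → Type} [∀ i, AddCommGroup (G i)] {A : Type}
  [AddCommGroup A] {c : ((i : I) → G i) → A}

theorem tor (hc : Aff c) (hA : ∀ (n : ℕ) (a : A), 0 < n → n • a = 0 → a = 0)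
    {t : (i : I) → G i} (ht : ∀ i, ∃ n : ℕ, 0 < n ∧ n • t i = 0) (x : (i : I) → G i) :
    c (x + t) = c x := by
  have h1 : POrth c t := by
    intro i j hij
    rw [orth_iff hc hij]
    intro y
    obtain ⟨n, hn, h⟩ := ht i
    apply hA n _ hn
    rw [← AddMonoidHom.nsmul_apply, ← map_nsmul, h, map_zero, AddMonoidHom.zero_apply]
  rw [h1.formula hc]
  have h2 : ∀ i, c (x + Pi.single i (t i)) - c x = 0 := by
    intro i
    obtain ⟨n, hn, h⟩ := ht i
    apply hA n _ hn
    rw [← dif_apply hc, ← map_nsmul, h, map_zero]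
  simp only [h2, Finset.sum_const_zero, add_zero]

theorem avg2 (hc : Aff c) (hA : ∀ (n : ℕ) (a : A), 0 < n → n • a = 0 → a = 0)
    (ρ : (i : I) → Γ →* AddMonoid.End (G i)) (S : (i : I) → AddSubgroup (G i))
    (hS : ∀ i j, i ≠ j → ∀ a ∈ S i, ∀ b ∈ S j, Orth c i j a b)
    (hsat : ∀ i (a : G i) (n : ℕ), 0 < n → n • a ∈ S i → a ∈ S i)
    (hfix : ∀ i, ∀ a ∈ S i, ∀ γ, ∃ n : ℕ, 0 < n ∧ n • (ρ i γ a) = n • a)
    (hfin : ∀ i (x : G i), (Set.range fun γ => ρ i γ x).Finite)
    (z : ((i : I) → G i) →₀ ℤ) (hz : ∀ γ, z.mapDomain (act ρ γ) = z)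
    (hp : ∀ p ∈ z.support, ∃ (m : ℕ) (h : Fin m → (i : I) → G i),
      (∀ i, p i - ∑ j, h j i ∈ S i) ∧ (∀ j γ, POrth c (act ρ γ (h j))) ∧
      (∀ τ : Fin m → Γ, ∃ γ, ∀ j, act ρ γ (h j) = act ρ (τ j) (h j)) ∧
      ∀ j i, trc (ρ i) (h j i) ∈ S i)
    (hd : z.sum (fun _ n => n) = 0) (hs : ∀ i, z.sum (fun p n => n • p i) = 0) :
    z.sum (fun p n => n • c p) = 0 := by
  classical
  choose m H H1 H2 H3 H4 using hp
  have hact : ∀ x : (i : I) → G i, (Set.range fun γ => act ρ γ x).Finite := by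
    intro x
    refine (Set.Finite.pi' (t := fun i : I => Set.range fun γ => ρ i γ (x i))
      fun i => hfin i (x i)).subset ?_
    rintro _ ⟨γ, rfl⟩ i
    exact ⟨γ, rfl⟩
  obtain ⟨ι, hι, hne, γ, hπ⟩ := exists_avg (act ρ) (z.support ∪
    z.support.attach.biUnion fun p => Finset.univ.image (H p.1 p.2)) fun x _ => hact x
  have hπH : ∀ p (hp : p ∈ z.support), ∀ σ : Γ, ∃ π : ι ≃ ι, ∀ f, ∀ j,
      act ρ σ (act ρ (γ f) (H p hp j)) = act ρ (γ (π f)) (H p hp j) := by
    intro p hp σ
    obtain ⟨π, h⟩ := hπ σ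
    refine ⟨π, fun f j => h f _ (Finset.mem_union_right _ ?_)⟩
    rw [Finset.mem_biUnion]
    exact ⟨⟨p, hp⟩, Finset.mem_attach _ _, Finset.mem_image_of_mem _ (Finset.mem_univ _)⟩
  -- the linear maps
  let L : (i : I) → G i →+ A := fun i => AddMonoidHom.mk' (lin c i) (lin_add hc i)
  have hL : ∀ i a, L i a = lin c i a := fun _ _ => rfl
  have hLfix : ∀ i, ∀ a ∈ S i, ∀ δ, L i (ρ i δ a) = L i a := by
    intro i a ha δ
    obtain ⟨n, hn, h⟩ := hfix i a ha δ
    rw [← sub_eq_zero]
    apply hA n _ hn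
    have e1 : n • L i (ρ i δ a) = L i (n • ρ i δ a) := (map_nsmul (L i) n _).symm
    have e2 : n • L i a = L i (n • a) := (map_nsmul (L i) n _).symm
    rw [smul_sub, e1, e2, h, sub_self]
  -- the value of the average
  have key : ∀ p ∈ z.support, ∑ f, c (act ρ (γ f) p) =
      (Fintype.card ι : ℕ) • c 0 + ∑ i, L i (∑ f, ρ i (γ f) (p i)) := by
    intro p hp
    set h := H p hp with hh
    set g : (i : I) → G i := p - ∑ j, h j with hg
    have hgi : ∀ i, g i = p i - ∑ j, h j i := by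
      intro i
      rw [hg, Pi.sub_apply, Finset.sum_apply]
    have hgS : ∀ i, g i ∈ S i := by
      intro i
      rw [hgi]
      exact H1 p hp i
    set O : Fin (m p hp) → Finset ((i : I) → G i) := fun j => (hact (h j)).toFinset with hO
    -- the sum over the orbit of `h j`
    have hOS : ∀ j i, ∑ r ∈ O j, r i ∈ S i := by
      intro j i
      obtain ⟨k, hk⟩ := equid (act ρ) (hact (h j)) γ fun σ => by
        obtain ⟨π, h1⟩ := hπH p hp σ
        exact ⟨π, fun f => h1 f j⟩
      have h1 := hk (G i) fun r => r i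
      have h2 := hk ℕ fun _ => 1
      simp only [Finset.sum_const, smul_eq_mul, mul_one, Finset.card_univ] at h2
      have hk0 : 0 < k := by
        rcases Nat.eq_zero_or_pos k with h3 | h3
        · rw [h3, zero_mul] at h2
          exact absurd h2 Fintype.card_ne_zero
        · exact h3
      apply hsat i _ k hk0
      rw [← h1]
      refine sum_mem_of_trc (ρ i) (hfin i (h j i)) (H4 p hp j i) γ fun σ => ?_
      obtain ⟨π, h3⟩ := hπH p hp σ
      exact ⟨π, fun f => congrFun (h3 f j) i⟩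
    -- the orbit of the family
    set ρ' : Γ →* AddMonoid.End (Fin (m p hp) → (i : I) → G i) :=
      act (fun _ : Fin (m p hp) => act ρ) with hρ'
    have horb : ∀ y : Fin (m p hp) → (i : I) → G i,
        y ∈ (Set.range fun δ => ρ' δ h) ↔ y ∈ Fintype.piFinset O := by
      intro y
      rw [Fintype.mem_piFinset]
      constructor
      · rintro ⟨δ, rfl⟩ j
        exact (hact (h j)).mem_toFinset.2 ⟨δ, rfl⟩
      · intro hy
        choose τ hτ using fun j => (hact (h j)).mem_toFinset.1 (hy j)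
        obtain ⟨δ, hδ⟩ := H3 p hp τ
        refine ⟨δ, ?_⟩
        funext j
        exact (hδ j).trans (hτ j)
    have hfinH : (Set.range fun δ => ρ' δ h).Finite :=
      (Fintype.piFinset O).finite_toSet.subset fun y hy => (horb y).1 hy
    have hpi : hfinH.toFinset = Fintype.piFinset O := by
      ext y
      rw [hfinH.mem_toFinset]
      exact horb y
    obtain ⟨k, hk⟩ := equid ρ' hfinH γ fun σ => by
      obtain ⟨π, h1⟩ := hπH p hp σ
      exact ⟨π, fun f => funext fun j => h1 f j⟩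
    rw [hpi] at hk
    have hcard := hk ℕ fun _ => 1
    simp only [Finset.sum_const, smul_eq_mul, mul_one, Finset.card_univ] at hcard
    have hsumA := hk A fun y => c (g + ∑ j, y j)
    have hsumG := fun i => hk (G i) fun y => (g + ∑ j, y j) i
    have hρ'1 : ∀ f j, ρ' (γ f) h j = act ρ (γ f) (h j) := fun f j => rfl
    -- replace `g` by its conjugate
    have h1 : ∀ f, c (act ρ (γ f) p) = c (g + ∑ j, ρ' (γ f) h j) := by
      intro f
      have h2 : p = g + ∑ j, h j := by rw [hg, sub_add_cancel]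
      have h3 : act ρ (γ f) p = g + ∑ j, ρ' (γ f) h j + (act ρ (γ f) g - g) := by
        conv_lhs => rw [h2]
        rw [map_add, map_sum]
        simp only [hρ'1]
        abel
      rw [h3]
      apply tor hc hA
      intro i
      obtain ⟨n, hn, h4⟩ := hfix i _ (hgS i) (γ f)
      refine ⟨n, hn, ?_⟩
      rw [Pi.sub_apply, act_apply, smul_sub, h4, sub_self]
    rw [Finset.sum_congr rfl fun f _ => h1 f, hsumA,
      ind_sum S O hOS hgS hc hS fun j r hr => by
        obtain ⟨δ, rfl⟩ := (hact (h j)).mem_toFinset.1 hr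
        exact H2 p hp j δ]
    rw [smul_add, ← mul_smul, ← hcard, Finset.smul_sum]
    congr 1
    refine Finset.sum_congr rfl fun i _ => ?_
    rw [← hL, ← map_nsmul, ← hsumG, map_sum, map_sum]
    refine Finset.sum_congr rfl fun f _ => ?_
    have h5 : ρ i (γ f) (p i) = ρ i (γ f) (g i) + ∑ j, ρ i (γ f) (h j i) := by
      rw [← map_sum, ← map_add]
      congr 1
      rw [hgi, sub_add_cancel]
    rw [h5, map_add, hLfix i _ (hgS i), ← map_add]
    congr 1
    rw [Pi.add_apply, Finset.sum_apply]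
    rfl
  -- invariance
  have hinv : ∀ f, z.sum (fun p n => n • c (act ρ (γ f) p)) = z.sum (fun p n => n • c p) := by
    intro f
    conv_rhs => rw [← hz (γ f)]
    rw [Finsupp.sum_mapDomain_index (h := fun p n => n • c p) (fun _ => zero_smul _ _)
      (fun _ _ _ => add_smul _ _ _)]
  apply hA (Fintype.card ι) _ (Fintype.card_pos_iff.2 hne)
  have h1 : (Fintype.card ι) • z.sum (fun p n => n • c p) =
      ∑ f : ι, z.sum (fun p n => n • c (act ρ (γ f) p)) := by
    rw [Finset.sum_congr rfl fun f _ => hinv f, Finset.sum_const, Finset.card_univ]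
  rw [h1]
  have h2 : ∑ f : ι, z.sum (fun p n => n • c (act ρ (γ f) p)) =
      z.sum (fun p n => n • ((Fintype.card ι : ℕ) • c 0 +
        ∑ i, L i (∑ f, ρ i (γ f) (p i)))) := by
    unfold Finsupp.sum
    rw [Finset.sum_comm]
    refine Finset.sum_congr rfl fun p hp => ?_
    rw [← Finset.smul_sum, key p hp]
  rw [h2]
  have h3 : z.sum (fun p n => n • ((Fintype.card ι : ℕ) • c 0 +
        ∑ i, L i (∑ f, ρ i (γ f) (p i)))) =
      (z.sum fun _ n => n) • ((Fintype.card ι : ℕ) • c 0) +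
        ∑ i, L i (∑ f, ρ i (γ f) (z.sum fun p n => n • p i)) := by
    unfold Finsupp.sum
    simp only [smul_add]
    rw [Finset.sum_add_distrib, ← Finset.sum_smul]
    congr 1
    simp only [Finset.smul_sum]
    rw [Finset.sum_comm]
    refine Finset.sum_congr rfl fun i _ => ?_
    simp only [← map_zsmul]
    rw [← map_sum]
    congr 1
    simp only [Finset.smul_sum, map_sum, map_zsmul]
    rw [Finset.sum_comm]
  rw [h3, hd, zero_smul, zero_add]
  refine Finset.sum_eq_zero fun i _ => ?_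
  rw [hs i]
  simp only [map_zero, Finset.sum_const_zero]

end

end Pool.Agent.ZCQL
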