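import Pool.Agent.ZCQL.Alt
import Pool.Agent.ZCQL.Avg2

/-!
# Averages of sums of elements, every `card I` of which are independent
-/

set_option autoImplicit false

noncomputable section

namespace Pool.Agent.ZCQL

open Function
open scoped Classical

variable {Γ : Type} [Group Γ] {I : Type} [Fintype I] {G : I → Type} [∀ i, AddCommGroup (G i)]
  {A : Type} [AddCommGroup A] {c : ((i : I) → G i) → A}

theorem act_finite (ρ : (i : I) → Γ →* AddMonoid.End (G i))
    (hfin : ∀ i (x : G i), (Set.range fun γ => ρ i γ x).Finite) (x : (i : I) → G i) :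
    (Set.range fun γ => act ρ γ x).Finite := by
  refine (Set.Finite.pi' (t := fun i : I => Set.range fun γ => ρ i γ (x i))
    fun i => hfin i (x i)).subset ?_
  rintro _ ⟨γ, rfl⟩ i
  exact ⟨γ, rfl⟩

/-- The average of a sum of independent elements. -/
theorem key1 (hc : Aff c) (ρ : (i : I) → Γ →* AddMonoid.End (G i)) (S : (i : I) → AddSubgroup (G i))
    (hS : ∀ i j, i ≠ j → ∀ a ∈ S i, ∀ b ∈ S j, Orth c i j a b)
    (hsat : ∀ i (a : G i) (n : ℕ), 0 < n → n • a ∈ S i → a ∈ S i)
    (hfin : ∀ i (x : G i), (Set.range fun γ => ρ i γ x).Finite)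
    {ι : Type} [Fintype ι] [Nonempty ι] (γ : ι → Γ) {m : ℕ} (h : Fin m → (i : I) → G i)
    (hπH : ∀ σ : Γ, ∃ π : ι ≃ ι, ∀ f, ∀ j,
      act ρ σ (act ρ (γ f) (h j)) = act ρ (γ (π f)) (h j))
    (H2 : ∀ j γ, POrth c (act ρ γ (h j)))
    (H3 : ∀ τ : Fin m → Γ, ∃ γ, ∀ j, act ρ γ (h j) = act ρ (τ j) (h j))
    (H4 : ∀ j i, trc (ρ i) (h j i) ∈ S i) {g : (i : I) → G i} (hgS : ∀ i, g i ∈ S i) :
    ∑ f, c (g + ∑ j, act ρ (γ f) (h j)) = (Fintype.card ι : ℕ) • c 0 +
      ∑ i, lin c i (∑ f, (g + ∑ j, act ρ (γ f) (h j)) i) := by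
  classical
  have hact := act_finite ρ hfin
  set O : Fin m → Finset ((i : I) → G i) := fun j => (hact (h j)).toFinset with hO
  -- the sum over the orbit of `h j`
  have hOS : ∀ j i, ∑ r ∈ O j, r i ∈ S i := by
    intro j i
    obtain ⟨k, hk⟩ := equid (act ρ) (hact (h j)) γ fun σ => by
      obtain ⟨π, h1⟩ := hπH σ
      exact ⟨π, fun f => h1 f j⟩
    have h1 := hk (G i) fun r => r i
    have h2 := hk ℕ fun _ => 1
    simp only [Finset.sum_const, smul_eq_mul, mul_one, Finset.card_univ] at h2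
    have hk0 : 0 < k := by
      rcases Nat.eq_zero_or_pos k with h3 | h3
      · rw [h3, zero_mul] at h2
        exact absurd h2 Fintype.card_ne_zero
      · exact h3
    apply hsat i _ k hk0
    rw [← h1]
    refine sum_mem_of_trc (ρ i) (hfin i (h j i)) (H4 j i) γ fun σ => ?_
    obtain ⟨π, h3⟩ := hπH σ
    exact ⟨π, fun f => congrFun (h3 f j) i⟩
  -- the orbit of the family
  set ρ' : Γ →* AddMonoid.End (Fin m → (i : I) → G i) := act (fun _ : Fin m => act ρ) with hρ'
  have horb : ∀ y : Fin m → (i : I) → G i,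
      y ∈ (Set.range fun δ => ρ' δ h) ↔ y ∈ Fintype.piFinset O := by
    intro y
    rw [Fintype.mem_piFinset]
    constructor
    · rintro ⟨δ, rfl⟩ j
      exact (hact (h j)).mem_toFinset.2 ⟨δ, rfl⟩
    · intro hy
      choose τ hτ using fun j => (hact (h j)).mem_toFinset.1 (hy j)
      obtain ⟨δ, hδ⟩ := H3 τ
      refine ⟨δ, ?_⟩
      funext j
      exact (hδ j).trans (hτ j)
  have hfinH : (Set.range fun δ => ρ' δ h).Finite :=
    (Fintype.piFinset O).finite_toSet.subset fun y hy => (horb y).1 hy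
  have hpi : hfinH.toFinset = Fintype.piFinset O := by
    ext y
    rw [hfinH.mem_toFinset]
    exact horb y
  obtain ⟨k, hk⟩ := equid ρ' hfinH γ fun σ => by
    obtain ⟨π, h1⟩ := hπH σ
    exact ⟨π, fun f => funext fun j => h1 f j⟩
  rw [hpi] at hk
  have hcard := hk ℕ fun _ => 1
  simp only [Finset.sum_const, smul_eq_mul, mul_one, Finset.card_univ] at hcard
  have hsumA : ∑ f, c (g + ∑ j, act ρ (γ f) (h j)) =
      k • ∑ y ∈ Fintype.piFinset O, c (g + ∑ j, y j) := hk A fun y => c (g + ∑ j, y j)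
  have hsumG : ∀ i, ∑ f, (g + ∑ j, act ρ (γ f) (h j)) i =
      k • ∑ y ∈ Fintype.piFinset O, (g + ∑ j, y j) i := fun i => hk (G i) fun y =>
        (g + ∑ j, y j) i
  rw [hsumA, ind_sum S O hOS hgS hc hS fun j r hr => by
      obtain ⟨δ, rfl⟩ := (hact (h j)).mem_toFinset.1 hr
      exact H2 j δ, smul_add, ← mul_smul, ← hcard, Finset.smul_sum]
  congr 1
  refine Finset.sum_congr rfl fun i _ => ?_
  rw [hsumG]
  exact (map_nsmul (AddMonoidHom.mk' (lin c i) (lin_add hc i)) k _).symm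

/-- The average of a sum of elements, every `card I` of which are independent. -/
theorem key2 (hc : Aff c) (ρ : (i : I) → Γ →* AddMonoid.End (G i)) (S : (i : I) → AddSubgroup (G i))
    (hS : ∀ i j, i ≠ j → ∀ a ∈ S i, ∀ b ∈ S j, Orth c i j a b)
    (hsat : ∀ i (a : G i) (n : ℕ), 0 < n → n • a ∈ S i → a ∈ S i)
    (hfin : ∀ i (x : G i), (Set.range fun γ => ρ i γ x).Finite)
    {ι : Type} [Fintype ι] [Nonempty ι] (γ : ι → Γ) {m : ℕ} (h : Fin m → (i : I) → G i)
    (hπH : ∀ σ : Γ, ∃ π : ι ≃ ι, ∀ f, ∀ j,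
      act ρ σ (act ρ (γ f) (h j)) = act ρ (γ (π f)) (h j))
    (H2 : ∀ j γ, POrth c (act ρ γ (h j)))
    (H3 : ∀ J : Finset (Fin m), J.card ≤ Fintype.card I → ∀ τ : Fin m → Γ, ∃ γ, ∀ j ∈ J,
      act ρ γ (h j) = act ρ (τ j) (h j))
    (H4 : ∀ j i, trc (ρ i) (h j i) ∈ S i) {g : (i : I) → G i} (hgS : ∀ i, g i ∈ S i)
    (J : Finset (Fin m)) :
    ∑ f, c (g + ∑ j ∈ J, act ρ (γ f) (h j)) = (Fintype.card ι : ℕ) • c 0 +
      ∑ i, lin c i (∑ f, (g + ∑ j ∈ J, act ρ (γ f) (h j)) i) := by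
  classical
  induction hn : J.card using Nat.strong_induction_on generalizing J with
  | _ n ih =>
  by_cases hJ : J.card ≤ Fintype.card I
  · -- reindex by `Fin J.card`
    let e := J.equivFin
    have h1 := key1 hc ρ S hS hsat hfin γ (fun a : Fin J.card => h (e.symm a))
      (fun σ => by
        obtain ⟨π, h2⟩ := hπH σ
        exact ⟨π, fun f j => h2 f _⟩) (fun j δ => H2 _ δ)
      (fun τ => by
        obtain ⟨δ, hδ⟩ := H3 J hJ fun j => if hj : j ∈ J then τ (e ⟨j, hj⟩) else 1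
        refine ⟨δ, fun a => ?_⟩
        have h2 := hδ _ (e.symm a).2
        rw [dif_pos (e.symm a).2] at h2
        simpa using h2) (fun j i => H4 _ i) hgS
    have h2 : ∀ f, ∑ a : Fin J.card, act ρ (γ f) (h (e.symm a)) =
        ∑ j ∈ J, act ρ (γ f) (h j) := by
      intro f
      rw [Equiv.sum_comp e.symm fun j : J => act ρ (γ f) (h j)]
      exact Finset.sum_coe_sort J fun j => act ρ (γ f) (h j)
    simp only [h2] at h1
    exact h1
  · rw [not_le] at hJ
    let L : (i : I) → G i →+ A := fun i => AddMonoidHom.mk' (lin c i) (lin_add hc i)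
    -- the right hand side as an affine function
    set c' : ((i : I) → G i) → A := fun y => (Fintype.card ι : ℕ) • c 0 + ∑ i, L i (y i) with hc'
    have hc'1 : Aff c' := by
      intro x i a b
      have h1 : ∀ a : G i, ∑ k, L k (update x i a k) = L i a +
          ∑ k ∈ Finset.univ.erase i, L k (x k) := by
        intro a
        rw [← Finset.add_sum_erase _ _ (Finset.mem_univ i), update_self]
        congr 1
        refine Finset.sum_congr rfl fun k hk => ?_
        rw [update_of_ne (Finset.ne_of_mem_erase hk)]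
      rw [hc']
      beta_reduce
      rw [h1, h1, h1, h1, map_add, map_zero]
      abel
    set s : Fin m → (i : I) → G i := fun j => ∑ f, act ρ (γ f) (h j) with hs
    have hR : ∀ T : Finset (Fin m), (Fintype.card ι : ℕ) • c 0 +
        ∑ i, lin c i (∑ f, (g + ∑ j ∈ T, act ρ (γ f) (h j)) i) =
          c' ((Fintype.card ι : ℕ) • g + ∑ j ∈ T, s j) := by
      intro T
      rw [hc']
      beta_reduce
      congr 1
      refine Finset.sum_congr rfl fun i _ => ?_
      change L i _ = _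
      congr 1
      rw [← Finset.sum_apply, Finset.sum_add_distrib, Finset.sum_const, Finset.card_univ,
        Finset.sum_comm]
    have hdep : ∀ c : ((i : I) → G i) → A, Dep c Finset.univ := fun c x y hxy => by
      rw [show x = y from funext fun i => hxy i (Finset.mem_univ i)]
    have hcardI : (Finset.univ : Finset I).card < J.card := by rwa [Finset.card_univ]
    have h1 : ∑ T ∈ J.powerset, (-1 : ℤ) ^ (J.card + T.card) •
        (∑ f, c (g + ∑ j ∈ T, act ρ (γ f) (h j)) -
          c' ((Fintype.card ι : ℕ) • g + ∑ j ∈ T, s j)) = 0 := by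
      simp only [smul_sub]
      rw [Finset.sum_sub_distrib, alt_sum J s c' _ hc'1 (hdep c') hcardI, sub_zero]
      simp only [Finset.smul_sum]
      rw [Finset.sum_comm]
      refine Finset.sum_eq_zero fun f _ => ?_
      exact alt_sum J (fun j => act ρ (γ f) (h j)) c _ hc (hdep c) hcardI g
    rw [← Finset.add_sum_erase _ _ (Finset.mem_powerset_self J)] at h1
    have h2 : ∑ T ∈ J.powerset.erase J, (-1 : ℤ) ^ (J.card + T.card) •
        (∑ f, c (g + ∑ j ∈ T, act ρ (γ f) (h j)) -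
          c' ((Fintype.card ι : ℕ) • g + ∑ j ∈ T, s j)) = 0 := by
      refine Finset.sum_eq_zero fun T hT => ?_
      rw [Finset.mem_erase, Finset.mem_powerset] at hT
      have hlt : T.card < J.card := Finset.card_lt_card (hT.2.ssubset_of_ne hT.1)
      rw [← hR, ih T.card (hn ▸ hlt) T rfl, sub_self, smul_zero]
    rw [h2, add_zero] at h1
    have h3 : (-1 : ℤ) ^ (J.card + J.card) = 1 := by
      rw [← two_mul, pow_mul]
      norm_num
    rw [h3, one_smul, sub_eq_zero] at h1
    rw [h1, hR]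

theorem avg3 (hc : Aff c) (hA : ∀ (n : ℕ) (a : A), 0 < n → n • a = 0 → a = 0)
    (ρ : (i : I) → Γ →* AddMonoid.End (G i)) (S : (i : I) → AddSubgroup (G i))
    (hS : ∀ i j, i ≠ j → ∀ a ∈ S i, ∀ b ∈ S j, Orth c i j a b)
    (hsat : ∀ i (a : G i) (n : ℕ), 0 < n → n • a ∈ S i → a ∈ S i)
    (hfix : ∀ i, ∀ a ∈ S i, ∀ γ, ∃ n : ℕ, 0 < n ∧ n • (ρ i γ a) = n • a)
    (hfin : ∀ i (x : G i), (Set.range fun γ => ρ i γ x).Finite)
    (z : ((i : I) → G i) →₀ ℤ) (hz : ∀ γ, z.mapDomain (act ρ γ) = z)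
    (hp : ∀ p ∈ z.support, ∃ (m : ℕ) (h : Fin m → (i : I) → G i),
      (∀ i, p i - ∑ j, h j i ∈ S i) ∧ (∀ j γ, POrth c (act ρ γ (h j))) ∧
      (∀ J : Finset (Fin m), J.card ≤ Fintype.card I → ∀ τ : Fin m → Γ, ∃ γ, ∀ j ∈ J,
        act ρ γ (h j) = act ρ (τ j) (h j)) ∧
      ∀ j i, trc (ρ i) (h j i) ∈ S i)
    (hd : z.sum (fun _ n => n) = 0) (hs : ∀ i, z.sum (fun p n => n • p i) = 0) :
    z.sum (fun p n => n • c p) = 0 := by
  classical
  choose m H H1 H2 H3 H4 using hp
  have hact := act_finite ρ hfin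
  obtain ⟨ι, hι, hne, γ, hπ⟩ := exists_avg (act ρ) (z.support ∪
    z.support.attach.biUnion fun p => Finset.univ.image (H p.1 p.2)) fun x _ => hact x
  have hπH : ∀ p (hp : p ∈ z.support), ∀ σ : Γ, ∃ π : ι ≃ ι, ∀ f, ∀ j,
      act ρ σ (act ρ (γ f) (H p hp j)) = act ρ (γ (π f)) (H p hp j) := by
    intro p hp σ
    obtain ⟨π, h⟩ := hπ σ
    refine ⟨π, fun f j => h f _ (Finset.mem_union_right _ ?_)⟩
    rw [Finset.mem_biUnion]
    exact ⟨⟨p, hp⟩, Finset.mem_attach _ _, Finset.mem_image_of_mem _ (Finset.mem_univ _)⟩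
  -- the linear maps
  let L : (i : I) → G i →+ A := fun i => AddMonoidHom.mk' (lin c i) (lin_add hc i)
  have hL : ∀ i a, L i a = lin c i a := fun _ _ => rfl
  have hLfix : ∀ i, ∀ a ∈ S i, ∀ δ, L i (ρ i δ a) = L i a := by
    intro i a ha δ
    obtain ⟨n, hn, h⟩ := hfix i a ha δ
    rw [← sub_eq_zero]
    apply hA n _ hn
    have e1 : n • L i (ρ i δ a) = L i (n • ρ i δ a) := (map_nsmul (L i) n _).symm
    have e2 : n • L i a = L i (n • a) := (map_nsmul (L i) n _).symm
    rw [smul_sub, e1, e2, h, sub_self]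
  -- the value of the average
  have key : ∀ p ∈ z.support, ∑ f, c (act ρ (γ f) p) =
      (Fintype.card ι : ℕ) • c 0 + ∑ i, L i (∑ f, ρ i (γ f) (p i)) := by
    intro p hp
    set h := H p hp with hh
    set g : (i : I) → G i := p - ∑ j, h j with hg
    have hgi : ∀ i, g i = p i - ∑ j, h j i := by
      intro i
      rw [hg, Pi.sub_apply, Finset.sum_apply]
    have hgS : ∀ i, g i ∈ S i := by
      intro i
      rw [hgi]
      exact H1 p hp i
    -- replace `g` by its conjugate
    have h1 : ∀ f, c (act ρ (γ f) p) = c (g + ∑ j, act ρ (γ f) (h j)) := by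
      intro f
      have h2 : p = g + ∑ j, h j := by rw [hg, sub_add_cancel]
      have h3 : act ρ (γ f) p = g + ∑ j, act ρ (γ f) (h j) + (act ρ (γ f) g - g) := by
        conv_lhs => rw [h2]
        rw [map_add, map_sum]
        abel
      rw [h3]
      apply tor hc hA
      intro i
      obtain ⟨n, hn, h4⟩ := hfix i _ (hgS i) (γ f)
      refine ⟨n, hn, ?_⟩
      rw [Pi.sub_apply, act_apply, smul_sub, h4, sub_self]
    rw [Finset.sum_congr rfl fun f _ => h1 f, key2 hc ρ S hS hsat hfin γ h (hπH p hp)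
      (H2 p hp) (H3 p hp) (H4 p hp) hgS Finset.univ]
    congr 1
    refine Finset.sum_congr rfl fun i _ => ?_
    rw [← hL, map_sum, map_sum]
    refine Finset.sum_congr rfl fun f _ => ?_
    have h5 : ρ i (γ f) (p i) = ρ i (γ f) (g i) + ∑ j, ρ i (γ f) (h j i) := by
      rw [← map_sum, ← map_add]
      congr 1
      rw [hgi, sub_add_cancel]
    rw [h5, map_add, hLfix i _ (hgS i), ← map_add]
    congr 1
    rw [Pi.add_apply, Finset.sum_apply]
    rfl
  -- invariance
  have hinv : ∀ f, z.sum (fun p n => n • c (act ρ (γ f) p)) = z.sum (fun p n => n • c p) := by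
    intro f
    conv_rhs => rw [← hz (γ f)]
    rw [Finsupp.sum_mapDomain_index (h := fun p n => n • c p) (fun _ => zero_smul _ _)
      (fun _ _ _ => add_smul _ _ _)]
  apply hA (Fintype.card ι) _ (Fintype.card_pos_iff.2 hne)
  have h1 : (Fintype.card ι) • z.sum (fun p n => n • c p) =
      ∑ f : ι, z.sum (fun p n => n • c (act ρ (γ f) p)) := by
    rw [Finset.sum_congr rfl fun f _ => hinv f, Finset.sum_const, Finset.card_univ]
  rw [h1]
  have h2 : ∑ f : ι, z.sum (fun p n => n • c (act ρ (γ f) p)) =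
      z.sum (fun p n => n • ((Fintype.card ι : ℕ) • c 0 +
        ∑ i, L i (∑ f, ρ i (γ f) (p i)))) := by
    unfold Finsupp.sum
    rw [Finset.sum_comm]
    refine Finset.sum_congr rfl fun p hp => ?_
    rw [← Finset.smul_sum, key p hp]
  rw [h2]
  have h3 : z.sum (fun p n => n • ((Fintype.card ι : ℕ) • c 0 +
        ∑ i, L i (∑ f, ρ i (γ f) (p i)))) =
      (z.sum fun _ n => n) • ((Fintype.card ι : ℕ) • c 0) +
        ∑ i, L i (∑ f, ρ i (γ f) (z.sum fun p n => n • p i)) := by
    unfold Finsupp.sum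
    simp only [smul_add]
    rw [Finset.sum_add_distrib, ← Finset.sum_smul]
    congr 1
    simp only [Finset.smul_sum]
    rw [Finset.sum_comm]
    refine Finset.sum_congr rfl fun i _ => ?_
    simp only [← map_zsmul]
    rw [← map_sum]
    congr 1
    simp only [Finset.smul_sum, map_sum, map_zsmul]
    rw [Finset.sum_comm]
  rw [h3, hd, zero_smul, zero_add]
  refine Finset.sum_eq_zero fun i _ => ?_
  rw [hs i]
  simp only [map_zero, Finset.sum_const_zero]

end Pool.Agent.ZCQL
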