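import Pool.Agent.ZCQL.Rat
import Pool.Agent.ZCQK.Final

/-!
# Galois-invariant zero-cycles on products of elliptic curves of rank four
-/

set_option autoImplicit false

noncomputable section

namespace Pool.Agent.ZCQL

open WeierstrassCurve Pool.Agent.ZC Pool.Agent.ZCQ Pool.Agent.ZCQK
open scoped Classical

/-- Every point of `W(ℚ̄)` with coordinates in one of the quadratic fields is in `G`. -/
def Full (W : WeierstrassCurve ℚ) (G : AddSubgroup (W⁄(AlgebraicClosure ℚ)).toAffine.Point) :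
    Prop :=
  ∀ K : IntermediateField ℚ (AlgebraicClosure ℚ), QF K → ∀ x ∈ K, ∀ y ∈ K,
    ∀ h : (W⁄(AlgebraicClosure ℚ)).toAffine.Nonsingular x y, .some x y h ∈ G

theorem Full.trc_mem {W : WeierstrassCurve ℚ}
    {G : AddSubgroup (W⁄(AlgebraicClosure ℚ)).toAffine.Point} (h : Full W G)
    {L : IntermediateField ℚ (AlgebraicClosure ℚ)} (hL : L = ⊥ ∨ QF L)
    (P : (W⁄(AlgebraicClosure ℚ)).toAffine.Point) : trc (gal L W) P ∈ G := by
  have h1 : ∀ τ, gal L W τ (trc (gal L W) P) = trc (gal L W) P :=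
    fun τ => trc_fixed (gal L W) (gal_finite L W P) τ
  rcases hT : trc (gal L W) P with _ | ⟨x, y, hns⟩
  · exact G.zero_mem
  rw [hT] at h1
  obtain ⟨hx, hy⟩ := gal_fixed hns h1
  rcases hL with rfl | hL
  · obtain ⟨K, hK⟩ := QF_infinite.nonempty
    exact h K hK x (bot_le (a := K) hx) y (bot_le (a := K) hy) hns
  · exact h L hL x hx y hy hns

theorem main_aux : ∃ (E : ℕ → WeierstrassCurve ℚ)
    (G : (n : ℕ) → AddSubgroup ((E n)⁄(AlgebraicClosure ℚ)).toAffine.Point),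
    (∀ n, (E n).IsElliptic) ∧
    (∀ n n', (E n).c₄ ^ 3 / (E n).Δ = (E n').c₄ ^ 3 / (E n').Δ → n = n') ∧
    (∀ n (g : ((E n)⁄(AlgebraicClosure ℚ)).toAffine.Point) (k : ℕ),
      0 < k → k • g ∈ G n → g ∈ G n) ∧
    (∀ n, n ≠ 1 → ∃ P : Fin 4 → (E n).toAffine.Point,
      LinearIndependent ℤ P ∧ ∀ i, up (E n) (P i) ∈ G n) ∧
    (E 0 = ⟨0, -10660, 0, 28138500, 0⟩ ∧
      ∀ P : Fin 5 → ((E 0)⁄(AlgebraicClosure ℚ)).toAffine.Point, (∀ i, P i ∈ G 0) →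
        ¬ LinearIndependent ℤ P) ∧
    (E 1 = ⟨0, 1430, 0, -5272800, 0⟩ ∧
      (∃ P : Fin 3 → (E 1).toAffine.Point, LinearIndependent ℤ P ∧ ∀ i, up (E 1) (P i) ∈ G 1) ∧
      ∀ P : Fin 4 → ((E 1)⁄(AlgebraicClosure ℚ)).toAffine.Point, (∀ i, P i ∈ G 1) →
        ¬ LinearIndependent ℤ P) ∧
    {K : IntermediateField ℚ (AlgebraicClosure ℚ) | QF K}.Infinite ∧
    (∀ K : IntermediateField ℚ (AlgebraicClosure ℚ), QF K → Module.finrank ℚ K = 2 ∧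
      ∀ x ∈ K, ∀ y ∈ K,
        (∀ h : ((E 0)⁄(AlgebraicClosure ℚ)).toAffine.Nonsingular x y, .some x y h ∈ G 0) ∧
        ∀ h : ((E 1)⁄(AlgebraicClosure ℚ)).toAffine.Nonsingular x y, .some x y h ∈ G 1) ∧
    ∀ (L : IntermediateField ℚ (AlgebraicClosure ℚ)) (N : ℕ) (s : Fin N → ℕ)
      (z : Z0N fun i => (E (s i))⁄(AlgebraicClosure ℚ)),
      (∀ τ : L.fixingSubgroup, z.mapDomain (fun p i => gal L (E (s i)) τ (p i)) = z) →
      (∀ p ∈ z.support, ∃ v, ∀ i, p i ∈ G (s i) ⊔ HE ((E (s i))⁄(AlgebraicClosure ℚ)) v) →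
      (∀ p ∈ z.support, ∀ i, (s i ≤ 1 ∧ (L = ⊥ ∨ QF L)) ∨
        trc (gal L (E (s i))) (p i) ∈ G (s i)) →
      z.sum (fun _ n => n) = 0 → (∀ i, z.sum (fun p n => n • p i) = 0) →
      ∃ M : ℕ, 0 < M ∧ M • z ∈ RatEqN fun i => (E (s i))⁄(AlgebraicClosure ℚ) := by
  obtain ⟨f, hj, hr, hf0, hf1⟩ := exists_seqK
  have key : ∀ M : MemK, M = m0 → M.W = ⟨0, -10660, 0, 28138500, 0⟩ ∧
      (∀ P : Fin 5 → (M.W⁄(AlgebraicClosure ℚ)).toAffine.Point, (∀ i, P i ∈ sq M.W M.P) →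
        ¬ LinearIndependent ℤ P) ∧ Full M.W (sq M.W M.P) := by
    rintro _ rfl
    refine ⟨e0_cc, fun P hP => not_linInd_sat _ P hP, ?_⟩
    rintro K ⟨p, s, hp, hmod, hs, rfl⟩ x hx y hy h
    obtain ⟨m, hm, h0⟩ := e0_mul_mem
    exact mem_sq_of_up hm h0 (e0_up hp hmod hs hx hy h)
  have key1 : ∀ M : MemK, M = m1 → M.W = ⟨0, 1430, 0, -5272800, 0⟩ ∧
      (∃ P : Fin 3 → M.W.toAffine.Point, LinearIndependent ℤ P ∧ ∀ i, up M.W (P i) ∈ sq M.W M.P) ∧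
      (∀ P : Fin 4 → (M.W⁄(AlgebraicClosure ℚ)).toAffine.Point, (∀ i, P i ∈ sq M.W M.P) →
        ¬ LinearIndependent ℤ P) ∧ Full M.W (sq M.W M.P) := by
    rintro _ rfl
    refine ⟨e1_cc, ⟨e1_pt, e1_linInd, fun i => le_satur _ (AddSubgroup.subset_closure ⟨i, rfl⟩)⟩,
      fun P hP => not_linInd_sat _ P hP, ?_⟩
    rintro K ⟨p, s, hp, hmod, hs, rfl⟩ x hx y hy h
    obtain ⟨m, hm, h0⟩ := e1_mul_mem
    exact mem_sq_of_up hm h0 (e1_up hp hmod hs hx hy h)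
  obtain ⟨k1, k2, k3⟩ := key _ hf0
  obtain ⟨l1, l2, l3, l4⟩ := key1 _ hf1
  have hfull : ∀ n, n ≤ 1 → Full (f n).W (sq (f n).W (f n).P) := by
    intro n hn
    interval_cases n
    · exact k3
    · exact l4
  refine ⟨fun n => (f n).W, fun n => sq (f n).W (f n).P, fun n => (f n).dat.ell, hj,
    fun n g k hk h => satur_sat hk h, ?_, ⟨k1, k2⟩, ⟨l1, l2, l3⟩, QF_infinite,
    fun K hK => ⟨hK.finrank, fun x hx y hy => ⟨k3 K hK x hx y hy, l4 K hK x hx y hy⟩⟩, ?_⟩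
  · intro n hn
    refine ⟨fun i => (f n).P (Fin.castLE (hr n hn) i), ?_, fun i => ?_⟩
    · exact (f n).dat.ind.comp _ (Fin.castLE_injective _)
    · exact le_satur _ (AddSubgroup.subset_closure ⟨_, rfl⟩)
  · intro L N s z hz hsupp htr hd hs
    refine cycleGal (fun i => (f (s i)).W) (fun i => (f (s i)).dat.ell) (8 / 13) _
      (fun i => (f (s i)).P) (fun i l => (f (s i)).dat.set l) L z hz hsupp (fun p hp i => ?_)
      hd hs
    rcases htr p hp i with h | h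
    · exact (hfull (s i) h.1).trc_mem h.2 (p i)
    · exact h

end Pool.Agent.ZCQL
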