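import Pool.Agent.ZCQL.CritL
import Pool.Agent.ZCQL.Final

/-!
# The two curves over `ℚ` and over the quadratic fields
-/

set_option autoImplicit false

noncomputable section

namespace Pool.Agent.ZCQL

open WeierstrassCurve Pool.Agent.ZC Pool.Agent.ZCQ Pool.Agent.ZCQK
open scoped Classical

theorem base_base (W : WeierstrassCurve ℚ) (L : IntermediateField ℚ (AlgebraicClosure ℚ)) :
    (W⁄L)⁄(AlgebraicClosure ℚ) = W⁄(AlgebraicClosure ℚ) := by
  change (W.map (algebraMap ℚ L)).map (algebraMap L (AlgebraicClosure ℚ)) =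
    W.map (algebraMap ℚ (AlgebraicClosure ℚ))
  rw [WeierstrassCurve.map_map, ← IsScalarTower.algebraMap_eq]

/-- All points with coordinates in `L` are in the group `HE` of the abscissa `8 / 13`. -/
def InHE (W : WeierstrassCurve (AlgebraicClosure ℚ))
    (L : IntermediateField ℚ (AlgebraicClosure ℚ)) : Prop :=
  ∀ x ∈ L, ∀ y ∈ L, ∀ h : W.toAffine.Nonsingular x y, Affine.Point.some x y h ∈ HE W (8 / 13)

theorem sq_le_HE {r : ℕ} {W : WeierstrassCurve ℚ} {P : Fin r → W.toAffine.Point}
    (h : DatK r W P) : sq W P ≤ HE (W⁄(AlgebraicClosure ℚ)) (8 / 13) := by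
  rintro x ⟨m, hm, hx⟩
  refine ⟨m, hm, AddSubgroup.closure_mono ?_ hx⟩
  rintro _ ⟨i, rfl⟩
  have h1 := h.set i
  rw [map_div₀, map_ofNat, map_ofNat] at h1
  exact h1

theorem Full.inHE {r : ℕ} {W : WeierstrassCurve ℚ} {P : Fin r → W.toAffine.Point}
    (h : DatK r W P) (hf : Full W (sq W P)) {L : IntermediateField ℚ (AlgebraicClosure ℚ)}
    (hL : L = ⊥ ∨ QF L) : InHE (W⁄(AlgebraicClosure ℚ)) L := by
  intro x hx y hy hns
  apply sq_le_HE h
  rcases hL with rfl | hL
  · obtain ⟨K, hK⟩ := QF_infinite.nonempty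
    exact hf K hK x (bot_le (a := K) hx) y (bot_le (a := K) hy) hns
  · exact hf L hL x hx y hy hns

theorem fixed_mem {W : WeierstrassCurve ℚ} {L : IntermediateField ℚ (AlgebraicClosure ℚ)}
    (h : InHE (W⁄(AlgebraicClosure ℚ)) L)
    (P : ((W⁄L)⁄(AlgebraicClosure ℚ)).toAffine.Point)
    (hP : ∀ σ : AlgebraicClosure ℚ ≃ₐ[L] AlgebraicClosure ℚ,
      Affine.Point.map (W' := (W⁄L).toAffine) σ.toAlgHom P = P) :
    P ∈ HE ((W⁄L)⁄(AlgebraicClosure ℚ)) (8 / 13) := by
  have h1 : InHE ((W⁄L)⁄(AlgebraicClosure ℚ)) L := by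
    rw [base_base]
    exact h
  rcases P with _ | ⟨x, y, hns⟩
  · exact AddSubgroup.zero_mem _
  · obtain ⟨hx, hy⟩ := galL_fixed hns hP
    exact h1 x hx y hy hns

/-- The points over `L` as points over `ℚ̄`. -/
def upL (W : WeierstrassCurve ℚ) (L : IntermediateField ℚ (AlgebraicClosure ℚ)) :
    (W⁄L).toAffine.Point →+ (W⁄(AlgebraicClosure ℚ)).toAffine.Point :=
  Affine.Point.map (W' := W.toAffine) (IsScalarTower.toAlgHom ℚ L (AlgebraicClosure ℚ))

theorem upL_injective (W : WeierstrassCurve ℚ) (L : IntermediateField ℚ (AlgebraicClosure ℚ)) :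
    Function.Injective (upL W L) := Affine.Point.map_injective _

theorem upL_mem {W : WeierstrassCurve ℚ} {L : IntermediateField ℚ (AlgebraicClosure ℚ)}
    {G : AddSubgroup (W⁄(AlgebraicClosure ℚ)).toAffine.Point}
    (h : ∀ x ∈ L, ∀ y ∈ L, ∀ h : (W⁄(AlgebraicClosure ℚ)).toAffine.Nonsingular x y,
      Affine.Point.some x y h ∈ G) (P : (W⁄L).toAffine.Point) : upL W L P ∈ G := by
  rcases P with _ | ⟨x, y, hns⟩
  · exact G.zero_mem
  · exact h x x.2 y y.2 _

/-- The rational points as points over `L`. -/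
def upQ (W : WeierstrassCurve ℚ) (L : IntermediateField ℚ (AlgebraicClosure ℚ)) :
    W.toAffine.Point → (W⁄L).toAffine.Point
  | 0 => 0
  | .some x y h => .some (algebraMap ℚ L x) (algebraMap ℚ L y)
      ((Affine.map_nonsingular W.toAffine (algebraMap ℚ L).injective x y).2 h)

theorem upL_upQ (W : WeierstrassCurve ℚ) (L : IntermediateField ℚ (AlgebraicClosure ℚ))
    (P : W.toAffine.Point) : upL W L (upQ W L P) = up W P := by
  rcases P with _ | ⟨x, y, h⟩
  · rfl
  · rfl

theorem fixed_up (W : WeierstrassCurve ℚ) (g : W.toAffine.Point)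
    (σ : AlgebraicClosure ℚ ≃ₐ[ℚ] AlgebraicClosure ℚ) :
    Affine.Point.map (W' := W.toAffine) σ.toAlgHom (up W g) = up W g := by
  rcases g with _ | ⟨x, y, h⟩
  · rfl
  · have h3 : σ.toAlgHom (algebraMap ℚ (AlgebraicClosure ℚ) x) =
        algebraMap ℚ (AlgebraicClosure ℚ) x ∧
        σ.toAlgHom (algebraMap ℚ (AlgebraicClosure ℚ) y) =
        algebraMap ℚ (AlgebraicClosure ℚ) y := ⟨AlgHom.commutes _ x, AlgHom.commutes _ y⟩
    exact (Affine.Point.some.injEq _ _ _ _ _ _).mpr h3

theorem linInd_up {W : WeierstrassCurve ℚ} {r : ℕ} {P : Fin r → W.toAffine.Point}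
    (h : LinearIndependent ℤ P) : LinearIndependent ℤ fun i => up W (P i) := by
  have h1 : Function.Injective (upH W) := up_injective W
  exact h.map' (upH W).toIntLinearMap (LinearMap.ker_eq_bot.2 h1)

theorem finrank_eq {r : ℕ} {W : WeierstrassCurve ℚ} {P : Fin r → W.toAffine.Point}
    (h : LinearIndependent ℤ P) {L : IntermediateField ℚ (AlgebraicClosure ℚ)}
    (hf : ∀ x ∈ L, ∀ y ∈ L, ∀ h : (W⁄(AlgebraicClosure ℚ)).toAffine.Nonsingular x y,
      Affine.Point.some x y h ∈ sq W P) : Module.finrank ℤ (W⁄L).toAffine.Point = r := by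
  apply Module.finrank_eq_of_rank_eq
  apply le_antisymm
  · refine rank_le fun s hs => ?_
    by_contra hlt
    rw [not_le] at hlt
    obtain ⟨t, hts, htc⟩ := Finset.exists_subset_card_eq (Nat.succ_le_of_lt hlt)
    have h1 : LinearIndependent ℤ fun i : t => (i : (W⁄L).toAffine.Point) :=
      hs.comp (fun i : t => (⟨i, hts i.2⟩ : s)) fun a b hab => by
        have := congrArg (fun x : s => (x : (W⁄L).toAffine.Point)) hab
        exact Subtype.ext this
    have e : Fin (r + 1) ≃ t := (finCongr (by rw [htc])).trans t.equivFin.symm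
    have h2 : LinearIndependent ℤ fun i : Fin (r + 1) => ((e i : t) : (W⁄L).toAffine.Point) :=
      h1.comp e e.injective
    have h3 : LinearIndependent ℤ fun i : Fin (r + 1) =>
        upL W L ((e i : t) : (W⁄L).toAffine.Point) :=
      h2.map' (upL W L).toIntLinearMap (LinearMap.ker_eq_bot.2 (upL_injective W L))
    exact not_linInd_sat (fun i => up W (P i)) _ (fun i => upL_mem hf _) h3
  · have h1 : LinearIndependent ℤ fun i => upQ W L (P i) := by
      have h2 := linInd_up h
      have h3 : (fun i => up W (P i)) = fun i => (upL W L).toIntLinearMap (upQ W L (P i)) := by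
        funext i
        exact (upL_upQ W L (P i)).symm
      rw [h3] at h2
      exact LinearIndependent.of_comp _ h2
    have h2 := h1.cardinal_le_rank
    rwa [Cardinal.mk_fin] at h2

/-- If the rank over `L` is the number of the points `P i`, the points over `L` are in the
saturation of the group which they generate. -/
theorem mem_sq_of_finrank {r : ℕ} (hr : r ≠ 0) {W : WeierstrassCurve ℚ}
    {P : Fin r → W.toAffine.Point} (h : LinearIndependent ℤ P)
    {L : IntermediateField ℚ (AlgebraicClosure ℚ)}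
    (hL : Module.finrank ℤ (W⁄L).toAffine.Point = r) (R : (W⁄L).toAffine.Point) :
    upL W L R ∈ sq W P := by
  have hrank : Module.rank ℤ (W⁄L).toAffine.Point = r := by
    rwa [Module.finrank, Cardinal.toNat_eq_iff hr] at hL
  have h1 : LinearIndependent ℤ fun i => upQ W L (P i) := by
    have h2 := linInd_up h
    have h3 : (fun i => up W (P i)) = fun i => (upL W L).toIntLinearMap (upQ W L (P i)) := by
      funext i
      exact (upL_upQ W L (P i)).symm
    rw [h3] at h2
    exact LinearIndependent.of_comp _ h2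
  have h2 : ∃ (c : ℤ) (y : (W⁄L).toAffine.Point),
      y ∈ Submodule.span ℤ (Set.range fun i => upQ W L (P i)) ∧ c • R + y = 0 ∧ c ≠ 0 := by
    by_contra hne
    have h3 := LinearIndependent.finCons' R (fun i => upQ W L (P i)) h1
      (fun c y hy hcy => by
        by_contra hc
        exact hne ⟨c, y, hy, hcy, hc⟩)
    have h4 := h3.cardinal_le_rank
    rw [hrank, Cardinal.mk_fin] at h4
    have h5 : r + 1 ≤ r := by exact_mod_cast h4
    omega
  obtain ⟨c, y, hym, hy, hc⟩ := h2
  have h3 : ∀ x ∈ Submodule.span ℤ (Set.range fun i => upQ W L (P i)),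
      upL W L x ∈ AddSubgroup.closure (Set.range fun i => up W (P i)) := by
    intro x hx
    have h4 : Submodule.span ℤ (Set.range fun i => upQ W L (P i)) ≤
        (Submodule.span ℤ (Set.range fun i => up W (P i))).comap (upL W L).toIntLinearMap := by
      rw [Submodule.span_le]
      rintro _ ⟨i, rfl⟩
      exact Submodule.subset_span ⟨i, (upL_upQ W L (P i)).symm⟩
    have h5 := h4 hx
    rw [Submodule.mem_comap] at h5
    rw [← Submodule.span_int_eq_addSubgroupClosure]
    exact h5
  have h4 : c • upL W L R ∈ AddSubgroup.closure (Set.range fun i => up W (P i)) := by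
    have h5 : c • R = -y := eq_neg_of_add_eq_zero_left hy
    rw [← map_zsmul, h5, map_neg]
    exact AddSubgroup.neg_mem _ (h3 y hym)
  refine ⟨c.natAbs, Int.natAbs_pos.2 hc, ?_⟩
  rcases Int.natAbs_eq c with h5 | h5
  · rw [h5, natCast_zsmul] at h4
    exact h4
  · rw [h5, neg_smul, natCast_zsmul] at h4
    exact (AddSubgroup.neg_mem_iff _).1 h4

theorem inHE_of_finrank {r : ℕ} (hr : r ≠ 0) {W : WeierstrassCurve ℚ}
    {P : Fin r → W.toAffine.Point} (h : DatK r W P)
    {L : IntermediateField ℚ (AlgebraicClosure ℚ)}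
    (hL : Module.finrank ℤ (W⁄L).toAffine.Point = r) : InHE (W⁄(AlgebraicClosure ℚ)) L := by
  intro x hx y hy hns
  have hns' : (W⁄L).toAffine.Nonsingular (⟨x, hx⟩ : L) ⟨y, hy⟩ := by
    have h1 := (Affine.map_nonsingular (W⁄L).toAffine
      (f := algebraMap L (AlgebraicClosure ℚ)) (algebraMap L (AlgebraicClosure ℚ)).injective
      (⟨x, hx⟩ : L) ⟨y, hy⟩).1
    apply h1
    have h2 : ((W⁄L).map (algebraMap L (AlgebraicClosure ℚ))) = W⁄(AlgebraicClosure ℚ) :=
      base_base W L
    change ((W⁄L).map (algebraMap L (AlgebraicClosure ℚ))).toAffine.Nonsingular x y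
    rw [h2]
    exact hns
  exact sq_le_HE h (mem_sq_of_finrank hr h.ind hL (.some _ _ hns'))

end Pool.Agent.ZCQL
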