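import Pool.Agent.ZCQK.Gal1

/-!
# Galois conjugation of the sets `SetE`
-/

set_option autoImplicit false

noncomputable section

namespace Pool.Agent.ZCQL

open WeierstrassCurve Pool.Agent.ZC Pool.Agent.ZCQ Pool.Agent.ZCQK
open scoped Classical

/-- The map on points given by an automorphism of the base field. -/
def cj {k : Type} [Field k] (τ : k ≃+* k) {W W₂ : WeierstrassCurve k}
    (h : W.map (τ : k →+* k) = W₂) : W.toAffine.Point → W₂.toAffine.Point
  | 0 => 0
  | .some x y hP => .some (τ x) (τ y) (by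
      subst h
      exact (Affine.map_nonsingular W.toAffine (f := (τ : k →+* k)) τ.injective x y).2 hP)

/-- the relation `SpecAt` in terms of the coordinates -/
private def good {k F : Type} [Field k] [Field F] [Algebra k F] (O : ValuationSubring F)
    (W : WeierstrassCurve k) : (W⁄F).toAffine.Point → W.toAffine.Point → Prop
  | 0, 0 => True
  | 0, .some _ _ _ => False
  | .some x _ _, 0 => x ∉ O
  | .some x y _, .some a b _ => O.valuation (x - algebraMap k F a) < 1 ∧
      O.valuation (y - algebraMap k F b) < 1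

private theorem good_iff {k F : Type} [Field k] [Field F] [Algebra k F] (O : ValuationSubring F)
    (W : WeierstrassCurve k) (a : (W⁄F).toAffine.Point) (p : W.toAffine.Point) :
    SpecAt O W a p ↔ good O W a p := by
  constructor
  · intro H
    cases H with
    | zero => trivial
    | pole h hx => exact hx
    | finite h h' hx hy => exact ⟨hx, hy⟩
  · intro H
    rcases a with _ | ⟨x, y, h⟩ <;> rcases p with _ | ⟨u, v, hp⟩
    · exact SpecAt.zero
    · exact H.elim
    · exact SpecAt.pole h H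
    · exact SpecAt.finite h hp H.1 H.2

/-- the two descriptions of the specialisations agree -/
private theorem cj_spec {k : Type} [Field k] (τ : k ≃+* k) (W : WeierstrassCurve k) {F : Type}
    [Field F] (i : Algebra k F) (O : ValuationSubring F)
    (a : ((W.map (τ : k →+* k))⁄F).toAffine.Point) (p : W.toAffine.Point) :
    SpecAt O (W.map (τ : k →+* k)) a (cj τ rfl p) ↔
      @SpecAt k F _ _ ((algebraMap k F).comp (τ : k →+* k)).toAlgebra O W a p := by
  rw [good_iff, @good_iff k F _ _ ((algebraMap k F).comp (τ : k →+* k)).toAlgebra]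
  rcases a with _ | ⟨x, y, h⟩ <;> rcases p with _ | ⟨u, v, hp⟩ <;> exact Iff.rfl

private theorem cj_surj {k : Type} [Field k] (τ : k ≃+* k) (W : WeierstrassCurve k)
    (p : (W.map (τ : k →+* k)).toAffine.Point) : ∃ p' : W.toAffine.Point, cj τ rfl p' = p := by
  rcases p with _ | ⟨x, y, h⟩
  · exact ⟨0, rfl⟩
  · have h1 : W.toAffine.Nonsingular (τ.symm x) (τ.symm y) := by
      have h2 := (Affine.map_nonsingular W.toAffine (f := (τ : k →+* k)) τ.injective
        (τ.symm x) (τ.symm y)).1
      apply h2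
      have e1 : (τ : k →+* k) (τ.symm x) = x := τ.apply_symm_apply x
      have e2 : (τ : k →+* k) (τ.symm y) = y := τ.apply_symm_apply y
      rw [e1, e2]
      exact h
    refine ⟨.some (τ.symm x) (τ.symm y) h1, ?_⟩
    exact (Affine.Point.some.injEq _ _ _ _ _ _).mpr
      ⟨τ.apply_symm_apply x, τ.apply_symm_apply y⟩

/- PROOF. `subst` the two equations. Let `F` be a field with `algebraMap : k → F` and `a` a point of
`(W'.map τ)⁄F`. For the second structure `algebraMap ∘ τ` of a `k`-algebra on `F` (`letI`, use `@`), `a` is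
a point of `W'⁄F` (the two curves are equal by `rfl`), so `hG` gives a point `A` of `W⁄F`, i.e. of
`(W.map τ)⁄F`. The places are the same (`τ` is bijective), and `SpecAt O (W'.map τ) a (cj τ rfl p')` for the
first structure is `SpecAt O W' a p'` for the second one (cases); `cj` is surjective. -/
theorem lift_cj {k : Type} [Field k] (τ : k ≃+* k) {W' W W₂' W₂ : WeierstrassCurve k}
    (h' : W'.map (τ : k →+* k) = W₂') (h : W.map (τ : k →+* k) = W₂)
    {G : W'.toAffine.Point → W.toAffine.Point} (hG : Lift G)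
    {G₂ : W₂'.toAffine.Point → W₂.toAffine.Point} (hG₂ : ∀ P, G₂ (cj τ h' P) = cj τ h (G P)) :
    Lift G₂ := by
  subst h'
  subst h
  intro F _ i a
  obtain ⟨A, hA⟩ := @hG F _ ((algebraMap k F).comp (τ : k →+* k)).toAlgebra a
  refine ⟨A, fun O hO p hp => ?_⟩
  obtain ⟨p', rfl⟩ := cj_surj τ W' p
  rw [hG₂]
  rw [cj_spec] at hp ⊢
  exact hA O ⟨fun b => hO.1 (τ b), hO.2⟩ p' hp

/- PROOF. `P = G (u, y)` on `leg L`; `(leg L).map τ = leg (τ L)`, `(W⁄ℚ̄).map τ = W⁄ℚ̄` (`ext`, `τ` fixes `ℚ`).
Use `G₂ = fun Q => gact W τ (G (cj τ.symm _ Q))` and `lift_cj`; `gact W τ` is `cj τ _` (cases). -/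
theorem gact_mem_SetE (W : WeierstrassCurve ℚ)
    (τ : AlgebraicClosure ℚ ≃ₐ[ℚ] AlgebraicClosure ℚ) {u : AlgebraicClosure ℚ}
    {P : (W⁄(AlgebraicClosure ℚ)).toAffine.Point} (hP : P ∈ SetE (W⁄(AlgebraicClosure ℚ)) u) :
    gact W τ P ∈ SetE (W⁄(AlgebraicClosure ℚ)) (τ u) := by
  obtain ⟨L, y, h, G, hL0, hL1, hy, hG, hG0, rfl⟩ := hP
  let σ : AlgebraicClosure ℚ ≃+* AlgebraicClosure ℚ := τ.toRingEquiv
  have hσ : ∀ z, σ z = τ z := fun _ => rfl
  have hleg : (leg L).map (σ : AlgebraicClosure ℚ →+* AlgebraicClosure ℚ) = leg (τ L) := by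
    ext <;> simp [leg, hσ]
  have hleg' : (leg (τ L)).map (σ.symm : AlgebraicClosure ℚ →+* AlgebraicClosure ℚ) = leg L := by
    have e : σ.symm (τ L) = L := σ.symm_apply_apply L
    ext <;> simp [leg, e]
  have hW : (W⁄(AlgebraicClosure ℚ)).map (σ : AlgebraicClosure ℚ →+* AlgebraicClosure ℚ) =
      W⁄(AlgebraicClosure ℚ) := by
    ext <;> exact τ.commutes _
  have hgact : ∀ X : (W⁄(AlgebraicClosure ℚ)).toAffine.Point, gact W τ X = cj σ hW X := by
    intro X
    rcases X with _ | ⟨a, b, hab⟩ <;> rfl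
  have hcj : ∀ X : (leg L).toAffine.Point, cj σ.symm hleg' (cj σ hleg X) = X := by
    intro X
    rcases X with _ | ⟨a, b, hab⟩
    · rfl
    · exact (Affine.Point.some.injEq _ _ _ _ _ _).mpr
        ⟨σ.symm_apply_apply a, σ.symm_apply_apply b⟩
  let G₂ : (leg (τ L)).toAffine.Point → (W⁄(AlgebraicClosure ℚ)).toAffine.Point :=
    fun Q => gact W τ (G (cj σ.symm hleg' Q))
  have hG₂ : ∀ X, G₂ (cj σ hleg X) = cj σ hW (G X) := by
    intro X
    simp only [G₂]
    rw [hcj, hgact]
  have h' : (leg (τ L)).toAffine.Nonsingular (τ u) (τ y) := by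
    rw [← hleg]
    exact (Affine.map_nonsingular (leg L).toAffine
      (f := (σ : AlgebraicClosure ℚ →+* AlgebraicClosure ℚ)) σ.injective u y).2 h
  refine ⟨τ L, τ y, h', G₂, ?_, ?_, ?_, lift_cj σ hleg hW hG hG₂, ?_, ?_⟩
  · rwa [Ne, map_eq_zero]
  · intro h1
    apply hL1
    apply τ.injective
    rw [h1, map_one]
  · rwa [Ne, map_eq_zero]
  · have h1 : cj σ.symm hleg' 0 = 0 := rfl
    simp only [G₂]
    rw [h1, hG0, map_zero]
  · have h1 : (Affine.Point.some (τ u) (τ y) h' : (leg (τ L)).toAffine.Point) =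
        cj σ hleg (Affine.Point.some u y h) := rfl
    rw [h1, hG₂, hgact]

end Pool.Agent.ZCQL
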