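import Pool.Agent.ZCQL.GalL

/-!
# The two conditions of the theorem
-/

set_option autoImplicit false

noncomputable section

namespace Pool.Agent.ZCQL

open WeierstrassCurve Pool.Agent.ZC Pool.Agent.ZCQ Pool.Agent.ZCQK
open scoped Classical

variable {L : IntermediateField ℚ (AlgebraicClosure ℚ)} {N : ℕ}

/-- The first condition: the sum of the values of `f` at the points of the zero-cycle `z` is zero for
all Galois-invariant multiadditive functions `f` on at least two of the factors which vanish when two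
coordinates are in the groups `HE` for the same abscissa. -/
def FormCond (A : Fin N → WeierstrassCurve L) (z : Z0N fun i => (A i)⁄(AlgebraicClosure ℚ)) :
    Prop :=
  ∀ (I : Finset (Fin N))
    (f : MultilinearMap ℤ (fun i : I => ((A i)⁄(AlgebraicClosure ℚ)).toAffine.Point) ℚ),
    2 ≤ I.card →
    (∀ (σ : AlgebraicClosure ℚ ≃ₐ[L] AlgebraicClosure ℚ)
      (x : (i : I) → ((A i)⁄(AlgebraicClosure ℚ)).toAffine.Point),
      f (fun i => galL (A i) σ (x i)) = f x) →
    (∀ (i j : I) (v : AlgebraicClosure ℚ)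
      (x : (i : I) → ((A i)⁄(AlgebraicClosure ℚ)).toAffine.Point), i ≠ j →
      x i ∈ HE ((A i)⁄(AlgebraicClosure ℚ)) v → x j ∈ HE ((A j)⁄(AlgebraicClosure ℚ)) v →
      f x = 0) →
    z.sum (fun p n => n • f fun i => p i) = 0

/-- The second condition: the points `p` of the zero-cycle `z` have multiples which are sums of points
`h k` with only one component or with all components in the groups `HE` for the same abscissa, the
Galois-invariant elements of the groups generated by the conjugates of the components of `h k` are in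
the groups `HE` for a fixed abscissa `v₀`, and any `N` of the points `h k` are Galois-independent. -/
def SumCond (A : Fin N → WeierstrassCurve L) (z : Z0N fun i => (A i)⁄(AlgebraicClosure ℚ)) :
    Prop :=
  ∃ v₀ : AlgebraicClosure ℚ, ∀ p ∈ z.support, ∃ (n m : ℕ)
    (h : Fin m → PtN fun i => (A i)⁄(AlgebraicClosure ℚ)), 0 < n ∧ n • p = ∑ k, h k ∧
    (∀ k, (∃ i, ∀ j, j ≠ i → h k j = 0) ∨
      ∃ v, ∀ i, h k i ∈ HE ((A i)⁄(AlgebraicClosure ℚ)) v) ∧
    (∀ k i, ∀ P ∈ AddSubgroup.closure (Set.range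
        fun σ : AlgebraicClosure ℚ ≃ₐ[L] AlgebraicClosure ℚ => galL (A i) σ (h k i)),
      (∀ σ : AlgebraicClosure ℚ ≃ₐ[L] AlgebraicClosure ℚ, galL (A i) σ P = P) →
      P ∈ HE ((A i)⁄(AlgebraicClosure ℚ)) v₀) ∧
    ∀ K : Finset (Fin m), K.card ≤ N → ∀ τ : Fin m → AlgebraicClosure ℚ ≃ₐ[L]
      AlgebraicClosure ℚ, ∃ σ : AlgebraicClosure ℚ ≃ₐ[L] AlgebraicClosure ℚ, ∀ k ∈ K, ∀ i,
        galL (A i) σ (h k i) = galL (A i) (τ k) (h k i)

end Pool.Agent.ZCQL
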