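import Pool.Agent.ZCQL.Form3
import Pool.Agent.ZCQL.Cond

/-!
# Galois-invariant zero-cycles and invariant forms
-/

set_option autoImplicit false

noncomputable section

namespace Pool.Agent.ZCQL

open WeierstrassCurve Pool.Agent.ZC Pool.Agent.ZCQ Pool.Agent.ZCQK
open scoped Classical

variable {L : IntermediateField ℚ (AlgebraicClosure ℚ)} {N : ℕ} (A : Fin N → WeierstrassCurve L)

/-- Two points which are contained in the groups `HE` for a common abscissa. -/
def RelL (i j : Fin N) (a : ((A i)⁄(AlgebraicClosure ℚ)).toAffine.Point)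
    (b : ((A j)⁄(AlgebraicClosure ℚ)).toAffine.Point) : Prop :=
  ∃ v, a ∈ HE ((A i)⁄(AlgebraicClosure ℚ)) v ∧ b ∈ HE ((A j)⁄(AlgebraicClosure ℚ)) v

theorem ell_base (hE : ∀ i, (A i).IsElliptic) (i : Fin N) :
    ((A i)⁄(AlgebraicClosure ℚ)).IsElliptic := by
  have h1 := hE i
  have h2 : ((A i).map (algebraMap L (AlgebraicClosure ℚ))).IsElliptic := inferInstance
  exact h2

theorem RelL.orth (hE : ∀ i, (A i).IsElliptic) (i j : Fin N) (hij : i ≠ j)
    (a : ((A i)⁄(AlgebraicClosure ℚ)).toAffine.Point)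
    (b : ((A j)⁄(AlgebraicClosure ℚ)).toAffine.Point) (h : RelL A i j a b) :
    Orth (clN fun i => (A i)⁄(AlgebraicClosure ℚ)) i j a b := by
  obtain ⟨v, ha, hb⟩ := h
  exact clN_orth_satur (ell_base A hE) hij (fun a ha => ha) (fun b hb => hb) ha hb

theorem RelL.smul (i j : Fin N)
    (a : ((A i)⁄(AlgebraicClosure ℚ)).toAffine.Point)
    (b : ((A j)⁄(AlgebraicClosure ℚ)).toAffine.Point)
    (γ : AlgebraicClosure ℚ ≃ₐ[L] AlgebraicClosure ℚ) (h : RelL A i j a b) :
    RelL A i j (galL (A i) γ a) (galL (A j) γ b) := by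
  obtain ⟨v, ha, hb⟩ := h
  exact ⟨γ v, galL_mem_HE ha γ, galL_mem_HE hb γ⟩

theorem critL (hE : ∀ i, (A i).IsElliptic) (z : Z0N fun i => (A i)⁄(AlgebraicClosure ℚ))
    (hz : ∀ σ : AlgebraicClosure ℚ ≃ₐ[L] AlgebraicClosure ℚ,
      z.mapDomain (fun p i => galL (A i) σ (p i)) = z)
    (hd : z.sum (fun _ n => n) = 0) (hs : ∀ i, z.sum (fun p n => n • p i) = 0)
    (H : FormCond A z) :
    ∃ M : ℕ, 0 < M ∧ M • z ∈ RatEqN fun i => (A i)⁄(AlgebraicClosure ℚ) := by
  rw [← mk_eq_zero, mk_eq_sum]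
  refine crit (clN_aff (ell_base A hE)) (fun n a hn h => QN_torsion n a hn h)
    (fun i => galL (A i)) (fun i x => galL_finite (A i) x) (RelL A) (RelL.orth A hE)
    (fun i j a b γ h => h.smul A i j a b γ) z hz hd hs fun J f hJ hf hR => ?_
  exact H J f hJ hf fun i j v p hij hi hj => hR i j p hij ⟨v, hi, hj⟩

/-- The second form of the criterion: the points in the support have multiples which are sums of
points `h k`, any `N` of which are Galois-independent, with all components in the groups `HE` for one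
abscissa or with only one component, such that the traces of the components are in the groups `HE` for
a fixed abscissa `v₀`. -/
theorem critL3 (hE : ∀ i, (A i).IsElliptic)
    (z : Z0N fun i => (A i)⁄(AlgebraicClosure ℚ))
    (hz : ∀ σ : AlgebraicClosure ℚ ≃ₐ[L] AlgebraicClosure ℚ,
      z.mapDomain (fun p i => galL (A i) σ (p i)) = z)
    (hd : z.sum (fun _ n => n) = 0) (hs : ∀ i, z.sum (fun p n => n • p i) = 0)
    (hp : SumCond A z) :
    ∃ M : ℕ, 0 < M ∧ M • z ∈ RatEqN fun i => (A i)⁄(AlgebraicClosure ℚ) := by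
  rw [← mk_eq_zero, mk_eq_sum]
  obtain ⟨v₀, hp⟩ := hp
  refine crit3 (clN_aff (ell_base A hE)) (fun n a hn h => QN_torsion n a hn h)
    (fun i => galL (A i)) (fun i x => galL_finite (A i) x) (RelL A) (RelL.orth A hE)
    (fun i j a b γ h => h.smul A i j a b γ)
    (fun i => HE ((A i)⁄(AlgebraicClosure ℚ)) v₀)
    (fun i j _ a ha b hb => ⟨v₀, ha, hb⟩) z hz hd hs fun p hpz => ?_
  obtain ⟨n, m, h, hn, hsum, h1, hhS, h2⟩ := hp p hpz
  refine ⟨n, m, h, hn, hsum, hhS, fun k => ?_, ?_⟩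
  · rcases h1 k with h3 | ⟨v, hv⟩
    · exact Or.inl h3
    · exact Or.inr fun i j _ => ⟨v, hv i, hv j⟩
  · rw [Fintype.card_fin]
    exact h2

end Pool.Agent.ZCQL
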