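import Pool.Agent.ZCQL.Rat2
import Pool.Agent.ZCQL.Final

/-!
# Galois-invariant zero-cycles on products of elliptic curves of rank four, second version
-/

set_option autoImplicit false

noncomputable section

namespace Pool.Agent.ZCQL

open WeierstrassCurve Pool.Agent.ZC Pool.Agent.ZCQ Pool.Agent.ZCQK
open scoped Classical

theorem main_aux2 : ∃ (E : ℕ → WeierstrassCurve ℚ)
    (G : (n : ℕ) → AddSubgroup ((E n)⁄(AlgebraicClosure ℚ)).toAffine.Point),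
    (∀ n, (E n).IsElliptic) ∧
    (∀ n n', (E n).c₄ ^ 3 / (E n).Δ = (E n').c₄ ^ 3 / (E n').Δ → n = n') ∧
    (∀ n (g : ((E n)⁄(AlgebraicClosure ℚ)).toAffine.Point) (k : ℕ),
      0 < k → k • g ∈ G n → g ∈ G n) ∧
    (∀ n, n ≠ 1 → ∃ P : Fin 4 → (E n).toAffine.Point,
      LinearIndependent ℤ P ∧ ∀ i, up (E n) (P i) ∈ G n) ∧
    (E 0 = ⟨0, -10660, 0, 28138500, 0⟩ ∧
      ∀ P : Fin 5 → ((E 0)⁄(AlgebraicClosure ℚ)).toAffine.Point, (∀ i, P i ∈ G 0) →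
        ¬ LinearIndependent ℤ P) ∧
    (E 1 = ⟨0, 1430, 0, -5272800, 0⟩ ∧
      (∃ P : Fin 3 → (E 1).toAffine.Point, LinearIndependent ℤ P ∧ ∀ i, up (E 1) (P i) ∈ G 1) ∧
      ∀ P : Fin 4 → ((E 1)⁄(AlgebraicClosure ℚ)).toAffine.Point, (∀ i, P i ∈ G 1) →
        ¬ LinearIndependent ℤ P) ∧
    {K : IntermediateField ℚ (AlgebraicClosure ℚ) | QF K}.Infinite ∧
    (∀ K : IntermediateField ℚ (AlgebraicClosure ℚ), QF K → Module.finrank ℚ K = 2 ∧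
      ∀ x ∈ K, ∀ y ∈ K,
        (∀ h : ((E 0)⁄(AlgebraicClosure ℚ)).toAffine.Nonsingular x y, .some x y h ∈ G 0) ∧
        ∀ h : ((E 1)⁄(AlgebraicClosure ℚ)).toAffine.Nonsingular x y, .some x y h ∈ G 1) ∧
    ∀ (L : IntermediateField ℚ (AlgebraicClosure ℚ)) (N : ℕ) (s : Fin N → ℕ)
      (z : Z0N fun i => (E (s i))⁄(AlgebraicClosure ℚ)),
      (∀ τ : L.fixingSubgroup, z.mapDomain (fun p i => gal L (E (s i)) τ (p i)) = z) →
      (∀ p ∈ z.support, ∃ (m : ℕ) (h : Fin m → PtN fun i => (E (s i))⁄(AlgebraicClosure ℚ)),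
        (∀ i, p i - ∑ j, h j i ∈ G (s i)) ∧
        (∀ j, (∃ k, ∀ i, i ≠ k → h j i = 0) ∨
          ∃ v, ∀ i, h j i ∈ HE ((E (s i))⁄(AlgebraicClosure ℚ)) v) ∧
        (∀ J : Finset (Fin m), J.card ≤ N → ∀ τ : Fin m → L.fixingSubgroup,
          ∃ γ : L.fixingSubgroup, ∀ j ∈ J, ∀ i,
            gal L (E (s i)) γ (h j i) = gal L (E (s i)) (τ j) (h j i)) ∧
        ∀ j i, (s i ≤ 1 ∧ (L = ⊥ ∨ QF L)) ∨ trc (gal L (E (s i))) (h j i) ∈ G (s i)) →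
      z.sum (fun _ n => n) = 0 → (∀ i, z.sum (fun p n => n • p i) = 0) →
      ∃ M : ℕ, 0 < M ∧ M • z ∈ RatEqN fun i => (E (s i))⁄(AlgebraicClosure ℚ) := by
  obtain ⟨f, hj, hr, hf0, hf1⟩ := exists_seqK
  have key : ∀ M : MemK, M = m0 → M.W = ⟨0, -10660, 0, 28138500, 0⟩ ∧
      (∀ P : Fin 5 → (M.W⁄(AlgebraicClosure ℚ)).toAffine.Point, (∀ i, P i ∈ sq M.W M.P) →
        ¬ LinearIndependent ℤ P) ∧ Full M.W (sq M.W M.P) := by
    rintro _ rfl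
    refine ⟨e0_cc, fun P hP => not_linInd_sat _ P hP, ?_⟩
    rintro K ⟨p, s, hp, hmod, hs, rfl⟩ x hx y hy h
    obtain ⟨m, hm, h0⟩ := e0_mul_mem
    exact mem_sq_of_up hm h0 (e0_up hp hmod hs hx hy h)
  have key1 : ∀ M : MemK, M = m1 → M.W = ⟨0, 1430, 0, -5272800, 0⟩ ∧
      (∃ P : Fin 3 → M.W.toAffine.Point, LinearIndependent ℤ P ∧ ∀ i, up M.W (P i) ∈ sq M.W M.P) ∧
      (∀ P : Fin 4 → (M.W⁄(AlgebraicClosure ℚ)).toAffine.Point, (∀ i, P i ∈ sq M.W M.P) →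
        ¬ LinearIndependent ℤ P) ∧ Full M.W (sq M.W M.P) := by
    rintro _ rfl
    refine ⟨e1_cc, ⟨e1_pt, e1_linInd, fun i => le_satur _ (AddSubgroup.subset_closure ⟨i, rfl⟩)⟩,
      fun P hP => not_linInd_sat _ P hP, ?_⟩
    rintro K ⟨p, s, hp, hmod, hs, rfl⟩ x hx y hy h
    obtain ⟨m, hm, h0⟩ := e1_mul_mem
    exact mem_sq_of_up hm h0 (e1_up hp hmod hs hx hy h)
  obtain ⟨k1, k2, k3⟩ := key _ hf0
  obtain ⟨l1, l2, l3, l4⟩ := key1 _ hf1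
  have hfull : ∀ n, n ≤ 1 → Full (f n).W (sq (f n).W (f n).P) := by
    intro n hn
    interval_cases n
    · exact k3
    · exact l4
  refine ⟨fun n => (f n).W, fun n => sq (f n).W (f n).P, fun n => (f n).dat.ell, hj,
    fun n g k hk h => satur_sat hk h, ?_, ⟨k1, k2⟩, ⟨l1, l2, l3⟩, QF_infinite,
    fun K hK => ⟨hK.finrank, fun x hx y hy => ⟨k3 K hK x hx y hy, l4 K hK x hx y hy⟩⟩, ?_⟩
  · intro n hn
    refine ⟨fun i => (f n).P (Fin.castLE (hr n hn) i), ?_, fun i => ?_⟩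
    · exact (f n).dat.ind.comp _ (Fin.castLE_injective _)
    · exact le_satur _ (AddSubgroup.subset_closure ⟨_, rfl⟩)
  · intro L N s z hz hsupp hd hs
    refine cycleGal2 (fun i => (f (s i)).W) (fun i => (f (s i)).dat.ell) (8 / 13) _
      (fun i => (f (s i)).P) (fun i l => (f (s i)).dat.set l) L z hz (fun p hp => ?_)
      hd hs
    obtain ⟨m, h, h1, h2, h3, h4⟩ := hsupp p hp
    refine ⟨m, h, h1, h2, h3, fun j i => ?_⟩
    rcases h4 j i with h | h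
    · exact (hfull (s i) h.1).trc_mem h.2 _
    · exact h

end Pool.Agent.ZCQL
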