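import Pool.Agent.ZCQL.Rat
import Pool.Agent.ZCQL.Avg3

/-!
# Galois-invariant zero-cycles: sums of independent points
-/

set_option autoImplicit false

noncomputable section

namespace Pool.Agent.ZCQL

open Function WeierstrassCurve Pool.Agent.ZC Pool.Agent.ZCQ Pool.Agent.ZCQK
open scoped Classical

/-- Every point is contained in one of the groups `HE`. -/
theorem exists_HE (E : WeierstrassCurve (AlgebraicClosure ℚ)) [E.IsElliptic]
    (P : E.toAffine.Point) : ∃ v, P ∈ HE E v := by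
  obtain ⟨ι, -⟩ := exists_iota
  obtain ⟨l, hl0, hl1, -, -, φ, hφ, hL⟩ := exists_leg2 ι E
  obtain ⟨Q, rfl⟩ := hφ.2 P
  rcases Q with _ | ⟨x, y, h⟩
  · exact ⟨0, 1, one_pos, by
      rw [one_smul]
      have h0 : φ (Affine.Point.zero : (leg l).toAffine.Point) = 0 := map_zero φ
      rw [h0]
      exact AddSubgroup.zero_mem _⟩
  · rcases eq_or_ne y 0 with rfl | hy
    · refine ⟨0, 2, two_pos, ?_⟩
      have h1 : (Affine.Point.some x 0 h : (leg l).toAffine.Point) =
          -(Affine.Point.some x 0 h : (leg l).toAffine.Point) := by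
        rw [Affine.Point.neg_some, Affine.Point.some.injEq]
        refine ⟨rfl, ?_⟩
        simp [Affine.negY, leg]
      have h2 : (2 : ℕ) • (Affine.Point.some x 0 h : (leg l).toAffine.Point) = 0 := by
        rw [two_smul]
        nth_rewrite 1 [h1]
        exact neg_add_cancel _
      rw [← map_nsmul, h2, map_zero]
      exact AddSubgroup.zero_mem _
    · refine ⟨x, 1, one_pos, ?_⟩
      rw [one_smul]
      exact AddSubgroup.subset_closure ⟨l, y, h, fun P => φ P, hl0, hl1, hy, hL, map_zero φ, rfl⟩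

theorem cycleGal2 {N : ℕ} (E : Fin N → WeierstrassCurve ℚ) (hE : ∀ i, (E i).IsElliptic) (u : ℚ)
    (r : Fin N → ℕ) (P : (i : Fin N) → Fin (r i) → (E i).toAffine.Point)
    (hP : ∀ i l, up (E i) (P i l) ∈
      SetE ((E i)⁄(AlgebraicClosure ℚ)) (algebraMap ℚ (AlgebraicClosure ℚ) u))
    (L : IntermediateField ℚ (AlgebraicClosure ℚ)) (z : Z0N fun i => (E i)⁄(AlgebraicClosure ℚ))
    (hz : ∀ τ : L.fixingSubgroup, z.mapDomain (fun p i => gal L (E i) τ (p i)) = z)
    (hsupp : ∀ p ∈ z.support, ∃ (m : ℕ) (h : Fin m → PtN fun i => (E i)⁄(AlgebraicClosure ℚ)),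
      (∀ i, p i - ∑ j, h j i ∈ sq (E i) (P i)) ∧
      (∀ j, (∃ k, ∀ i, i ≠ k → h j i = 0) ∨
        ∃ v, ∀ i, h j i ∈ HE ((E i)⁄(AlgebraicClosure ℚ)) v) ∧
      (∀ J : Finset (Fin m), J.card ≤ N → ∀ τ : Fin m → L.fixingSubgroup,
        ∃ γ : L.fixingSubgroup, ∀ j ∈ J, ∀ i, gal L (E i) γ (h j i) = gal L (E i) (τ j) (h j i)) ∧
      ∀ j i, trc (gal L (E i)) (h j i) ∈ sq (E i) (P i))
    (hd : z.sum (fun _ n => n) = 0) (hs : ∀ i, z.sum (fun p n => n • p i) = 0) :
    ∃ M : ℕ, 0 < M ∧ M • z ∈ RatEqN fun i => (E i)⁄(AlgebraicClosure ℚ) := by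
  have hW : ∀ i, ((E i)⁄(AlgebraicClosure ℚ)).IsElliptic := by
    intro i
    have h1 := hE i
    have h2 : ((E i).map (algebraMap ℚ (AlgebraicClosure ℚ))).IsElliptic := inferInstance
    exact h2
  have hA : ∀ (n : ℕ) (a : QN fun i => (E i)⁄(AlgebraicClosure ℚ)), 0 < n → n • a = 0 → a = 0 :=
    fun n a hn h => QN_torsion n a hn h
  rw [← mk_eq_zero, mk_eq_sum]
  refine avg3 (clN_aff hW) hA (fun i => gal L (E i))
    (fun i => sq (E i) (P i)) (fun i j hij a ha b hb => ?_)
    (fun i a n hn h => satur_sat hn h) (fun i a ha τ => gal_sq ha τ)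
    (fun i x => gal_finite L (E i) x) z hz (fun p hp => ?_) hd hs
  · refine clN_orth_satur hW hij (u := algebraMap ℚ (AlgebraicClosure ℚ) u) ?_ ?_ ha hb
    · rintro _ ⟨l, rfl⟩
      exact hP i l
    · rintro _ ⟨l, rfl⟩
      exact hP j l
  · obtain ⟨m, h, h1, h2, h3, h4⟩ := hsupp p hp
    refine ⟨m, h, h1, fun j τ => ?_, fun J hJ τ => ?_, h4⟩
    · intro a b hab
      rcases h2 j with ⟨k, hk⟩ | ⟨v, hv⟩
      · -- one of the two components is zero
        by_cases hak : a = k
        · have hb : b ≠ k := fun h => hab (hak.trans h.symm)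
          have e : act (fun i => gal L (E i)) τ (h j) b = 0 := by
            rw [act_apply, hk b hb, map_zero]
          rw [e, orth_iff (clN_aff hW) hab]
          intro x
          rw [map_zero]
        · have e : act (fun i => gal L (E i)) τ (h j) a = 0 := by
            rw [act_apply, hk a hak, map_zero]
          rw [e, orth_iff (clN_aff hW) hab]
          intro x
          rw [map_zero, AddMonoidHom.zero_apply]
      · exact clN_orth_satur hW hab (fun a ha => ha) (fun b hb => hb)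
          (gal_mem_HE (hv a) τ) (gal_mem_HE (hv b) τ)
    · rw [Fintype.card_fin] at hJ
      obtain ⟨γ, hγ⟩ := h3 J hJ τ
      exact ⟨γ, fun j hj => funext fun i => hγ j hj i⟩

end Pool.Agent.ZCQL
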