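import Pool.Agent.ZCQL.Base
import Pool.Agent.ZCQL.Rat2

/-!
# Galois-invariant zero-cycles on products of elliptic curves, third version
-/

set_option autoImplicit false

noncomputable section

namespace Pool.Agent.ZCQL

open WeierstrassCurve Pool.Agent.ZC Pool.Agent.ZCQ Pool.Agent.ZCQK
open scoped Classical

private theorem full_bot {W : WeierstrassCurve ℚ}
    {G : AddSubgroup (W⁄(AlgebraicClosure ℚ)).toAffine.Point} (hf : Full W G)
    (L : IntermediateField ℚ (AlgebraicClosure ℚ)) (hL : L = ⊥ ∨ QF L) :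
    ∀ x ∈ L, ∀ y ∈ L, ∀ h : (W⁄(AlgebraicClosure ℚ)).toAffine.Nonsingular x y,
      Affine.Point.some x y h ∈ G := by
  intro x hx y hy h
  rcases hL with rfl | hL
  · obtain ⟨K, hK⟩ := QF_infinite.nonempty
    exact hf K hK x (bot_le (a := K) hx) y (bot_le (a := K) hy) h
  · exact hf L hL x hx y hy h

private theorem mem0 (M : MemK) (h : M = m0) : M.W = ⟨0, -10660, 0, 28138500, 0⟩ ∧
    (∀ L : IntermediateField ℚ (AlgebraicClosure ℚ), (L = ⊥ ∨ QF L) →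
      Module.finrank ℤ (M.W⁄L).toAffine.Point = 4) ∧
    ∀ L : IntermediateField ℚ (AlgebraicClosure ℚ), Module.finrank ℤ (M.W⁄L).toAffine.Point = 4 →
      ∀ P : ((M.W⁄L)⁄(AlgebraicClosure ℚ)).toAffine.Point,
        (∀ σ : AlgebraicClosure ℚ ≃ₐ[L] AlgebraicClosure ℚ, galL (M.W⁄L) σ P = P) →
        P ∈ HE ((M.W⁄L)⁄(AlgebraicClosure ℚ)) (8 / 13) := by
  subst h
  have f0 : Full m0.W (sq m0.W m0.P) := by
    rintro K ⟨p, s, hp, hmod, hs, rfl⟩ x hx y hy h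
    obtain ⟨m, hm, h0⟩ := e0_mul_mem
    exact mem_sq_of_up hm h0 (e0_up hp hmod hs hx hy h)
  exact ⟨e0_cc, fun L hL => finrank_eq m0.dat.ind (full_bot f0 L hL), fun L hL =>
    fixed_mem (inHE_of_finrank (show (4 : ℕ) ≠ 0 by norm_num) m0.dat hL)⟩

private theorem mem1 (M : MemK) (h : M = m1) : M.W = ⟨0, 1430, 0, -5272800, 0⟩ ∧
    (∀ L : IntermediateField ℚ (AlgebraicClosure ℚ), (L = ⊥ ∨ QF L) →
      Module.finrank ℤ (M.W⁄L).toAffine.Point = 3) ∧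
    ∀ L : IntermediateField ℚ (AlgebraicClosure ℚ), Module.finrank ℤ (M.W⁄L).toAffine.Point = 3 →
      ∀ P : ((M.W⁄L)⁄(AlgebraicClosure ℚ)).toAffine.Point,
        (∀ σ : AlgebraicClosure ℚ ≃ₐ[L] AlgebraicClosure ℚ, galL (M.W⁄L) σ P = P) →
        P ∈ HE ((M.W⁄L)⁄(AlgebraicClosure ℚ)) (8 / 13) := by
  subst h
  have f1 : Full m1.W (sq m1.W m1.P) := by
    rintro K ⟨p, s, hp, hmod, hs, rfl⟩ x hx y hy h
    obtain ⟨m, hm, h0⟩ := e1_mul_mem
    exact mem_sq_of_up hm h0 (e1_up hp hmod hs hx hy h)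
  exact ⟨e1_cc, fun L hL => finrank_eq m1.dat.ind (full_bot f1 L hL), fun L hL =>
    fixed_mem (inHE_of_finrank (show (3 : ℕ) ≠ 0 by norm_num) m1.dat hL)⟩

theorem main_aux3 :
    (∀ (L : IntermediateField ℚ (AlgebraicClosure ℚ)) (N : ℕ) (A : Fin N → WeierstrassCurve L)
      (z : Z0N fun i => (A i)⁄(AlgebraicClosure ℚ)), (∀ i, (A i).IsElliptic) →
      (∀ σ : AlgebraicClosure ℚ ≃ₐ[L] AlgebraicClosure ℚ,
        z.mapDomain (fun p i => galL (A i) σ (p i)) = z) →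
      z.sum (fun _ n => n) = 0 → (∀ i, z.sum (fun p n => n • p i) = 0) →
      (FormCond A z ∨ SumCond A z) →
      ∃ M : ℕ, 0 < M ∧ M • z ∈ RatEqN fun i => (A i)⁄(AlgebraicClosure ℚ)) ∧
    (∀ (E : WeierstrassCurve (AlgebraicClosure ℚ)) (P : E.toAffine.Point), E.IsElliptic →
      ∃ v, P ∈ HE E v) ∧
    ∃ E : ℕ → WeierstrassCurve ℚ, (∀ n, (E n).IsElliptic) ∧
      (∀ n n', (E n).c₄ ^ 3 / (E n).Δ = (E n').c₄ ^ 3 / (E n').Δ → n = n') ∧
      (∀ n, n ≠ 1 → ∃ P : Fin 4 → ((E n)⁄(AlgebraicClosure ℚ)).toAffine.Point,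
        LinearIndependent ℤ P ∧ ∀ i, (∀ σ : AlgebraicClosure ℚ ≃ₐ[ℚ] AlgebraicClosure ℚ,
          Affine.Point.map (W' := (E n).toAffine) σ.toAlgHom (P i) = P i) ∧
          P i ∈ HE ((E n)⁄(AlgebraicClosure ℚ)) (8 / 13)) ∧
      E 0 = ⟨0, -10660, 0, 28138500, 0⟩ ∧ E 1 = ⟨0, 1430, 0, -5272800, 0⟩ ∧
      (∀ n, n < 2 → ∀ L : IntermediateField ℚ (AlgebraicClosure ℚ),
        Module.finrank ℤ ((E n)⁄L).toAffine.Point = 4 - n →
        ∀ P : (((E n)⁄L)⁄(AlgebraicClosure ℚ)).toAffine.Point,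
          (∀ σ : AlgebraicClosure ℚ ≃ₐ[L] AlgebraicClosure ℚ, galL ((E n)⁄L) σ P = P) →
          P ∈ HE (((E n)⁄L)⁄(AlgebraicClosure ℚ)) (8 / 13)) ∧
      (∀ n, n < 2 → ∀ L : IntermediateField ℚ (AlgebraicClosure ℚ), (L = ⊥ ∨ QF L) →
        Module.finrank ℤ ((E n)⁄L).toAffine.Point = 4 - n) ∧
      {L : IntermediateField ℚ (AlgebraicClosure ℚ) | QF L}.Infinite ∧
      ∀ L : IntermediateField ℚ (AlgebraicClosure ℚ), QF L → Module.finrank ℚ L = 2 := by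
  refine ⟨?_, fun E P hE => exists_HE E P, ?_⟩
  · intro L N A z hE hz hd hs h
    rcases h with h | h
    · exact critL A hE z hz hd hs h
    · exact critL3 A hE z hz hd hs h
  · obtain ⟨f, hj, hr, hf0, hf1⟩ := exists_seqK
    obtain ⟨a0, a1, a2⟩ := mem0 (f 0) hf0
    obtain ⟨b0, b1, b2⟩ := mem1 (f 1) hf1
    refine ⟨fun n => (f n).W, fun n => (f n).dat.ell, hj, fun n hn => ?_, a0, b0, ?_, ?_,
      QF_infinite, fun K hK => hK.finrank⟩
    · refine ⟨fun i => up (f n).W ((f n).P (Fin.castLE (hr n hn) i)), ?_, fun i => ⟨?_, ?_⟩⟩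
      · exact linInd_up ((f n).dat.ind.comp _ (Fin.castLE_injective _))
      · exact fun σ => fixed_up _ _ σ
      · exact sq_le_HE (f n).dat (le_satur _ (AddSubgroup.subset_closure ⟨_, rfl⟩))
    · intro n hn
      have h : n = 0 ∨ n = 1 := by omega
      rcases h with rfl | rfl
      · exact a2
      · exact b2
    · intro n hn
      have h : n = 0 ∨ n = 1 := by omega
      rcases h with rfl | rfl
      · exact a1
      · exact b1

end Pool.Agent.ZCQL
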