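import Pool.Agent.ZCQL.Avg2

/-!
# A criterion by invariant forms
-/

set_option autoImplicit false

noncomputable section

namespace Pool.Agent.ZCQL

open Function
open scoped Classical

/-- A torsion-free abelian group has enough homomorphisms to `ℚ`. -/
theorem exists_hom_rat {A : Type} [AddCommGroup A]
    (hA : ∀ (n : ℕ) (a : A), 0 < n → n • a = 0 → a = 0) {a : A} (ha : a ≠ 0) :
    ∃ l : A →+ ℚ, l a ≠ 0 := by
  have hB : Module.Baer ℤ ℚ := Module.Baer.of_divisible ℚ
  have hf : Function.Injective (zmultiplesHom A a) := by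
    rw [injective_iff_map_eq_zero]
    intro n hn
    rw [zmultiplesHom_apply] at hn
    by_contra hne
    apply ha
    apply hA n.natAbs a (Int.natAbs_pos.2 hne)
    rcases Int.natAbs_eq n with h | h
    · rw [h, natCast_zsmul] at hn
      exact hn
    · rw [h, neg_smul, natCast_zsmul, neg_eq_zero] at hn
      exact hn
  obtain ⟨l, hl⟩ := hB.extension_property_addMonoidHom (zmultiplesHom A a) hf (Int.castAddHom ℚ)
  refine ⟨l, ?_⟩
  have h1 := DFunLike.congr_fun hl 1
  have h2 : l a = 1 := by
    simpa using h1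
  rw [h2]
  exact one_ne_zero

section

variable {I : Type} [Fintype I] {G : I → Type} [∀ i, AddCommGroup (G i)]
  {F : ((i : I) → G i) → ℚ}

/-- The part of `F` of multidegree `J`. -/
def pol (F : ((i : I) → G i) → ℚ) (J : Finset I) (x : (i : I) → G i) : ℚ :=
  ∑ T ∈ J.powerset, (-1 : ℚ) ^ (J.card + T.card) * F (T.piecewise x 0)

omit [Fintype I] in
theorem piecewise_update_notMem {T : Finset I} {j : I} (hj : j ∉ T) (x : (i : I) → G i)
    (a : G j) : T.piecewise (update x j a) 0 = T.piecewise x 0 := by
  ext k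
  by_cases hk : k ∈ T
  · have : k ≠ j := fun h => hj (h ▸ hk)
    simp [Finset.piecewise, hk, this]
  · simp [Finset.piecewise, hk]

omit [Fintype I] in
theorem piecewise_insert_update {T : Finset I} {j : I} (hj : j ∉ T) (x : (i : I) → G i)
    (a : G j) : (insert j T).piecewise (update x j a) 0 = update (T.piecewise x 0) j a := by
  ext k
  rcases eq_or_ne k j with rfl | hk
  · simp [Finset.piecewise]
  · by_cases hk' : k ∈ T
    · simp [Finset.piecewise, hk, hk']
    · simp [Finset.piecewise, hk, hk']

omit [Fintype I] in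
theorem piecewise_eq_update {T : Finset I} {j : I} (hj : j ∉ T) (x : (i : I) → G i) :
    T.piecewise x 0 = update (T.piecewise x 0) j 0 := by
  ext k
  rcases eq_or_ne k j with rfl | hk
  · simp [Finset.piecewise, hj]
  · simp [hk]

omit [Fintype I] in
theorem pol_insert {j : I} {J : Finset I} (hj : j ∉ J) (x : (i : I) → G i) (a : G j) :
    pol F (insert j J) (update x j a) = ∑ T ∈ J.powerset, (-1 : ℚ) ^ (J.card + T.card) *
      (F (update (T.piecewise x 0) j a) - F (update (T.piecewise x 0) j 0)) := by
  rw [pol, Finset.sum_powerset_insert hj, ← Finset.sum_add_distrib]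
  refine Finset.sum_congr rfl fun T hT => ?_
  have hjT : j ∉ T := fun h => hj (Finset.mem_powerset.1 hT h)
  rw [Finset.card_insert_of_notMem hj, Finset.card_insert_of_notMem hjT,
    piecewise_update_notMem hjT, piecewise_insert_update hjT]
  nth_rewrite 1 [piecewise_eq_update hjT]
  ring

omit [Fintype I] in
theorem pol_add (hF : Aff F) {j : I} {J : Finset I} (hj : j ∈ J) (x : (i : I) → G i)
    (a b : G j) :
    pol F J (update x j (a + b)) = pol F J (update x j a) + pol F J (update x j b) := by
  rw [← Finset.insert_erase hj]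
  have hj' : j ∉ J.erase j := Finset.notMem_erase j J
  rw [pol_insert hj', pol_insert hj', pol_insert hj', ← Finset.sum_add_distrib]
  refine Finset.sum_congr rfl fun T _ => ?_
  rw [hF (T.piecewise x 0) j a b]
  ring

omit [Fintype I] in
theorem pol_zero {i j : I} (hij : i ≠ j) {J : Finset I} (hi : i ∈ J) (hj : j ∈ J)
    (x : (i : I) → G i) (h : Orth F i j (x i) (x j)) : pol F J x = 0 := by
  have hj' : j ∉ J.erase j := Finset.notMem_erase j J
  have h1 : pol F J x = pol F (insert j (J.erase j)) (update x j (x j)) := by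
    rw [Finset.insert_erase hj, update_eq_self]
  have hi' : i ∈ J.erase j := Finset.mem_erase.2 ⟨hij, hi⟩
  rw [h1, pol_insert hj']
  have hi2 : i ∉ (J.erase j).erase i := Finset.notMem_erase _ _
  rw [← Finset.insert_erase hi', Finset.sum_powerset_insert hi2, ← Finset.sum_add_distrib]
  refine Finset.sum_eq_zero fun T hT => ?_
  have hiT : i ∉ T := fun h => hi2 (Finset.mem_powerset.1 hT h)
  have e1 : (insert i T).piecewise x 0 = update (T.piecewise x 0) i (x i) := by
    have := piecewise_insert_update hiT x (x i)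
    rwa [update_eq_self] at this
  have h2 := h (T.piecewise x 0)
  rw [Finset.card_insert_of_notMem hiT, e1]
  rw [piecewise_eq_update hiT x]
  have e2 : update (update (T.piecewise x 0) i 0) i (x i) = update (T.piecewise x 0) i (x i) :=
    update_idem _ _ _
  rw [e2]
  have h3 : F (update (update (T.piecewise x 0) i (x i)) j (x j)) =
      F (update (update (T.piecewise x 0) i (x i)) j 0) +
      F (update (update (T.piecewise x 0) i 0) j (x j)) -
      F (update (update (T.piecewise x 0) i 0) j 0) := by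
    linarith
  rw [h3]
  ring

theorem sum_pol (x : (i : I) → G i) : ∑ J : Finset I, pol F J x = F x := by
  unfold pol
  have h1 : ∑ J : Finset I, ∑ T ∈ J.powerset, (-1 : ℚ) ^ (J.card + T.card) *
      F (T.piecewise x 0) = ∑ T : Finset I, ∑ J ∈ Finset.univ.filter (fun J => T ⊆ J),
        (-1 : ℚ) ^ (J.card + T.card) * F (T.piecewise x 0) := by
    refine Finset.sum_comm' fun J T => ?_
    simp [Finset.mem_powerset]
  rw [h1]
  have h2 : ∀ T : Finset I, T ≠ Finset.univ → ∑ J ∈ Finset.univ.filter (fun J => T ⊆ J),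
      (-1 : ℚ) ^ (J.card + T.card) * F (T.piecewise x 0) = 0 := by
    intro T hT
    obtain ⟨i, hi⟩ : ∃ i, i ∉ T := by
      by_contra h
      push Not at h
      exact hT (Finset.eq_univ_iff_forall.2 h)
    refine Finset.sum_involution (fun J _ => if i ∈ J then J.erase i else insert i J)
      ?_ ?_ ?_ ?_
    · intro J hJ
      split_ifs with h
      · have h3 : J.card = (J.erase i).card + 1 := (Finset.card_erase_add_one h).symm
        rw [h3]
        ring
      · rw [Finset.card_insert_of_notMem h]
        ring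
    · intro J hJ _
      split_ifs with h
      · intro h3
        have := Finset.notMem_erase i J
        rw [h3] at this
        exact this h
      · intro h3
        apply h
        rw [← h3]
        exact Finset.mem_insert_self i J
    · intro J hJ
      rw [Finset.mem_filter] at hJ ⊢
      refine ⟨Finset.mem_univ _, ?_⟩
      split_ifs with h
      · intro k hk
        exact Finset.mem_erase.2 ⟨fun h3 => hi (h3 ▸ hk), hJ.2 hk⟩
      · exact hJ.2.trans (Finset.subset_insert i J)
    · intro J hJ
      by_cases h : i ∈ J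
      · simp [h, Finset.insert_erase h]
      · simp [h, Finset.erase_insert h]
  rw [Finset.sum_eq_single Finset.univ (fun T _ hT => h2 T hT)
    (fun h => absurd (Finset.mem_univ _) h)]
  have h3 : (Finset.univ : Finset (Finset I)).filter (fun J => Finset.univ ⊆ J) =
      {Finset.univ} := by
    ext J
    rw [Finset.mem_filter, Finset.mem_singleton]
    exact ⟨fun h => Finset.univ_subset_iff.1 h.2, fun h => ⟨Finset.mem_univ _, h ▸ subset_rfl⟩⟩
  rw [h3, Finset.sum_singleton]
  have h4 : (-1 : ℚ) ^ ((Finset.univ : Finset I).card + (Finset.univ : Finset I).card) = 1 := by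
    rw [← two_mul, pow_mul]
    norm_num
  rw [h4, one_mul, Finset.piecewise_univ]

/-- Extension by zero. -/
def ext0 (J : Finset I) (y : (j : J) → G j) : (i : I) → G i :=
  fun i => if h : i ∈ J then y ⟨i, h⟩ else 0

omit [Fintype I] in
theorem ext0_update (J : Finset I) [DecidableEq J] (y : (j : J) → G j) (j : J) (a : G j) :
    ext0 J (update y j a) = update (ext0 J y) (j : I) a := by
  ext k
  by_cases hk : k ∈ J
  · rcases eq_or_ne k j with rfl | hkj
    · simp [ext0]
    · have h1 : (⟨k, hk⟩ : J) ≠ j := fun h => hkj (by rw [← h])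
      simp [ext0, hk, hkj, h1]
  · have h1 : k ≠ j := fun h => hk (h ▸ j.2)
    simp [ext0, hk, h1]

omit [Fintype I] in
theorem pol_ext0 (J : Finset I) (x : (i : I) → G i) :
    pol F J (ext0 J fun j : J => x j) = pol F J x := by
  unfold pol
  refine Finset.sum_congr rfl fun T hT => ?_
  congr 2
  ext k
  by_cases hk : k ∈ T
  · have hkJ : k ∈ J := Finset.mem_powerset.1 hT hk
    simp [Finset.piecewise, hk, ext0, hkJ]
  · simp [Finset.piecewise, hk]

/-- The part of multidegree `J` as a multilinear map. -/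
def polM (hF : Aff F) (J : Finset I) : MultilinearMap ℤ (fun j : J => G j) ℚ where
  toFun y := pol F J (ext0 J y)
  map_update_add' := by
    intro inst m j x y
    rw [ext0_update, ext0_update, ext0_update]
    exact pol_add hF j.2 _ _ _
  map_update_smul' := by
    intro inst m j c x
    rw [ext0_update, ext0_update]
    exact map_zsmul (AddMonoidHom.mk' (fun a : G j => pol F J (update (ext0 J m) (j : I) a))
      fun a b => pol_add hF j.2 _ _ _) c x

omit [Fintype I] in
theorem polM_apply (hF : Aff F) (J : Finset I) (x : (i : I) → G i) :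
    polM hF J (fun j : J => x j) = pol F J x := pol_ext0 J x

end

section

variable {Γ : Type} [Group Γ]

/-- The mean value on an orbit. -/
def mean {M : Type} [AddCommGroup M] (ρ : Γ →* AddMonoid.End M)
    (hfin : ∀ x, (Set.range fun γ => ρ γ x).Finite) (F : M → ℚ) (x : M) : ℚ :=
  (∑ y ∈ (hfin x).toFinset, F y) / (hfin x).toFinset.card

theorem mean_eq {M : Type} [AddCommGroup M] (ρ : Γ →* AddMonoid.End M)
    (hfin : ∀ x, (Set.range fun γ => ρ γ x).Finite) (F : M → ℚ) {x : M} {ι : Type} [Fintype ι]
    [Nonempty ι] (γ : ι → Γ)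
    (hπ : ∀ σ : Γ, ∃ π : ι ≃ ι, ∀ f, ρ σ (ρ (γ f) x) = ρ (γ (π f)) x) :
    mean ρ hfin F x = (∑ f, F (ρ (γ f) x)) / (Fintype.card ι : ℚ) := by
  obtain ⟨k, hk⟩ := equid ρ (hfin x) γ hπ
  have h1 := hk ℚ F
  have h2 := hk ℚ fun _ => 1
  simp only [Finset.sum_const, Finset.card_univ, nsmul_eq_mul, mul_one] at h1 h2
  have h3 : (Fintype.card ι : ℚ) ≠ 0 := by
    exact_mod_cast Fintype.card_ne_zero
  have hk0 : (k : ℚ) ≠ 0 := by
    intro h
    rw [h, zero_mul] at h2
    exact h3 h2
  rw [mean, h1, h2, mul_div_mul_left _ _ hk0]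

theorem mean_smul {M : Type} [AddCommGroup M] (ρ : Γ →* AddMonoid.End M)
    (hfin : ∀ x, (Set.range fun γ => ρ γ x).Finite) (F : M → ℚ) (σ : Γ) (x : M) :
    mean ρ hfin F (ρ σ x) = mean ρ hfin F x := by
  have h1 : (hfin (ρ σ x)).toFinset = (hfin x).toFinset := by
    ext y
    rw [Set.Finite.mem_toFinset, Set.Finite.mem_toFinset]
    have hcomp : ∀ (α β : Γ) (x : M), ρ α (ρ β x) = ρ (α * β) x := by
      intro α β x
      rw [map_mul]
      rfl
    constructor
    · rintro ⟨δ, rfl⟩
      exact ⟨δ * σ, (hcomp δ σ x).symm⟩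
    · rintro ⟨δ, rfl⟩
      refine ⟨δ * σ⁻¹, ?_⟩
      change ρ (δ * σ⁻¹) (ρ σ x) = ρ δ x
      rw [hcomp, inv_mul_cancel_right]
  rw [mean, mean, h1]

variable {I : Type} [Fintype I] {G : I → Type} [∀ i, AddCommGroup (G i)]

omit [Fintype I] in
theorem act_update (ρ : (i : I) → Γ →* AddMonoid.End (G i)) (γ : Γ) (x : (i : I) → G i) (i : I)
    (a : G i) : act ρ γ (update x i a) = update (act ρ γ x) i (ρ i γ a) := by
  ext k
  rcases eq_or_ne k i with rfl | hk
  · simp [act_apply]
  · simp [act_apply, hk]

theorem exists_avg4 (ρ : (i : I) → Γ →* AddMonoid.End (G i))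
    (hact : ∀ x, (Set.range fun γ => act ρ γ x).Finite) (a b c d : (i : I) → G i) :
    ∃ (ι : Type) (_ : Fintype ι) (_ : Nonempty ι) (γ : ι → Γ), ∀ t ∈ ({a, b, c, d} :
      Finset ((i : I) → G i)), ∀ F : ((i : I) → G i) → ℚ,
        mean (act ρ) hact F t = (∑ f, F (act ρ (γ f) t)) / (Fintype.card ι : ℚ) := by
  obtain ⟨ι, h1, h2, γ, h3⟩ := exists_avg (act ρ) {a, b, c, d} fun x _ => hact x
  refine ⟨ι, h1, h2, γ, fun t ht F => mean_eq (act ρ) hact F γ fun σ => ?_⟩
  obtain ⟨π, h4⟩ := h3 σ
  exact ⟨π, fun f => h4 f t ht⟩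

theorem Aff.mean {F : ((i : I) → G i) → ℚ} (hF : Aff F) (ρ : (i : I) → Γ →* AddMonoid.End (G i))
    (hact : ∀ x, (Set.range fun γ => act ρ γ x).Finite) : Aff (mean (act ρ) hact F) := by
  intro x i a b
  obtain ⟨ι, h1, h2, γ, h3⟩ := exists_avg4 ρ hact (update x i (a + b)) (update x i a)
    (update x i b) (update x i 0)
  rw [h3 _ (by simp) F, h3 (update x i a) (by simp) F, h3 (update x i b) (by simp) F,
    h3 (update x i 0) (by simp) F, ← add_div, ← sub_div]
  congr 1
  rw [← Finset.sum_add_distrib, ← Finset.sum_sub_distrib]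
  refine Finset.sum_congr rfl fun f _ => ?_
  rw [act_update, act_update, act_update, act_update, map_add, map_zero]
  exact hF _ _ _ _

theorem Orth.mean {F : ((i : I) → G i) → ℚ} (ρ : (i : I) → Γ →* AddMonoid.End (G i))
    (hact : ∀ x, (Set.range fun γ => act ρ γ x).Finite) {i j : I} {a : G i} {b : G j}
    (h : ∀ γ, Orth F i j (ρ i γ a) (ρ j γ b)) : Orth (mean (act ρ) hact F) i j a b := by
  intro x
  obtain ⟨ι, h1, h2, γ, h3⟩ := exists_avg4 ρ hact (update (update x i a) j b)
    (update (update x i a) j 0) (update (update x i 0) j b) (update (update x i 0) j 0)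
  rw [h3 _ (by simp) F, h3 (update (update x i a) j 0) (by simp) F,
    h3 (update (update x i 0) j b) (by simp) F, h3 (update (update x i 0) j 0) (by simp) F,
    ← sub_div, ← sub_div, ← add_div]
  rw [← Finset.sum_sub_distrib, ← Finset.sum_sub_distrib, ← Finset.sum_add_distrib]
  rw [Finset.sum_eq_zero, zero_div]
  intro f _
  simp only [act_update, map_zero]
  exact h (γ f) _

omit [Fintype I] in
theorem sum_mean {F : ((i : I) → G i) → ℚ} (ρ : (i : I) → Γ →* AddMonoid.End (G i))
    (hact : ∀ x, (Set.range fun γ => act ρ γ x).Finite) (z : ((i : I) → G i) →₀ ℤ)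
    (hz : ∀ γ, z.mapDomain (act ρ γ) = z) :
    z.sum (fun p n => n • mean (act ρ) hact F p) = z.sum (fun p n => n • F p) := by
  obtain ⟨ι, h1, h2, γ, h3⟩ := exists_avg (act ρ) z.support fun x _ => hact x
  have h4 : ∀ p ∈ z.support, mean (act ρ) hact F p =
      (∑ f, F (act ρ (γ f) p)) / (Fintype.card ι : ℚ) := by
    intro p hp
    refine mean_eq (act ρ) hact F γ fun σ => ?_
    obtain ⟨π, h4⟩ := h3 σ
    exact ⟨π, fun f => h4 f p hp⟩
  have hinv : ∀ f, z.sum (fun p n => n • F (act ρ (γ f) p)) = z.sum (fun p n => n • F p) := by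
    intro f
    conv_rhs => rw [← hz (γ f)]
    rw [Finsupp.sum_mapDomain_index (h := fun p n => n • F p) (fun _ => zero_smul _ _)
      (fun _ _ _ => add_smul _ _ _)]
  have h5 : (Fintype.card ι : ℚ) ≠ 0 := by
    exact_mod_cast Fintype.card_ne_zero
  have h6 : z.sum (fun p n => n • mean (act ρ) hact F p) =
      (∑ f : ι, z.sum (fun p n => n • F (act ρ (γ f) p))) / (Fintype.card ι : ℚ) := by
    unfold Finsupp.sum
    rw [Finset.sum_comm, Finset.sum_div]
    refine Finset.sum_congr rfl fun p hp => ?_
    beta_reduce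
    rw [h4 p hp, ← Finset.smul_sum]
    simp only [zsmul_eq_mul]
    rw [mul_div_assoc]
  rw [h6, Finset.sum_congr rfl fun f _ => hinv f, Finset.sum_const, Finset.card_univ,
    nsmul_eq_mul, mul_div_cancel_left₀ _ h5]

/-- The criterion. -/
theorem crit {A : Type} [AddCommGroup A] {c : ((i : I) → G i) → A} (hc : Aff c)
    (hA : ∀ (n : ℕ) (a : A), 0 < n → n • a = 0 → a = 0)
    (ρ : (i : I) → Γ →* AddMonoid.End (G i))
    (hfin : ∀ i (x : G i), (Set.range fun γ => ρ i γ x).Finite)
    (R : (i j : I) → G i → G j → Prop)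
    (hR : ∀ i j, i ≠ j → ∀ a b, R i j a b → Orth c i j a b)
    (hRγ : ∀ i j a b (γ : Γ), R i j a b → R i j (ρ i γ a) (ρ j γ b))
    (z : ((i : I) → G i) →₀ ℤ) (hz : ∀ γ, z.mapDomain (act ρ γ) = z)
    (hd : z.sum (fun _ n => n) = 0) (hs : ∀ i, z.sum (fun p n => n • p i) = 0)
    (H : ∀ (J : Finset I) (f : MultilinearMap ℤ (fun j : J => G j) ℚ), 2 ≤ J.card →
      (∀ (γ : Γ) (p : (j : J) → G j), f (fun j => ρ j γ (p j)) = f p) →
      (∀ (i j : J) (p : (j : J) → G j), i ≠ j → R i j (p i) (p j) → f p = 0) →
      z.sum (fun p n => n • f fun j => p j) = 0) :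
    z.sum (fun p n => n • c p) = 0 := by
  by_contra hne
  obtain ⟨l, hl⟩ := exists_hom_rat hA hne
  have hact : ∀ x : (i : I) → G i, (Set.range fun γ => act ρ γ x).Finite := by
    intro x
    refine (Set.Finite.pi' (t := fun i : I => Set.range fun γ => ρ i γ (x i))
      fun i => hfin i (x i)).subset ?_
    rintro _ ⟨γ, rfl⟩ i
    exact ⟨γ, rfl⟩
  set F : ((i : I) → G i) → ℚ := fun x => l (c x) with hF
  have hF1 : Aff F := by
    intro x i a b
    rw [hF]
    beta_reduce
    rw [hc x i a b, map_sub, map_add]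
  have hF2 : ∀ i j, i ≠ j → ∀ a b, R i j a b → Orth F i j a b := by
    intro i j hij a b hab x
    have h1 := congrArg l (hR i j hij a b hab x)
    rw [map_add, map_sub, map_sub, map_zero] at h1
    exact h1
  set F' := mean (act ρ) hact F with hF'
  have hF'1 : Aff F' := hF1.mean ρ hact
  have hF'2 : ∀ i j, i ≠ j → ∀ a b, R i j a b → Orth F' i j a b := fun i j hij a b hab =>
    Orth.mean ρ hact fun γ => hF2 i j hij _ _ (hRγ i j a b γ hab)
  have hF'3 : ∀ γ x, F' (act ρ γ x) = F' x := fun γ x => mean_smul (act ρ) hact F γ x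
  apply hl
  have h1 : l (z.sum fun p n => n • c p) = z.sum fun p n => n • F p := by
    unfold Finsupp.sum
    rw [map_sum]
    refine Finset.sum_congr rfl fun p _ => ?_
    rw [map_zsmul]
  rw [h1, ← sum_mean ρ hact z hz, ← hF']
  have h2 : z.sum (fun p n => n • F' p) = ∑ J : Finset I, z.sum (fun p n => n • pol F' J p) := by
    unfold Finsupp.sum
    rw [Finset.sum_comm]
    refine Finset.sum_congr rfl fun p _ => ?_
    rw [← Finset.smul_sum, sum_pol]
  rw [h2]
  refine Finset.sum_eq_zero fun J _ => ?_
  by_cases hJ : 2 ≤ J.card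
  · have h3 := H J (polM hF'1 J) hJ (fun γ p => ?_) (fun i j p hij hR => ?_)
    · simp only [polM_apply] at h3
      exact h3
    · have h4 : ∀ q : (j : J) → G j, polM hF'1 J q = pol F' J (ext0 J q) := fun _ => rfl
      rw [h4, h4]
      unfold pol
      refine Finset.sum_congr rfl fun T _ => ?_
      congr 1
      have h5 : T.piecewise (ext0 J fun j : J => ρ j γ (p j)) 0 =
          act ρ γ (T.piecewise (ext0 J p) 0) := by
        ext k
        by_cases hk : k ∈ T
        · by_cases hkJ : k ∈ J
          · simp [Finset.piecewise, hk, ext0, hkJ, act_apply]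
          · simp [Finset.piecewise, hk, ext0, hkJ, act_apply]
        · simp [Finset.piecewise, hk, act_apply]
      rw [h5, hF'3]
    · have h4 : polM hF'1 J p = pol F' J (ext0 J p) := rfl
      rw [h4]
      have hij' : (i : I) ≠ j := fun h => hij (Subtype.ext h)
      refine pol_zero hij' i.2 j.2 _ (hF'2 _ _ hij' _ _ ?_)
      have e1 : ext0 J p i = p i := by simp [ext0]
      have e2 : ext0 J p j = p j := by simp [ext0]
      rw [e1, e2]
      exact hR
  · have h3 : J.card = 0 ∨ J.card = 1 := by omega
    rcases h3 with h3 | h3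
    · rw [Finset.card_eq_zero] at h3
      subst h3
      have h4 : ∀ p, pol F' ∅ p = F' 0 := by
        intro p
        simp [pol]
      simp only [h4]
      have h5 : z.sum (fun (_ : (i : I) → G i) n => n • F' 0) =
          (z.sum fun _ n => n) • F' 0 := by
        unfold Finsupp.sum
        rw [Finset.sum_smul]
      rw [h5, hd, zero_smul]
    · obtain ⟨i, rfl⟩ := Finset.card_eq_one.1 h3
      have h4 : ∀ p, pol F' {i} p = dif hF'1 0 i (p i) := by
        intro p
        have h5 := pol_insert (F := F') (Finset.notMem_empty i) p (p i)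
        rw [update_eq_self, LawfulSingleton.insert_empty_eq] at h5
        rw [h5, dif_apply]
        simp only [Finset.powerset_empty, Finset.sum_singleton, Finset.card_empty,
          pow_zero, one_mul, Finset.piecewise_empty, zero_add]
        have e1 : update (0 : (i : I) → G i) i (p i) = Pi.single i (p i) := rfl
        have e2 : update (0 : (i : I) → G i) i 0 = 0 := by
          have := update_eq_self i (0 : (i : I) → G i)
          exact this
        rw [e1, e2]
      simp only [h4]
      have h5 : z.sum (fun p n => n • dif hF'1 0 i (p i)) =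
          dif hF'1 0 i (z.sum fun p n => n • p i) := by
        unfold Finsupp.sum
        rw [map_sum]
        refine Finset.sum_congr rfl fun p _ => ?_
        rw [map_zsmul]
      rw [h5, hs i, map_zero]

end

end Pool.Agent.ZCQL
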