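import Pool.Agent.ZCQL.Form

/-!
# Sums of independent families
-/

set_option autoImplicit false

noncomputable section

namespace Pool.Agent.ZCQL

open Function
open scoped Classical

variable {Γ : Type} [Group Γ] {I : Type} [Fintype I] {G : I → Type} [∀ i, AddCommGroup (G i)]

omit [Fintype I] in
/-- A form vanishes on a family whose coordinates can be moved independently. -/
theorem indep_zero (ρ : (i : I) → Γ →* AddMonoid.End (G i))
    (hact : ∀ x, (Set.range fun γ => act ρ γ x).Finite)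
    (R : (i j : I) → G i → G j → Prop) (S : (i : I) → AddSubgroup (G i))
    (hS : ∀ i j, i ≠ j → ∀ a ∈ S i, ∀ b ∈ S j, R i j a b)
    (J : Finset I) (f : MultilinearMap ℤ (fun j : J => G j) ℚ) (hJ : 2 ≤ J.card)
    (hR : ∀ (i j : J) (p : (j : J) → G j), i ≠ j → R i j (p i) (p j) → f p = 0)
    (y : (j : J) → G j)
    (hyS : ∀ j : J, ∀ x ∈ AddSubgroup.closure (Set.range fun γ => ρ j γ (y j)),
      (∀ γ, ρ j γ x = x) → x ∈ S j)
    (hy : ∀ τ : J → Γ, f (fun j => ρ j (τ j) (y j)) = f y) : f y = 0 := by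
  obtain ⟨ι, hι, hne, γ, hπ⟩ := exists_avg (act ρ) {ext0 J y} fun x _ => hact x
  have hπ' : ∀ σ : Γ, ∃ π : ι ≃ ι, ∀ t, ∀ j : J, ρ j σ (ρ j (γ t) (y j)) = ρ j (γ (π t)) (y j) := by
    intro σ
    obtain ⟨π, h⟩ := hπ σ
    refine ⟨π, fun t j => ?_⟩
    have h1 := congrFun (h t _ (Finset.mem_singleton_self _)) (j : I)
    have e : ext0 J y j = y j := by simp [ext0]
    simp only [act_apply, e] at h1
    exact h1
  have h1 : f (fun j => ∑ t, ρ j (γ t) (y j)) = ∑ τ : J → ι, f y := by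
    rw [f.map_sum]
    refine Finset.sum_congr rfl fun τ _ => ?_
    exact hy fun j => γ (τ j)
  have hfix : ∀ j : J, ∀ σ, ρ j σ (∑ t, ρ j (γ t) (y j)) = ∑ t, ρ j (γ t) (y j) := by
    intro j σ
    obtain ⟨π, h⟩ := hπ' σ
    rw [map_sum, Finset.sum_congr rfl fun t _ => h t j]
    exact Equiv.sum_comp π fun t => ρ j (γ t) (y j)
  have h2 : f (fun j => ∑ t, ρ j (γ t) (y j)) = 0 := by
    have h4 : 1 < (Finset.univ : Finset J).card := by
      rw [Finset.card_univ, Fintype.card_coe]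
      omega
    obtain ⟨a, -, b, -, hab⟩ := Finset.one_lt_card.1 h4
    have h5 : ∀ j : J, (∑ t, ρ j (γ t) (y j)) ∈ S j := fun j => hyS j _
      (AddSubgroup.sum_mem _ fun t _ => AddSubgroup.subset_closure ⟨γ t, rfl⟩) (hfix j)
    exact hR a b _ hab (hS _ _ (fun h => hab (Subtype.ext h)) _ (h5 a) _ (h5 b))
  rw [h2, Finset.sum_const, nsmul_eq_mul] at h1
  rcases mul_eq_zero.1 h1.symm with h3 | h3
  · have h4 : (Finset.univ : Finset (J → ι)).card = 0 := by exact_mod_cast h3
    rw [Finset.card_univ] at h4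
    exact absurd h4 Fintype.card_ne_zero
  · exact h3

/-- An invariant form vanishes on sums of related families, any `card I` of which are
independent. -/
theorem form_zero2 (ρ : (i : I) → Γ →* AddMonoid.End (G i))
    (hact : ∀ x, (Set.range fun γ => act ρ γ x).Finite)
    (R : (i j : I) → G i → G j → Prop) (S : (i : I) → AddSubgroup (G i))
    (hS : ∀ i j, i ≠ j → ∀ a ∈ S i, ∀ b ∈ S j, R i j a b)
    (J : Finset I) (f : MultilinearMap ℤ (fun j : J => G j) ℚ) (hJ : 2 ≤ J.card)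
    (hf : ∀ (γ : Γ) (p : (j : J) → G j), f (fun j => ρ j γ (p j)) = f p)
    (hR : ∀ (i j : J) (p : (j : J) → G j), i ≠ j → R i j (p i) (p j) → f p = 0)
    {m : ℕ} (h : Fin m → (i : I) → G i)
    (hhS : ∀ k i, ∀ x ∈ AddSubgroup.closure (Set.range fun γ => ρ i γ (h k i)),
      (∀ γ, ρ i γ x = x) → x ∈ S i)
    (h1 : ∀ k, (∃ i, ∀ j, j ≠ i → h k j = 0) ∨ ∀ i j, i ≠ j → R i j (h k i) (h k j))
    (h2 : ∀ K : Finset (Fin m), K.card ≤ Fintype.card I → ∀ τ : Fin m → Γ, ∃ γ, ∀ k ∈ K, ∀ i,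
      ρ i γ (h k i) = ρ i (τ k) (h k i)) :
    f (fun j : J => ∑ k, h k j) = 0 := by
  rw [f.map_sum]
  refine Finset.sum_eq_zero fun κ _ => ?_
  by_cases hκ : Function.Injective κ
  · -- all the coordinates can be moved independently
    refine indep_zero ρ hact R S hS J f hJ hR _ (fun j => hhS (κ j) j) fun τ => ?_
    have hK : (Finset.univ.image κ).card ≤ Fintype.card I := by
      refine Finset.card_image_le.trans ?_
      rw [Finset.card_univ, Fintype.card_coe]
      exact Finset.card_le_univ J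
    have hτ : ∀ k : Fin m, ∃ t : Γ, ∀ j, κ j = k → t = τ j := by
      intro k
      by_cases hk : ∃ j, κ j = k
      · obtain ⟨j, hj⟩ := hk
        refine ⟨τ j, fun j' hj' => ?_⟩
        rw [hκ (hj.trans hj'.symm)]
      · exact ⟨1, fun j hj => absurd ⟨j, hj⟩ hk⟩
    choose t ht using hτ
    obtain ⟨γ, hγ⟩ := h2 _ hK t
    rw [← hf γ fun j => h (κ j) j]
    congr 1
    funext j
    rw [hγ (κ j) (Finset.mem_image_of_mem _ (Finset.mem_univ j)) j, ht (κ j) j rfl]
  · -- two coordinates belong to the same family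
    rw [Function.Injective] at hκ
    push Not at hκ
    obtain ⟨i, j, hij, hne⟩ := hκ
    have hne' : (i : I) ≠ j := fun h => hne (Subtype.ext h)
    rcases h1 (κ i) with ⟨l, hl⟩ | hl
    · by_cases hil : (i : I) = l
      · refine f.map_coord_zero j ?_
        rw [← hij]
        exact hl j fun h => hne' (hil.trans h.symm)
      · exact f.map_coord_zero i (hl i hil)
    · refine hR i j _ hne ?_
      have h3 := hl i j hne'
      rw [hij] at h3
      change R i j (h (κ i) i) (h (κ j) j)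
      rw [hij]
      exact h3

/-- The criterion for points with multiples which are sums of related families, any `card I` of
which are independent. -/
theorem crit3 {A : Type} [AddCommGroup A] {c : ((i : I) → G i) → A} (hc : Aff c)
    (hA : ∀ (n : ℕ) (a : A), 0 < n → n • a = 0 → a = 0)
    (ρ : (i : I) → Γ →* AddMonoid.End (G i))
    (hfin : ∀ i (x : G i), (Set.range fun γ => ρ i γ x).Finite)
    (R : (i j : I) → G i → G j → Prop)
    (hR : ∀ i j, i ≠ j → ∀ a b, R i j a b → Orth c i j a b)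
    (hRγ : ∀ i j a b (γ : Γ), R i j a b → R i j (ρ i γ a) (ρ j γ b))
    (S : (i : I) → AddSubgroup (G i))
    (hS : ∀ i j, i ≠ j → ∀ a ∈ S i, ∀ b ∈ S j, R i j a b)
    (z : ((i : I) → G i) →₀ ℤ) (hz : ∀ γ, z.mapDomain (act ρ γ) = z)
    (hd : z.sum (fun _ n => n) = 0) (hs : ∀ i, z.sum (fun p n => n • p i) = 0)
    (hp : ∀ p ∈ z.support, ∃ (n m : ℕ) (h : Fin m → (i : I) → G i),
      0 < n ∧ n • p = ∑ k, h k ∧
      (∀ k i, ∀ x ∈ AddSubgroup.closure (Set.range fun γ => ρ i γ (h k i)),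
        (∀ γ, ρ i γ x = x) → x ∈ S i) ∧
      (∀ k, (∃ i, ∀ j, j ≠ i → h k j = 0) ∨ ∀ i j, i ≠ j → R i j (h k i) (h k j)) ∧
      ∀ K : Finset (Fin m), K.card ≤ Fintype.card I → ∀ τ : Fin m → Γ, ∃ γ, ∀ k ∈ K, ∀ i,
        ρ i γ (h k i) = ρ i (τ k) (h k i)) :
    z.sum (fun p n => n • c p) = 0 := by
  refine crit hc hA ρ hfin R hR hRγ z hz hd hs fun J f hJ hf hRf => ?_
  refine Finset.sum_eq_zero fun p hpz => ?_
  beta_reduce
  obtain ⟨n, m, h, hn, hsum, hhS, h1, h2⟩ := hp p hpz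
  have hact : ∀ x : (i : I) → G i, (Set.range fun γ => act ρ γ x).Finite := by
    intro x
    refine (Set.Finite.pi' (t := fun i : I => Set.range fun γ => ρ i γ (x i))
      fun i => hfin i (x i)).subset ?_
    rintro _ ⟨γ, rfl⟩ i
    exact ⟨γ, rfl⟩
  have h3 : f (fun j : J => (n : ℤ) • p j) = 0 := by
    have h4 := form_zero2 ρ hact R S hS J f hJ hf hRf h hhS h1 h2
    have h5 : (fun j : J => ∑ k, h k j) = fun j : J => (n : ℤ) • p j := by
      funext j
      have h6 := congrFun hsum (j : I)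
      rw [Finset.sum_apply, Pi.smul_apply] at h6
      rw [← h6, natCast_zsmul]
    rw [h5] at h4
    exact h4
  have h4 := f.map_smul_univ (fun _ : J => (n : ℤ)) fun j => p j
  rw [h3, Finset.prod_const, zsmul_eq_mul] at h4
  have h5 : (((n : ℤ) ^ (Finset.univ : Finset J).card : ℤ) : ℚ) ≠ 0 := by
    have : (n : ℤ) ≠ 0 := by omega
    exact_mod_cast pow_ne_zero _ this
  rcases mul_eq_zero.1 h4.symm with h6 | h6
  · exact absurd h6 h5
  · rw [h6, smul_zero]

end Pool.Agent.ZCQL
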