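import Pool.Agent.ZCQL.Rat2

/-!
# The Galois action for curves over a subfield of `ℚ̄`
-/

set_option autoImplicit false

noncomputable section

namespace Pool.Agent.ZCQL

open WeierstrassCurve Pool.Agent.ZC Pool.Agent.ZCQ Pool.Agent.ZCQK
open scoped Classical

variable {L : IntermediateField ℚ (AlgebraicClosure ℚ)}

/-- The action of the Galois group of `ℚ̄` over `L` on the points of a curve over `L`. -/
def galL (W : WeierstrassCurve L) : (AlgebraicClosure ℚ ≃ₐ[L] AlgebraicClosure ℚ) →*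
    AddMonoid.End (W⁄(AlgebraicClosure ℚ)).toAffine.Point where
  toFun τ := Affine.Point.map (W' := W.toAffine) τ.toAlgHom
  map_one' := by
    ext P
    rcases P with _ | ⟨x, y, h⟩ <;> rfl
  map_mul' σ τ := by
    ext P
    rcases P with _ | ⟨x, y, h⟩ <;> rfl

theorem galL_apply (W : WeierstrassCurve L) (τ : AlgebraicClosure ℚ ≃ₐ[L] AlgebraicClosure ℚ)
    (P : (W⁄(AlgebraicClosure ℚ)).toAffine.Point) :
    galL W τ P = Affine.Point.map (W' := W.toAffine) τ.toAlgHom P := rfl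

/-- the coordinates of a point -/
private def co {W : WeierstrassCurve (AlgebraicClosure ℚ)} :
    W.toAffine.Point → Option (AlgebraicClosure ℚ × AlgebraicClosure ℚ)
  | 0 => none
  | .some x y _ => some (x, y)

private theorem co_injective {W : WeierstrassCurve (AlgebraicClosure ℚ)} :
    Function.Injective (co (W := W)) := by
  intro P Q h
  rcases P with _ | ⟨x, y, hP⟩ <;> rcases Q with _ | ⟨x', y', hQ⟩
  · rfl
  · exact absurd h (by simp [co])
  · exact absurd h (by simp [co])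
  · have h1 : (some (x, y) : Option (AlgebraicClosure ℚ × AlgebraicClosure ℚ)) =
        some (x', y') := h
    rw [Option.some.injEq, Prod.mk.injEq] at h1
    obtain ⟨rfl, rfl⟩ := h1
    rfl

private theorem conj_mem (τ : AlgebraicClosure ℚ ≃ₐ[L] AlgebraicClosure ℚ)
    (x : AlgebraicClosure ℚ) : τ x ∈ (minpoly ℚ x).rootSet (AlgebraicClosure ℚ) := by
  have hx : IsIntegral ℚ x := (AlgebraicClosure.isAlgebraic ℚ).isAlgebraic x |>.isIntegral
  rw [Polynomial.mem_rootSet]
  refine ⟨minpoly.ne_zero hx, ?_⟩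
  have h1 := Polynomial.aeval_algHom_apply (τ.toAlgHom.restrictScalars ℚ) x (minpoly ℚ x)
  rw [minpoly.aeval, map_zero] at h1
  exact h1

theorem galL_finite (W : WeierstrassCurve L)
    (P : (W⁄(AlgebraicClosure ℚ)).toAffine.Point) :
    (Set.range fun τ => galL W τ P).Finite := by
  rcases P with _ | ⟨x, y, h⟩
  · refine (Set.finite_singleton
      (0 : (W⁄(AlgebraicClosure ℚ)).toAffine.Point)).subset ?_
    rintro _ ⟨τ, rfl⟩
    exact map_zero _
  · refine Set.Finite.of_finite_image (f := co) ?_ co_injective.injOn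
    refine ((((minpoly ℚ x).rootSet_finite (AlgebraicClosure ℚ)).prod
      ((minpoly ℚ y).rootSet_finite (AlgebraicClosure ℚ))).image some).subset ?_
    rintro _ ⟨_, ⟨τ, rfl⟩, rfl⟩
    exact ⟨(τ x, τ y), ⟨conj_mem τ x, conj_mem τ y⟩, rfl⟩

theorem galL_fixed {W : WeierstrassCurve L}
    {x y : AlgebraicClosure ℚ} (h : (W⁄(AlgebraicClosure ℚ)).toAffine.Nonsingular x y)
    (hP : ∀ τ, galL W τ (Affine.Point.some x y h) = Affine.Point.some x y h) :
    x ∈ L ∧ y ∈ L := by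
  have hgal : IsGalois L (AlgebraicClosure ℚ) := by
    have h0 : Algebra.IsAlgebraic ℚ (AlgebraicClosure ℚ) := AlgebraicClosure.isAlgebraic ℚ
    have h : IsAlgClosure L (AlgebraicClosure ℚ) :=
      ⟨inferInstance, Algebra.IsAlgebraic.tower_top (K := ℚ) L⟩
    exact IsAlgClosure.isGalois L (AlgebraicClosure ℚ)
  have h1 : ∀ τ : AlgebraicClosure ℚ ≃ₐ[L] AlgebraicClosure ℚ, τ x = x ∧ τ y = y := by
    intro τ
    have h3 := hP τ
    have h4 : (τ.toAlgHom x = x ∧ τ.toAlgHom y = y) :=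
      (Affine.Point.some.injEq _ _ _ _ _ _).mp h3
    exact h4
  obtain ⟨a, ha⟩ := (InfiniteGalois.mem_range_algebraMap_iff_fixed (k := L) x).2
    fun τ => (h1 τ).1
  obtain ⟨b, hb⟩ := (InfiniteGalois.mem_range_algebraMap_iff_fixed (k := L) y).2
    fun τ => (h1 τ).2
  exact ⟨ha ▸ a.2, hb ▸ b.2⟩

theorem galL_mem_SetE (W : WeierstrassCurve L)
    (τ : AlgebraicClosure ℚ ≃ₐ[L] AlgebraicClosure ℚ) {u : AlgebraicClosure ℚ}
    {P : (W⁄(AlgebraicClosure ℚ)).toAffine.Point} (hP : P ∈ SetE (W⁄(AlgebraicClosure ℚ)) u) :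
    galL W τ P ∈ SetE (W⁄(AlgebraicClosure ℚ)) (τ u) := by
  obtain ⟨l, y, h, G, hL0, hL1, hy, hG, hG0, rfl⟩ := hP
  let σ : AlgebraicClosure ℚ ≃+* AlgebraicClosure ℚ := τ.toRingEquiv
  have hσ : ∀ z, σ z = τ z := fun _ => rfl
  have hleg : (leg l).map (σ : AlgebraicClosure ℚ →+* AlgebraicClosure ℚ) = leg (τ l) := by
    ext <;> simp [leg, hσ]
  have hleg' : (leg (τ l)).map (σ.symm : AlgebraicClosure ℚ →+* AlgebraicClosure ℚ) = leg l := by
    have e : σ.symm (τ l) = l := σ.symm_apply_apply l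
    ext <;> simp [leg, e]
  have hW : (W⁄(AlgebraicClosure ℚ)).map (σ : AlgebraicClosure ℚ →+* AlgebraicClosure ℚ) =
      W⁄(AlgebraicClosure ℚ) := by
    ext <;> exact τ.commutes _
  have hgact : ∀ X : (W⁄(AlgebraicClosure ℚ)).toAffine.Point, galL W τ X = cj σ hW X := by
    intro X
    rcases X with _ | ⟨a, b, hab⟩ <;> rfl
  have hcj : ∀ X : (leg l).toAffine.Point, cj σ.symm hleg' (cj σ hleg X) = X := by
    intro X
    rcases X with _ | ⟨a, b, hab⟩
    · rfl
    · exact (Affine.Point.some.injEq _ _ _ _ _ _).mpr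
        ⟨σ.symm_apply_apply a, σ.symm_apply_apply b⟩
  let G₂ : (leg (τ l)).toAffine.Point → (W⁄(AlgebraicClosure ℚ)).toAffine.Point :=
    fun Q => galL W τ (G (cj σ.symm hleg' Q))
  have hG₂ : ∀ X, G₂ (cj σ hleg X) = cj σ hW (G X) := by
    intro X
    simp only [G₂]
    rw [hcj, hgact]
  have h' : (leg (τ l)).toAffine.Nonsingular (τ u) (τ y) := by
    rw [← hleg]
    exact (Affine.map_nonsingular (leg l).toAffine
      (f := (σ : AlgebraicClosure ℚ →+* AlgebraicClosure ℚ)) σ.injective u y).2 h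
  refine ⟨τ l, τ y, h', G₂, ?_, ?_, ?_, lift_cj σ hleg hW hG hG₂, ?_, ?_⟩
  · rwa [Ne, map_eq_zero]
  · intro h1
    apply hL1
    apply τ.injective
    rw [h1, map_one]
  · rwa [Ne, map_eq_zero]
  · have h1 : cj σ.symm hleg' 0 = 0 := rfl
    simp only [G₂]
    rw [h1, hG0, map_zero]
  · have h1 : (Affine.Point.some (τ u) (τ y) h' : (leg (τ l)).toAffine.Point) =
        cj σ hleg (Affine.Point.some u y h) := rfl
    rw [h1, hG₂, hgact]

theorem galL_mem_HE {W : WeierstrassCurve L}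
    {u : AlgebraicClosure ℚ} {P : (W⁄(AlgebraicClosure ℚ)).toAffine.Point}
    (hP : P ∈ HE (W⁄(AlgebraicClosure ℚ)) u)
    (τ : AlgebraicClosure ℚ ≃ₐ[L] AlgebraicClosure ℚ) :
    galL W τ P ∈ HE (W⁄(AlgebraicClosure ℚ)) (τ u) := by
  obtain ⟨m, hm, h⟩ := hP
  refine ⟨m, hm, ?_⟩
  have h1 : m • galL W τ P = galL W τ (m • P) := (map_nsmul (galL W τ) m P).symm
  rw [h1]
  have h2 : AddSubgroup.closure (SetE (W⁄(AlgebraicClosure ℚ)) u) ≤
      (AddSubgroup.closure (SetE (W⁄(AlgebraicClosure ℚ)) (τ u))).comap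
          (galL W τ : (W⁄(AlgebraicClosure ℚ)).toAffine.Point →+
            (W⁄(AlgebraicClosure ℚ)).toAffine.Point) := by
    rw [AddSubgroup.closure_le]
    intro a ha
    exact AddSubgroup.subset_closure (galL_mem_SetE W _ ha)
  exact h2 h

end Pool.Agent.ZCQL
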