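import Pool.Agent.ZCQL.Avg

/-!
# Averages over independent orbits
-/

set_option autoImplicit false

noncomputable section

namespace Pool.Agent.ZCQL

open Function
open scoped Classical

variable {I : Type} [Fintype I] {G : I → Type} [∀ i, AddCommGroup (G i)] {A : Type}
  [AddCommGroup A] {c : ((i : I) → G i) → A}

omit [Fintype I] in
/-- translates of affine functions are affine -/
theorem Aff.translate (hc : Aff c) (r : (i : I) → G i) : Aff fun x => c (x + r) := by
  intro x i a b
  have e : ∀ a : G i, update x i a + r = update (x + r) i (a + r i) := by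
    intro a
    ext k
    rcases eq_or_ne k i with rfl | hk
    · simp
    · simp [hk]
  simp only [e]
  have h1 := hc (x + r) i (a + r i) b
  have h2 := hc (x + r) i (r i) b
  have e1 : a + b + r i = a + r i + b := by abel
  rw [e1, h1, zero_add]
  have h3 : c (update (x + r) i (b + r i)) = c (update (x + r) i (r i)) +
      c (update (x + r) i b) - c (update (x + r) i 0) := by
    rw [← h2, add_comm b]
  rw [h3]
  abel

omit [Fintype I] in
theorem orth_iff' (hc : Aff c) {i j : I} (hij : i ≠ j) {a : G i} {b : G j} :
    Orth c i j a b ↔ ∀ x, c (x + Pi.single i a + Pi.single j b) - c (x + Pi.single i a) =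
      c (x + Pi.single j b) - c x := by
  refine ⟨fun h x => h.eq hc hij x, fun h x => ?_⟩
  have h1 := h (update (update x i 0) j 0)
  have e1 : update (update x i 0) j 0 + Pi.single i a + Pi.single j b =
      update (update x i a) j b := by
    ext k
    rcases eq_or_ne k j with rfl | hk
    · simp [hij.symm]
    · rcases eq_or_ne k i with rfl | hk'
      · simp [hij]
      · simp [hk, hk']
  have e2 : update (update x i 0) j 0 + Pi.single i a = update (update x i a) j 0 := by
    ext k
    rcases eq_or_ne k j with rfl | hk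
    · simp [hij.symm]
    · rcases eq_or_ne k i with rfl | hk'
      · simp [hij]
      · simp [hk, hk']
  have e3 : update (update x i 0) j 0 + Pi.single j b = update (update x i 0) j b := by
    ext k
    rcases eq_or_ne k j with rfl | hk
    · simp
    · rcases eq_or_ne k i with rfl | hk'
      · simp [hij]
      · simp [hk]
  rw [e1, e2, e3] at h1
  rw [h1]
  abel

omit [Fintype I] in
theorem Orth.translate (hc : Aff c) {i j : I} (hij : i ≠ j) {a : G i} {b : G j}
    (h : Orth c i j a b) (r : (i : I) → G i) : Orth (fun x => c (x + r)) i j a b := by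
  rw [orth_iff' (hc.translate r) hij]
  intro x
  have h1 := (orth_iff' hc hij).1 h (x + r)
  have e1 : x + Pi.single i a + Pi.single j b + r = x + r + Pi.single i a + Pi.single j b := by
    abel
  have e2 : x + Pi.single i a + r = x + r + Pi.single i a := by abel
  have e3 : x + Pi.single j b + r = x + r + Pi.single j b := by abel
  simp only [e1, e2, e3]
  exact h1

omit [Fintype I] in
theorem Aff.sum {ι : Type} (s : Finset ι) {c : ι → ((i : I) → G i) → A}
    (hc : ∀ f ∈ s, Aff (c f)) : Aff fun x => ∑ f ∈ s, c f x := by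
  intro x i a b
  rw [← Finset.sum_add_distrib, ← Finset.sum_sub_distrib]
  exact Finset.sum_congr rfl fun f hf => hc f hf x i a b

omit [Fintype I] in
theorem Orth.sum {ι : Type} (s : Finset ι) {c : ι → ((i : I) → G i) → A} {i j : I} {a : G i}
    {b : G j} (hc : ∀ f ∈ s, Orth (c f) i j a b) : Orth (fun x => ∑ f ∈ s, c f x) i j a b := by
  intro x
  rw [← Finset.sum_sub_distrib, ← Finset.sum_sub_distrib, ← Finset.sum_add_distrib]
  exact Finset.sum_eq_zero fun f hf => hc f hf x

omit [Fintype I] in
/-- the difference in one coordinate is additive -/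
theorem Aff.diff_add (hc : Aff c) (x : (i : I) → G i) (i : I) (a b : G i) :
    c (x + Pi.single i (a + b)) - c x =
      (c (x + Pi.single i a) - c x) + (c (x + Pi.single i b) - c x) := by
  rw [hc.zero, hc.zero, hc.zero, hc x i a b]
  abel

/-- the difference in one coordinate as an additive map -/
def dif (hc : Aff c) (x : (i : I) → G i) (i : I) : G i →+ A :=
  AddMonoidHom.mk' (fun a => c (x + Pi.single i a) - c x) fun a b => hc.diff_add x i a b

omit [Fintype I] in
theorem dif_apply (hc : Aff c) (x : (i : I) → G i) (i : I) (a : G i) :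
    dif hc x i a = c (x + Pi.single i a) - c x := rfl

theorem sum_pi_succ {M B : Type} [AddCommMonoid B] {m : ℕ} (O : Fin (m + 1) → Finset M)
    (F : (Fin (m + 1) → M) → B) :
    ∑ f ∈ Fintype.piFinset O, F f =
      ∑ f ∈ Fintype.piFinset fun j : Fin m => O j.succ, ∑ a ∈ O 0, F (Fin.cons a f) := by
  rw [← Finset.sum_product']
  refine Finset.sum_nbij' (fun f => (fun j : Fin m => f j.succ, f 0))
    (fun p => (Fin.cons p.2 p.1 : Fin (m + 1) → M)) ?_ ?_ ?_ ?_ ?_
  · intro f hf
    rw [Fintype.mem_piFinset] at hf
    rw [Finset.mem_product, Fintype.mem_piFinset]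
    exact ⟨fun j => hf _, hf _⟩
  · intro p hp
    rw [Finset.mem_product, Fintype.mem_piFinset] at hp
    rw [Fintype.mem_piFinset]
    intro j
    refine Fin.cases ?_ (fun j => ?_) j
    · exact hp.2
    · exact hp.1 j
  · intro f _
    funext j
    refine Fin.cases ?_ (fun j => ?_) j <;> rfl
  · intro p _
    rfl
  · intro f _
    congr 1
    funext j
    refine Fin.cases ?_ (fun j => ?_) j <;> rfl

/-- the sum over one orthogonal family -/
theorem one_sum (O : Finset ((i : I) → G i)) (hc : Aff c) (hr : ∀ r ∈ O, POrth c r)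
    (x : (i : I) → G i) :
    ∑ r ∈ O, c (x + r) = O.card • c x + ∑ i, dif hc x i (∑ r ∈ O, r i) := by
  rw [Finset.sum_congr rfl fun r hr' => (hr r hr').formula hc x, Finset.sum_add_distrib,
    Finset.sum_const]
  congr 1
  rw [Finset.sum_comm]
  refine Finset.sum_congr rfl fun i _ => ?_
  rw [map_sum]
  rfl

theorem ind_mem (S : (i : I) → AddSubgroup (G i)) {m : ℕ} (O : Fin m → Finset ((i : I) → G i))
    (hO : ∀ j i, ∑ r ∈ O j, r i ∈ S i) {g : (i : I) → G i} (hg : ∀ i, g i ∈ S i) (i : I) :
    ∑ f ∈ Fintype.piFinset O, (g + ∑ j, f j) i ∈ S i := by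
  induction m with
  | zero =>
    refine (S i).sum_mem fun f _ => ?_
    rw [Finset.univ_eq_empty, Finset.sum_empty, add_zero]
    exact hg i
  | succ m ih =>
    rw [sum_pi_succ]
    have h1 : ∀ f : Fin m → (i : I) → G i, ∑ a ∈ O 0, (g + ∑ j, (Fin.cons a f :
        Fin (m + 1) → (i : I) → G i) j) i = (O 0).card • (g + ∑ j, f j) i + ∑ a ∈ O 0, a i := by
      intro f
      rw [← Finset.sum_const, ← Finset.sum_add_distrib]
      refine Finset.sum_congr rfl fun a _ => ?_
      rw [Fin.sum_univ_succ]
      simp only [Fin.cons_zero, Fin.cons_succ, Pi.add_apply]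
      abel
    rw [Finset.sum_congr rfl fun f _ => h1 f, Finset.sum_add_distrib, ← Finset.smul_sum,
      Finset.sum_const]
    exact (S i).add_mem ((S i).nsmul_mem (ih _ fun j i => hO _ i) _)
      ((S i).nsmul_mem (hO 0 i) _)

/-- The sum over independent families. -/
theorem ind_sum (S : (i : I) → AddSubgroup (G i)) {m : ℕ} (O : Fin m → Finset ((i : I) → G i))
    (hO : ∀ j i, ∑ r ∈ O j, r i ∈ S i) {g : (i : I) → G i} (hg : ∀ i, g i ∈ S i)
    {c : ((i : I) → G i) → A} (hc : Aff c)
    (hS : ∀ i j, i ≠ j → ∀ a ∈ S i, ∀ b ∈ S j, Orth c i j a b)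
    (hr : ∀ j, ∀ r ∈ O j, POrth c r) :
    ∑ f ∈ Fintype.piFinset O, c (g + ∑ j, f j) =
      (Fintype.piFinset O).card • c 0 +
        ∑ i, lin c i (∑ f ∈ Fintype.piFinset O, (g + ∑ j, f j) i) := by
  induction m generalizing c with
  | zero =>
    have h1 : Fintype.piFinset O = {fun j => Fin.elim0 j} := by
      ext f
      rw [Fintype.mem_piFinset, Finset.mem_singleton]
      refine ⟨fun _ => ?_, fun _ j => Fin.elim0 j⟩
      funext j
      exact Fin.elim0 j
    have hgO : POrth c g := fun i j hij => hS i j hij _ (hg i) _ (hg j)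
    rw [h1]
    simp only [Finset.sum_singleton, Finset.card_singleton, one_smul, Finset.univ_eq_empty,
      Finset.sum_empty, add_zero]
    have h2 := hgO.formula hc 0
    simp only [zero_add] at h2
    exact h2
  | succ m ih =>
    set O' : Fin m → Finset ((i : I) → G i) := fun j => O j.succ with hO'
    set c' : ((i : I) → G i) → A := fun x => ∑ a ∈ O 0, c (x + a) with hc'
    have hc'1 : Aff c' := Aff.sum _ fun a _ => hc.translate a
    have hS' : ∀ i j, i ≠ j → ∀ a ∈ S i, ∀ b ∈ S j, Orth c' i j a b := fun i j hij a ha b hb =>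
      Orth.sum _ fun r _ => (hS i j hij a ha b hb).translate hc hij r
    have hr' : ∀ j, ∀ r ∈ O' j, POrth c' r := fun j r hr1 k l hkl =>
      Orth.sum _ fun a _ => (hr _ r hr1 k l hkl).translate hc hkl a
    have h1 := ih O' (fun j i => hO _ i) hc'1 hS' hr'
    have h2 : ∑ f ∈ Fintype.piFinset O, c (g + ∑ j, f j) =
        ∑ f ∈ Fintype.piFinset O', c' (g + ∑ j, f j) := by
      rw [sum_pi_succ]
      refine Finset.sum_congr rfl fun f _ => Finset.sum_congr rfl fun a _ => ?_
      rw [Fin.sum_univ_succ]
      simp only [Fin.cons_zero, Fin.cons_succ]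
      congr 1
      abel
    have h3 : ∀ x, c' x = (O 0).card • c x + ∑ i, dif hc x i (∑ r ∈ O 0, r i) := fun x =>
      one_sum _ hc (hr 0) x
    have hlin : ∀ x : (i : I) → G i, ∀ i, dif hc 0 i (x i) = lin c i (x i) := by
      intro x i
      rw [dif_apply, zero_add, lin]
    set t : (i : I) → G i := fun i => ∑ r ∈ O 0, r i with ht
    have h4 : ∀ i, ∀ u ∈ S i, lin c' i u = (O 0).card • lin c i u := by
      intro i u hu
      unfold lin
      rw [h3, h3, smul_sub]
      have h5 : ∑ k, dif hc (Pi.single i u) k (t k) = ∑ k, dif hc 0 k (t k) := by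
        refine Finset.sum_congr rfl fun k _ => ?_
        rw [dif_apply, dif_apply]
        rcases eq_or_ne k i with rfl | hk
        · have h6 := hc.diff_add 0 k u (t k)
          rw [Pi.single_add] at h6
          simp only [zero_add] at h6 ⊢
          have h7 : c (Pi.single k u + Pi.single k (t k)) =
              (c (Pi.single k u) - c 0 + (c (Pi.single k (t k)) - c 0)) + c 0 := by
            rw [← h6]
            abel
          rw [h7]
          abel
        · have h6 := (hS i k hk.symm u hu (t k) (hO 0 k)).eq hc hk.symm 0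
          simp only [zero_add] at h6 ⊢
          exact h6
      rw [h5]
      abel
    have hcard : (Fintype.piFinset O).card = (Fintype.piFinset O').card * (O 0).card := by
      rw [Fintype.card_piFinset, Fintype.card_piFinset, Fin.prod_univ_succ, mul_comm]
    have h8 : ∀ i, ∑ f ∈ Fintype.piFinset O, (g + ∑ j, f j) i =
        (O 0).card • ∑ f ∈ Fintype.piFinset O', (g + ∑ j, f j) i +
          (Fintype.piFinset O').card • t i := by
      intro i
      rw [sum_pi_succ, Finset.smul_sum, ← Finset.sum_const, ← Finset.sum_add_distrib]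
      refine Finset.sum_congr rfl fun f _ => ?_
      rw [ht, ← Finset.sum_const, ← Finset.sum_add_distrib]
      refine Finset.sum_congr rfl fun a _ => ?_
      rw [Fin.sum_univ_succ]
      simp only [Fin.cons_zero, Fin.cons_succ, Pi.add_apply]
      abel
    rw [h2, h1, h3 0, hcard, smul_add, mul_smul, add_assoc]
    congr 1
    rw [Finset.smul_sum, ← Finset.sum_add_distrib]
    refine Finset.sum_congr rfl fun i _ => ?_
    have hu := ind_mem S O' (fun j i => hO _ i) hg i
    rw [h4 i _ hu, h8, lin_add hc, add_comm]
    have hsm : ∀ (n : ℕ) (a : G i), lin c i (n • a) = n • lin c i a := fun n a =>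
      map_nsmul (AddMonoidHom.mk' (lin c i) (lin_add hc i)) n a
    rw [hsm, hsm, dif_apply, zero_add]
    rfl

end Pool.Agent.ZCQL
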