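import Pool.Agent.ZCQL.Final3

/-!
# Points over multiquadratic extensions

`form_zero_mq`: an invariant biadditive form on a group on which a group `G` acts by commuting involutions is zero if it
is zero on all pairs of eigenvectors with the same character. `main_mq`: Galois-invariant zero-cycles on `E × E`, of
degree and sum zero, supported on points over a multiquadratic extension `F` of `L`, are torsion, if any two points of
`E(F)` with the same quadratic character are dependent or in a common group `HE`.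
-/

set_option autoImplicit false

noncomputable section

namespace Pool.Agent.ZCQL

open WeierstrassCurve Pool.Agent.ZC Pool.Agent.ZCQ Pool.Agent.ZCQK
open scoped Classical

theorem form_zero_mq {G V : Type} [Group G] [AddCommGroup V] (ρ : G →* AddMonoid.End V)
    (U : AddSubgroup V) (hU : ∀ σ, ∀ P ∈ U, ρ σ P ∈ U) (h2 : ∀ σ, ∀ P ∈ U, ρ σ (ρ σ P) = P)
    (hfin : ∀ P ∈ U, (Set.range fun σ => ρ σ P).Finite) (f : V → V → ℚ)
    (h1l : ∀ P P' Q, f (P + P') Q = f P Q + f P' Q) (h1r : ∀ P Q Q', f P (Q + Q') = f P Q + f P Q')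
    (hinv : ∀ σ P Q, f (ρ σ P) (ρ σ Q) = f P Q)
    (hchar : ∀ P ∈ U, ∀ Q ∈ U, (∀ σ, (ρ σ P = P ∧ ρ σ Q = Q) ∨ (ρ σ P = -P ∧ ρ σ Q = -Q)) →
      f P Q = 0) : ∀ P ∈ U, ∀ Q ∈ U, f P Q = 0 := by
  intro P hP Q hQ
  by_contra hne
  have h0l : ∀ Q, f 0 Q = 0 := by
    intro Q
    have := h1l 0 0 Q
    rw [add_zero] at this
    linarith
  have h0r : ∀ P, f P 0 = 0 := by
    intro P
    have := h1r P 0 0
    rw [add_zero] at this
    linarith
  have hnl : ∀ P Q, f (-P) Q = -f P Q := by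
    intro P Q
    have := h1l P (-P) Q
    rw [add_neg_cancel, h0l] at this
    linarith
  have hnr : ∀ P Q, f P (-Q) = -f P Q := by
    intro P Q
    have := h1r P Q (-Q)
    rw [add_neg_cancel, h0r] at this
    linarith
  have hcomm : ∀ σ τ, ∀ X ∈ U, ρ σ (ρ τ X) = ρ τ (ρ σ X) := by
    intro σ τ X hX
    have e1 : ρ σ (ρ τ (ρ σ (ρ τ X))) = X := by
      have e2 := h2 (σ * τ) X hX
      rw [map_mul] at e2
      exact e2
    have e3 : ρ τ (ρ σ (ρ τ X)) = ρ σ X := by
      have e4 := congrArg (ρ σ) e1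
      rwa [h2 σ _ (hU _ _ (hU _ _ (hU _ _ hX)))] at e4
    have e5 := congrArg (ρ τ) e3
    rwa [h2 τ _ (hU _ _ (hU _ _ hX))] at e5
  -- a finite set of representatives
  have hR : (Set.range fun σ => (ρ σ P, ρ σ Q)).Finite := by
    refine ((hfin P hP).prod (hfin Q hQ)).subset ?_
    rintro _ ⟨σ, rfl⟩
    exact ⟨⟨σ, rfl⟩, ⟨σ, rfl⟩⟩
  obtain ⟨S, hS⟩ : ∃ S : Finset G, ∀ σ, ∃ s ∈ S, ρ s P = ρ σ P ∧ ρ s Q = ρ σ Q := by
    have hc : ∀ x : V × V, ∃ s : G, x ∈ Set.range (fun σ => (ρ σ P, ρ σ Q)) →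
        (ρ s P, ρ s Q) = x := by
      intro x
      by_cases hx : x ∈ Set.range (fun σ => (ρ σ P, ρ σ Q))
      · obtain ⟨s, hs⟩ := hx
        exact ⟨s, fun _ => hs⟩
      · exact ⟨1, fun h => absurd h hx⟩
    choose c hc using hc
    refine ⟨hR.toFinset.image c, fun σ => ?_⟩
    refine ⟨c (ρ σ P, ρ σ Q), Finset.mem_image_of_mem c ?_, ?_⟩
    · rw [Set.Finite.mem_toFinset]
      exact ⟨σ, rfl⟩
    · have h3 := hc (ρ σ P, ρ σ Q) ⟨σ, rfl⟩
      rw [Prod.mk.injEq] at h3
      exact h3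
  -- simultaneous eigenvectors
  have key : ∀ T : Finset G, ∃ P' ∈ U, ∃ Q' ∈ U, f P' Q' ≠ 0 ∧
      (∀ s ∈ T, (ρ s P' = P' ∧ ρ s Q' = Q') ∨ (ρ s P' = -P' ∧ ρ s Q' = -Q')) ∧
      (∀ σ τ, ρ σ P = ρ τ P → ρ σ P' = ρ τ P') ∧ ∀ σ τ, ρ σ Q = ρ τ Q → ρ σ Q' = ρ τ Q' := by
    intro T
    induction T using Finset.induction_on with
    | empty => exact ⟨P, hP, Q, hQ, hne, fun s hs => absurd hs (Finset.notMem_empty s),
        fun _ _ h => h, fun _ _ h => h⟩
    | insert t T _ ih =>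
      obtain ⟨X, hX, Y, hY, hXY, hT, hX1, hY1⟩ := ih
      have hsum : 2 * f X Y + 2 * f X Y = f (X + ρ t X) (Y + ρ t Y) +
          f (X + -ρ t X) (Y + -ρ t Y) := by
        rw [h1l, h1l, h1r, h1r, h1r, h1r, hnl, hnl, hnr, hnr, hinv]
        ring
      have hP1 : ∀ (X Y : V), X ∈ U → (∀ σ τ, ρ σ Y = ρ τ Y → ρ σ X = ρ τ X) →
          ∀ σ τ, ρ σ Y = ρ τ Y → ρ σ (X + ρ t X) = ρ τ (X + ρ t X) := by
        intro X Y hX h σ τ h3
        rw [map_add, map_add, hcomm σ t X hX, hcomm τ t X hX, h σ τ h3]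
      have hP2 : ∀ (X Y : V), X ∈ U → (∀ σ τ, ρ σ Y = ρ τ Y → ρ σ X = ρ τ X) →
          ∀ σ τ, ρ σ Y = ρ τ Y → ρ σ (X + -ρ t X) = ρ τ (X + -ρ t X) := by
        intro X Y hX h σ τ h3
        rw [map_add, map_add, map_neg, map_neg, hcomm σ t X hX, hcomm τ t X hX, h σ τ h3]
      have hs1 : ∀ s ∈ T, (ρ s (X + ρ t X) = X + ρ t X ∧ ρ s (Y + ρ t Y) = Y + ρ t Y) ∨
          (ρ s (X + ρ t X) = -(X + ρ t X) ∧ ρ s (Y + ρ t Y) = -(Y + ρ t Y)) := by
        intro s hs
        rw [map_add, map_add, hcomm s t X hX, hcomm s t Y hY]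
        rcases hT s hs with ⟨e1, e2⟩ | ⟨e1, e2⟩
        · left
          rw [e1, e2]
          exact ⟨rfl, rfl⟩
        · right
          rw [e1, e2, map_neg, map_neg, neg_add, neg_add]
          exact ⟨rfl, rfl⟩
      have hs2 : ∀ s ∈ T, (ρ s (X + -ρ t X) = X + -ρ t X ∧ ρ s (Y + -ρ t Y) = Y + -ρ t Y) ∨
          (ρ s (X + -ρ t X) = -(X + -ρ t X) ∧ ρ s (Y + -ρ t Y) = -(Y + -ρ t Y)) := by
        intro s hs
        rw [map_add, map_add, map_neg, map_neg, hcomm s t X hX, hcomm s t Y hY]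
        rcases hT s hs with ⟨e1, e2⟩ | ⟨e1, e2⟩
        · left
          rw [e1, e2]
          exact ⟨rfl, rfl⟩
        · right
          rw [e1, e2, map_neg, map_neg, neg_add, neg_add]
          exact ⟨rfl, rfl⟩
      by_cases h5 : f (X + ρ t X) (Y + ρ t Y) = 0
      · refine ⟨X + -ρ t X, U.add_mem hX (U.neg_mem (hU t X hX)), Y + -ρ t Y,
          U.add_mem hY (U.neg_mem (hU t Y hY)), ?_, ?_, hP2 X P hX hX1, hP2 Y Q hY hY1⟩
        · intro h6
          rw [h5, h6] at hsum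
          exact hXY (by linarith)
        · intro s hs
          rcases Finset.mem_insert.1 hs with rfl | hs
          · right
            rw [map_add, map_add, map_neg, map_neg, h2 s X hX, h2 s Y hY]
            constructor
            · abel
            · abel
          · exact hs2 s hs
      · refine ⟨X + ρ t X, U.add_mem hX (hU t X hX), Y + ρ t Y,
          U.add_mem hY (hU t Y hY), h5, ?_, hP1 X P hX hX1, hP1 Y Q hY hY1⟩
        intro s hs
        rcases Finset.mem_insert.1 hs with rfl | hs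
        · left
          rw [map_add, map_add, h2 s X hX, h2 s Y hY]
          constructor
          · abel
          · abel
        · exact hs1 s hs
  obtain ⟨P', hP', Q', hQ', hne', hs', hP1, hQ1⟩ := key S
  refine hne' (hchar P' hP' Q' hQ' fun σ => ?_)
  obtain ⟨s, hs, e1, e2⟩ := hS σ
  rw [← hP1 s σ e1, ← hQ1 s σ e2]
  exact hs' s hs

variable {L : IntermediateField ℚ (AlgebraicClosure ℚ)}

/-- Galois-invariant zero-cycles on `E × E` supported on a group of points with commuting involutions -/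
theorem main_mq_aux (E : WeierstrassCurve L) (hE : E.IsElliptic)
    (U : AddSubgroup (E⁄(AlgebraicClosure ℚ)).toAffine.Point)
    (hU : ∀ σ, ∀ P ∈ U, galL E σ P ∈ U) (h2 : ∀ σ, ∀ P ∈ U, galL E σ (galL E σ P) = P)
    (hχ : ∀ P ∈ U, ∀ Q ∈ U, (∀ σ, (galL E σ P = P ∧ galL E σ Q = Q) ∨
      (galL E σ P = -P ∧ galL E σ Q = -Q)) → ∃ v, P ∈ HE (E⁄(AlgebraicClosure ℚ)) v ∧
        Q ∈ HE (E⁄(AlgebraicClosure ℚ)) v)
    (z : Z0N fun _ : Fin 2 => E⁄(AlgebraicClosure ℚ))
    (hz : ∀ σ : AlgebraicClosure ℚ ≃ₐ[L] AlgebraicClosure ℚ,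
      z.mapDomain (fun p i => galL E σ (p i)) = z)
    (hdeg : z.sum (fun _ n => n) = 0) (hsum : ∀ i, z.sum (fun p n => n • p i) = 0)
    (hsupp : ∀ p ∈ z.support, ∀ i, p i ∈ U) :
    ∃ M : ℕ, 0 < M ∧ M • z ∈ RatEqN fun _ : Fin 2 => E⁄(AlgebraicClosure ℚ) := by
  refine main_aux3.1 L 2 (fun _ => E) z (fun _ => hE) hz hdeg hsum (Or.inl ?_)
  intro I f hI hinv hHE
  have hIu : I = Finset.univ := Finset.eq_univ_of_card I (le_antisymm (by
    simpa using Finset.card_le_univ I) (by simpa using hI))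
  subst hIu
  set i0 : (Finset.univ : Finset (Fin 2)) := ⟨0, Finset.mem_univ 0⟩ with hi0
  set i1 : (Finset.univ : Finset (Fin 2)) := ⟨1, Finset.mem_univ 1⟩ with hi1
  have h01 : i0 ≠ i1 := fun h => absurd (congrArg Subtype.val h) (by decide)
  have hcase : ∀ i : (Finset.univ : Finset (Fin 2)), i = i0 ∨ i = i1 := by
    rintro ⟨i, hi⟩
    fin_cases i
    · left
      rfl
    · right
      rfl
  set pr : (E⁄(AlgebraicClosure ℚ)).toAffine.Point → (E⁄(AlgebraicClosure ℚ)).toAffine.Point →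
    (↥(Finset.univ : Finset (Fin 2)) → (E⁄(AlgebraicClosure ℚ)).toAffine.Point) :=
    fun P Q i => if i = i0 then P else Q with hpr
  have hpr0 : ∀ P Q, pr P Q i0 = P := fun P Q => if_pos rfl
  have hpr1 : ∀ P Q, pr P Q i1 = Q := fun P Q => if_neg h01.symm
  have hext : ∀ (x : ↥(Finset.univ : Finset (Fin 2)) → (E⁄(AlgebraicClosure ℚ)).toAffine.Point),
      x = pr (x i0) (x i1) := by
    intro x
    funext i
    rcases hcase i with rfl | rfl
    · rw [hpr0]
    · rw [hpr1]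
  have hu0 : ∀ P Q R, Function.update (pr P Q) i0 R = pr R Q := by
    intro P Q R
    rw [hext (Function.update (pr P Q) i0 R), Function.update_self,
      Function.update_of_ne h01.symm, hpr1]
  have hu1 : ∀ P Q R, Function.update (pr P Q) i1 R = pr P R := by
    intro P Q R
    rw [hext (Function.update (pr P Q) i1 R), Function.update_self,
      Function.update_of_ne h01, hpr0]
  have hf : ∀ P ∈ U, ∀ Q ∈ U, f (pr P Q) = 0 := by
    refine form_zero_mq (galL E) U hU h2 (fun P _ => galL_finite E P) (fun P Q => f (pr P Q))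
      ?_ ?_ ?_ ?_
    · intro P P' Q
      have h3 := f.map_update_add (pr P Q) i0 P P'
      rw [hu0, hu0, hu0] at h3
      exact h3
    · intro P Q Q'
      have h3 := f.map_update_add (pr P Q) i1 Q Q'
      rw [hu1, hu1, hu1] at h3
      exact h3
    · intro σ P Q
      have h3 := hinv σ (pr P Q)
      have h4 : (fun i : ↥(Finset.univ : Finset (Fin 2)) => galL E σ (pr P Q i)) =
          pr (galL E σ P) (galL E σ Q) := by
        funext i
        rcases hcase i with rfl | rfl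
        · rw [hpr0, hpr0]
        · rw [hpr1, hpr1]
      rw [h4] at h3
      exact h3
    · intro P hP Q hQ h3
      obtain ⟨v, hPv, hQv⟩ := hχ P hP Q hQ h3
      refine hHE i0 i1 v (pr P Q) h01 ?_ ?_
      · rw [hpr0]
        exact hPv
      · rw [hpr1]
        exact hQv
  rw [Finsupp.sum]
  refine Finset.sum_eq_zero fun p hp => ?_
  have h5 : f (fun i => p i) = 0 := by
    rw [hext (fun i : (Finset.univ : Finset (Fin 2)) => p i)]
    exact hf _ (hsupp p hp _) _ (hsupp p hp _)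
  rw [h5, smul_zero]

/-- a point with conjugate coordinates -/
private theorem galL_some_mq (E : WeierstrassCurve L)
    (σ : AlgebraicClosure ℚ ≃ₐ[L] AlgebraicClosure ℚ) {x y : AlgebraicClosure ℚ}
    (h : (E⁄(AlgebraicClosure ℚ)).toAffine.Nonsingular x y) :
    ∃ h', galL E σ (Affine.Point.some x y h) = Affine.Point.some (σ x) (σ y) h' :=
  ⟨_, rfl⟩

private theorem galL_eq_mq (E : WeierstrassCurve L)
    (σ : AlgebraicClosure ℚ ≃ₐ[L] AlgebraicClosure ℚ)
    {P : (E⁄(AlgebraicClosure ℚ)).toAffine.Point}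
    (hP : ∀ x y h, P = Affine.Point.some x y h → σ x = x ∧ σ y = y) : galL E σ P = P := by
  rcases P with _ | ⟨x, y, h⟩
  · exact map_zero _
  · obtain ⟨hx, hy⟩ := hP x y h rfl
    exact (Affine.Point.some.injEq _ _ _ _ _ _).mpr ⟨hx, hy⟩

/-- two dependent points are in a common group `HE` -/
private theorem dep_mq (W : WeierstrassCurve (AlgebraicClosure ℚ)) (hW : W.IsElliptic)
    {P Q : W.toAffine.Point} {a b : ℤ} (hab : a ≠ 0 ∨ b ≠ 0) (h : a • P = b • Q) :
    ∃ v, P ∈ HE W v ∧ Q ∈ HE W v := by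
  have key : ∀ {P Q : W.toAffine.Point} {a b : ℤ}, b ≠ 0 → a • P = b • Q →
      ∃ v, P ∈ HE W v ∧ Q ∈ HE W v := by
    intro P Q a b hb h
    obtain ⟨v, hv⟩ := main_aux3.2.1 W P hW
    refine ⟨v, hv, ?_⟩
    have h1 : b • Q ∈ HE W v := by
      rw [← h]
      exact (HE W v).zsmul_mem hv a
    have h2 : b.natAbs • Q ∈ HE W v := by
      rcases Int.natAbs_eq b with hb1 | hb1
      · rw [hb1, natCast_zsmul] at h1
        exact h1
      · rw [hb1, neg_smul, natCast_zsmul] at h1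
        exact (HE W v).neg_mem_iff.1 h1
    exact satur_sat (Int.natAbs_pos.2 hb) h2
  rcases hab with ha | hb
  · obtain ⟨v, h1, h2⟩ := key ha h.symm
    exact ⟨v, h2, h1⟩
  · exact key hb h

/-- Galois-invariant zero-cycles of degree and sum zero on `E × E` supported on points over a field `F` whose group over
`L` has exponent two are torsion if the parts of `E(F)` with the same quadratic character have rank at most one (or are
in a common group `HE`). -/
theorem main_mq (L : IntermediateField ℚ (AlgebraicClosure ℚ))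
    (F : IntermediateField L (AlgebraicClosure ℚ)) (E : WeierstrassCurve L) (hE : E.IsElliptic)
    (hF : ∀ σ : AlgebraicClosure ℚ ≃ₐ[L] AlgebraicClosure ℚ, ∀ x ∈ F, σ (σ x) = x)
    (hr : ∀ P Q : (E⁄(AlgebraicClosure ℚ)).toAffine.Point,
      (∀ x y h, P = Affine.Point.some x y h → x ∈ F ∧ y ∈ F) →
      (∀ x y h, Q = Affine.Point.some x y h → x ∈ F ∧ y ∈ F) →
      (∀ σ : AlgebraicClosure ℚ ≃ₐ[L] AlgebraicClosure ℚ,
        (galL E σ P = P ∧ galL E σ Q = Q) ∨ (galL E σ P = -P ∧ galL E σ Q = -Q)) →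
      (∃ a b : ℤ, (a ≠ 0 ∨ b ≠ 0) ∧ a • P = b • Q) ∨
        ∃ v, P ∈ HE (E⁄(AlgebraicClosure ℚ)) v ∧ Q ∈ HE (E⁄(AlgebraicClosure ℚ)) v)
    (z : Z0N fun _ : Fin 2 => E⁄(AlgebraicClosure ℚ))
    (hz : ∀ σ : AlgebraicClosure ℚ ≃ₐ[L] AlgebraicClosure ℚ,
      z.mapDomain (fun p i => galL E σ (p i)) = z)
    (hdeg : z.sum (fun _ n => n) = 0) (hsum : ∀ i, z.sum (fun p n => n • p i) = 0)
    (hsupp : ∀ p ∈ z.support, ∀ i x y h, p i = Affine.Point.some x y h → x ∈ F ∧ y ∈ F) :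
    ∃ M : ℕ, 0 < M ∧ M • z ∈ RatEqN fun _ : Fin 2 => E⁄(AlgebraicClosure ℚ) := by
  have hFs : ∀ σ : AlgebraicClosure ℚ ≃ₐ[L] AlgebraicClosure ℚ, ∀ x ∈ F, σ x ∈ F := by
    intro σ x hx
    have hgal : IsGalois L (AlgebraicClosure ℚ) := by
      have h0 : Algebra.IsAlgebraic ℚ (AlgebraicClosure ℚ) := AlgebraicClosure.isAlgebraic ℚ
      have h : IsAlgClosure L (AlgebraicClosure ℚ) :=
        ⟨inferInstance, Algebra.IsAlgebraic.tower_top (K := ℚ) L⟩
      exact IsAlgClosure.isGalois L (AlgebraicClosure ℚ)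
    rw [← InfiniteGalois.fixedField_fixingSubgroup F, IntermediateField.mem_fixedField_iff]
    intro τ hτ
    have h1 : ∀ y ∈ F, τ y = y := fun y hy => (IntermediateField.mem_fixingSubgroup_iff F τ).1 hτ y hy
    have h2 := hF (τ * σ) x hx
    have h3 : τ (σ (τ (σ x))) = x := h2
    have h4 : σ (τ (σ x)) = x := by
      have h5 := h1 x hx
      apply τ.injective
      rw [h3, h5]
    apply σ.injective
    rw [h4, hF σ x hx]
  set U : AddSubgroup (E⁄(AlgebraicClosure ℚ)).toAffine.Point :=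
    { carrier := {P | ∀ σ : AlgebraicClosure ℚ ≃ₐ[L] AlgebraicClosure ℚ, (∀ x ∈ F, σ x = x) →
        galL E σ P = P}
      zero_mem' := fun σ _ => map_zero _
      add_mem' := fun {P Q} hP hQ σ hσ => by rw [map_add, hP σ hσ, hQ σ hσ]
      neg_mem' := fun {P} hP σ hσ => by rw [map_neg, hP σ hσ] } with hUd
  have hUF : ∀ P ∈ U, ∀ x y h, P = Affine.Point.some x y h → x ∈ F ∧ y ∈ F := by
    rintro P hP x y h rfl
    have hgal : IsGalois L (AlgebraicClosure ℚ) := by
      have h0 : Algebra.IsAlgebraic ℚ (AlgebraicClosure ℚ) := AlgebraicClosure.isAlgebraic ℚ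
      have h : IsAlgClosure L (AlgebraicClosure ℚ) :=
        ⟨inferInstance, Algebra.IsAlgebraic.tower_top (K := ℚ) L⟩
      exact IsAlgClosure.isGalois L (AlgebraicClosure ℚ)
    have h1 : ∀ σ ∈ F.fixingSubgroup, σ x = x ∧ σ y = y := by
      intro σ hσ
      have h3 := hP σ fun y hy => (IntermediateField.mem_fixingSubgroup_iff F σ).1 hσ y hy
      exact (Affine.Point.some.injEq _ _ _ _ _ _).mp h3
    rw [← InfiniteGalois.fixedField_fixingSubgroup F, IntermediateField.mem_fixedField_iff,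
      IntermediateField.mem_fixedField_iff]
    exact ⟨fun σ hσ => (h1 σ hσ).1, fun σ hσ => (h1 σ hσ).2⟩
  have hFU : ∀ P : (E⁄(AlgebraicClosure ℚ)).toAffine.Point,
      (∀ x y h, P = Affine.Point.some x y h → x ∈ F ∧ y ∈ F) → P ∈ U := by
    intro P hP σ hσ
    exact galL_eq_mq E σ fun x y h e => ⟨hσ x (hP x y h e).1, hσ y (hP x y h e).2⟩
  refine main_mq_aux E hE U ?_ ?_ ?_ z hz hdeg hsum fun p hp i => hFU _ (hsupp p hp i)
  · intro σ P hP
    refine hFU _ fun x y h e => ?_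
    rcases P with _ | ⟨x', y', h'⟩
    · have h1 : galL E σ 0 = 0 := map_zero _
      exact absurd (h1.symm.trans e) (by simp)
    · obtain ⟨hx, hy⟩ := hUF _ hP x' y' h' rfl
      obtain ⟨h2, h3⟩ := galL_some_mq E σ h'
      rw [h3] at e
      have e2 := (Affine.Point.some.injEq _ _ _ _ _ _).mp e
      rw [← e2.1, ← e2.2]
      exact ⟨hFs σ x' hx, hFs σ y' hy⟩
  · intro σ P hP
    rcases P with _ | ⟨x', y', h'⟩
    · have h1 : galL E σ 0 = 0 := map_zero _
      change galL E σ (galL E σ 0) = 0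
      rw [h1, h1]
    · obtain ⟨hx, hy⟩ := hUF _ hP x' y' h' rfl
      obtain ⟨h2, h3⟩ := galL_some_mq E σ h'
      rw [h3]
      obtain ⟨h4, h5⟩ := galL_some_mq E σ h2
      rw [h5]
      exact (Affine.Point.some.injEq _ _ _ _ _ _).mpr ⟨hF σ x' hx, hF σ y' hy⟩
  · intro P hP Q hQ h
    rcases hr P Q (hUF P hP) (hUF Q hQ) h with ⟨a, b, hab, e⟩ | h1
    · exact dep_mq _ (inferInstanceAs (E.map (algebraMap L (AlgebraicClosure ℚ))).IsElliptic) hab e
    · exact h1

end Pool.Agent.ZCQL
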