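import Pool.Agent.ZCQK.Gal1

/-!
# The action of the Galois group on points
-/

set_option autoImplicit false

noncomputable section

namespace Pool.Agent.ZCQL

open WeierstrassCurve Pool.Agent.ZC Pool.Agent.ZCQ Pool.Agent.ZCQK
open scoped Classical

/-- The action of the Galois group of `ℚ̄` over `L` on the points of a curve over `ℚ`. -/
def gal (L : IntermediateField ℚ (AlgebraicClosure ℚ)) (W : WeierstrassCurve ℚ) :
    L.fixingSubgroup →* AddMonoid.End (W⁄(AlgebraicClosure ℚ)).toAffine.Point where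
  toFun τ := gact W (τ : AlgebraicClosure ℚ ≃ₐ[ℚ] AlgebraicClosure ℚ)
  map_one' := by
    ext P
    rcases P with _ | ⟨x, y, h⟩ <;> rfl
  map_mul' σ τ := by
    ext P
    rcases P with _ | ⟨x, y, h⟩ <;> rfl

/-- the coordinates of a point -/
private def co {W : WeierstrassCurve (AlgebraicClosure ℚ)} :
    W.toAffine.Point → Option (AlgebraicClosure ℚ × AlgebraicClosure ℚ)
  | 0 => none
  | .some x y _ => some (x, y)

private theorem co_injective {W : WeierstrassCurve (AlgebraicClosure ℚ)} :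
    Function.Injective (co (W := W)) := by
  intro P Q h
  rcases P with _ | ⟨x, y, hP⟩ <;> rcases Q with _ | ⟨x', y', hQ⟩
  · rfl
  · exact absurd h (by simp [co])
  · exact absurd h (by simp [co])
  · have h1 : (some (x, y) : Option (AlgebraicClosure ℚ × AlgebraicClosure ℚ)) =
        some (x', y') := h
    rw [Option.some.injEq, Prod.mk.injEq] at h1
    obtain ⟨rfl, rfl⟩ := h1
    rfl

private theorem conj_mem (τ : AlgebraicClosure ℚ ≃ₐ[ℚ] AlgebraicClosure ℚ)
    (x : AlgebraicClosure ℚ) : τ x ∈ (minpoly ℚ x).rootSet (AlgebraicClosure ℚ) := by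
  have hx : IsIntegral ℚ x := (AlgebraicClosure.isAlgebraic ℚ).isAlgebraic x |>.isIntegral
  rw [Polynomial.mem_rootSet]
  refine ⟨minpoly.ne_zero hx, ?_⟩
  have h1 := Polynomial.aeval_algHom_apply τ.toAlgHom x (minpoly ℚ x)
  rw [minpoly.aeval, map_zero] at h1
  exact h1

/- PROOF. The conjugates of the coordinates are roots of their minimal polynomials over `ℚ`. -/
theorem gal_finite (L : IntermediateField ℚ (AlgebraicClosure ℚ)) (W : WeierstrassCurve ℚ)
    (P : (W⁄(AlgebraicClosure ℚ)).toAffine.Point) :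
    (Set.range fun τ => gal L W τ P).Finite := by
  rcases P with _ | ⟨x, y, h⟩
  · refine (Set.finite_singleton
      (0 : (W⁄(AlgebraicClosure ℚ)).toAffine.Point)).subset ?_
    rintro _ ⟨τ, rfl⟩
    exact map_zero _
  · refine Set.Finite.of_finite_image (f := co) ?_ co_injective.injOn
    refine ((((minpoly ℚ x).rootSet_finite (AlgebraicClosure ℚ)).prod
      ((minpoly ℚ y).rootSet_finite (AlgebraicClosure ℚ))).image some).subset ?_
    rintro _ ⟨_, ⟨τ, rfl⟩, rfl⟩
    exact ⟨((τ : AlgebraicClosure ℚ ≃ₐ[ℚ] AlgebraicClosure ℚ) x,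
      (τ : AlgebraicClosure ℚ ≃ₐ[ℚ] AlgebraicClosure ℚ) y), ⟨conj_mem _ x, conj_mem _ y⟩, rfl⟩

/- PROOF. `InfiniteGalois.fixedField_fixingSubgroup` (see ZCInf/Gal.lean) for the two coordinates. -/
theorem gal_fixed {L : IntermediateField ℚ (AlgebraicClosure ℚ)} {W : WeierstrassCurve ℚ}
    {x y : AlgebraicClosure ℚ} (h : (W⁄(AlgebraicClosure ℚ)).toAffine.Nonsingular x y)
    (hP : ∀ τ, gal L W τ (Affine.Point.some x y h) = Affine.Point.some x y h) : x ∈ L ∧ y ∈ L := by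
  have hgal : IsGalois ℚ (AlgebraicClosure ℚ) := by
    have h : IsAlgClosure ℚ (AlgebraicClosure ℚ) :=
      ⟨inferInstance, AlgebraicClosure.isAlgebraic ℚ⟩
    exact IsAlgClosure.isGalois ℚ (AlgebraicClosure ℚ)
  have h1 : ∀ τ : L.fixingSubgroup, (τ : AlgebraicClosure ℚ ≃ₐ[ℚ] AlgebraicClosure ℚ) x = x ∧
      (τ : AlgebraicClosure ℚ ≃ₐ[ℚ] AlgebraicClosure ℚ) y = y := by
    intro τ
    have h3 := hP τ
    have h4 : ((τ : AlgebraicClosure ℚ ≃ₐ[ℚ] AlgebraicClosure ℚ).toAlgHom x = x ∧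
        (τ : AlgebraicClosure ℚ ≃ₐ[ℚ] AlgebraicClosure ℚ).toAlgHom y = y) :=
      (Affine.Point.some.injEq _ _ _ _ _ _).mp h3
    exact h4
  rw [← InfiniteGalois.fixedField_fixingSubgroup L, IntermediateField.mem_fixedField_iff,
    IntermediateField.mem_fixedField_iff]
  exact ⟨fun σ hσ => (h1 ⟨σ, hσ⟩).1, fun σ hσ => (h1 ⟨σ, hσ⟩).2⟩

theorem gal_up (L : IntermediateField ℚ (AlgebraicClosure ℚ)) (W : WeierstrassCurve ℚ)
    (g : W.toAffine.Point) (τ : L.fixingSubgroup) : gal L W τ (up W g) = up W g := by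
  rcases g with _ | ⟨x, y, h⟩
  · exact map_zero _
  · have h1 : (τ : AlgebraicClosure ℚ ≃ₐ[ℚ] AlgebraicClosure ℚ).toAlgHom
        (algebraMap ℚ (AlgebraicClosure ℚ) x) = algebraMap ℚ (AlgebraicClosure ℚ) x ∧
        (τ : AlgebraicClosure ℚ ≃ₐ[ℚ] AlgebraicClosure ℚ).toAlgHom
        (algebraMap ℚ (AlgebraicClosure ℚ) y) = algebraMap ℚ (AlgebraicClosure ℚ) y :=
      ⟨AlgHom.commutes _ x, AlgHom.commutes _ y⟩
    exact (Affine.Point.some.injEq _ _ _ _ _ _).mpr h1

end Pool.Agent.ZCQL
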