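import Pool.Agent.ZCQL.Final3

/-!
# Zero-cycles supported on rational points

The first part of the theorem: zero-cycles on the products of the two curves `E₀`, `E₁` which are
supported on points with coordinates in a field `L` over which the curves have the ranks `4`, `3`.
-/

set_option autoImplicit false

noncomputable section

namespace Pool.Agent.ZCQL

open WeierstrassCurve Pool.Agent.ZC Pool.Agent.ZCQ Pool.Agent.ZCQK
open scoped Classical

/-- Points with coordinates in `L` are fixed by the Galois group of `L`. -/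
private theorem galL_of_mem_rc {L : IntermediateField ℚ (AlgebraicClosure ℚ)}
    {W : WeierstrassCurve L} (σ : AlgebraicClosure ℚ ≃ₐ[L] AlgebraicClosure ℚ)
    {P : (W⁄(AlgebraicClosure ℚ)).toAffine.Point}
    (hP : ∀ x y h, P = Affine.Point.some x y h → x ∈ L ∧ y ∈ L) : galL W σ P = P := by
  rcases P with _ | ⟨x, y, h⟩
  · exact map_zero _
  · obtain ⟨hx, hy⟩ := hP x y h rfl
    have h3 : σ.toAlgHom x = x ∧ σ.toAlgHom y = y :=
      ⟨σ.commutes (⟨x, hx⟩ : L), σ.commutes (⟨y, hy⟩ : L)⟩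
    exact (Affine.Point.some.injEq _ _ _ _ _ _).mpr h3

private theorem tor_rc {L : IntermediateField ℚ (AlgebraicClosure ℚ)} {N : ℕ}
    (A : Fin N → WeierstrassCurve L) (hE : ∀ i, (A i).IsElliptic)
    (hA : ∀ i, ∀ P : ((A i)⁄(AlgebraicClosure ℚ)).toAffine.Point,
      (∀ σ : AlgebraicClosure ℚ ≃ₐ[L] AlgebraicClosure ℚ, galL (A i) σ P = P) →
      P ∈ HE ((A i)⁄(AlgebraicClosure ℚ)) (8 / 13))
    (z : Z0N fun i => (A i)⁄(AlgebraicClosure ℚ))
    (hz : ∀ p ∈ z.support, ∀ i x y h, p i = Affine.Point.some x y h → x ∈ L ∧ y ∈ L)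
    (hd : z.sum (fun _ n => n) = 0) (hs : ∀ i, z.sum (fun p n => n • p i) = 0) :
    ∃ M : ℕ, 0 < M ∧ M • z ∈ RatEqN fun i => (A i)⁄(AlgebraicClosure ℚ) := by
  have hfix : ∀ p ∈ z.support, ∀ i (σ : AlgebraicClosure ℚ ≃ₐ[L] AlgebraicClosure ℚ),
      galL (A i) σ (p i) = p i := fun p hp i σ => galL_of_mem_rc σ (hz p hp i)
  refine main_aux3.1 L N A z hE (fun σ => ?_) hd hs (Or.inr ⟨8 / 13, fun p hp => ?_⟩)
  · have h1 : z.mapDomain (fun p i => galL (A i) σ (p i)) = z.mapDomain id :=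
      Finsupp.mapDomain_congr fun p hp => funext fun i => hfix p hp i σ
    rw [h1, Finsupp.mapDomain_id]
  · have hmem : ∀ i, p i ∈ HE ((A i)⁄(AlgebraicClosure ℚ)) (8 / 13) :=
      fun i => hA i (p i) (hfix p hp i)
    refine ⟨1, 1, fun _ => p, one_pos, by simp, fun _ => Or.inr ⟨8 / 13, hmem⟩, ?_, ?_⟩
    · intro _ i P hP _
      refine (AddSubgroup.closure_le _).2 ?_ hP
      rintro _ ⟨σ, rfl⟩
      change galL (A i) σ (p i) ∈ HE ((A i)⁄(AlgebraicClosure ℚ)) (8 / 13)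
      rw [hfix p hp i σ]
      exact hmem i
    · intro K _ τ
      exact ⟨τ 0, fun k _ i => by rw [Subsingleton.elim k 0]⟩

/-- The zero-cycles on the products of copies of `E₀` and `E₁` which are supported on points with
coordinates in a field `L`, over which the curves have the ranks `4` and `3`. -/
theorem main_rc (E : Fin 2 → WeierstrassCurve ℚ) (h0 : E 0 = ⟨0, -10660, 0, 28138500, 0⟩)
    (h1 : E 1 = ⟨0, 1430, 0, -5272800, 0⟩) (L : IntermediateField ℚ (AlgebraicClosure ℚ)) :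
    ((L = ⊥ ∨ QF L) → ∀ n : Fin 2,
      Module.finrank ℤ ((E n)⁄L).toAffine.Point = 4 - (n : ℕ)) ∧
    ∀ (N : ℕ) (c : Fin N → Fin 2) (z : Z0N fun i => (E (c i))⁄(AlgebraicClosure ℚ)),
      (∀ i, Module.finrank ℤ ((E (c i))⁄L).toAffine.Point = 4 - (c i : ℕ)) →
      (∀ p ∈ z.support, ∀ i x y h, p i = Affine.Point.some x y h → x ∈ L ∧ y ∈ L) →
      z.sum (fun _ n => n) = 0 → (∀ i, z.sum (fun p n => n • p i) = 0) →
      ∃ M : ℕ, 0 < M ∧ M • z ∈ RatEqN fun i => (E (c i))⁄(AlgebraicClosure ℚ) := by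
  obtain ⟨-, -, F, hell, -, -, f0, f1, hHE, hrk, -, -⟩ := main_aux3
  have hEF : ∀ n : Fin 2, E n = F (n : ℕ) := by
    intro n
    fin_cases n
    · exact h0.trans f0.symm
    · exact h1.trans f1.symm
  refine ⟨fun hL n => ?_, ?_⟩
  · rw [hEF n]
    exact hrk n n.2 L hL
  · intro N c
    have key : ∀ (W : Fin N → WeierstrassCurve (AlgebraicClosure ℚ)),
        (fun i => ((F (c i : ℕ))⁄L)⁄(AlgebraicClosure ℚ)) = W → ∀ z : Z0N W,
        (∀ i, Module.finrank ℤ ((F (c i : ℕ))⁄L).toAffine.Point = 4 - (c i : ℕ)) →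
        (∀ p ∈ z.support, ∀ i x y h, p i = Affine.Point.some x y h → x ∈ L ∧ y ∈ L) →
        z.sum (fun _ n => n) = 0 → (∀ i, z.sum (fun p n => n • p i) = 0) →
        ∃ M : ℕ, 0 < M ∧ M • z ∈ RatEqN W := by
      rintro W rfl z hr hz hd hs
      refine tor_rc (fun i => (F (c i : ℕ))⁄L) (fun i => ?_) (fun i P hP => ?_) z hz hd hs
      · have := hell (c i : ℕ)
        exact inferInstanceAs ((F (c i : ℕ)).map (algebraMap ℚ L)).IsElliptic
      · exact hHE _ (c i).2 L (hr i) P hP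
    have hW : (fun i => ((F (c i : ℕ))⁄L)⁄(AlgebraicClosure ℚ)) =
        fun i => (E (c i))⁄(AlgebraicClosure ℚ) :=
      funext fun i => by rw [base_base, hEF]
    intro z hr
    refine key _ hW z fun i => ?_
    rw [← hEF]
    exact hr i

end Pool.Agent.ZCQL
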