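import Pool.Agent.ZCQL.Avg
import Pool.Agent.ZCQL.Cj
import Pool.Agent.ZCQL.Orb
import Pool.Agent.ZCQK.Sat

/-!
# Galois-invariant zero-cycles
-/

set_option autoImplicit false

noncomputable section

namespace Pool.Agent.ZCQL

open Function WeierstrassCurve Pool.Agent.ZC Pool.Agent.ZCQ Pool.Agent.ZCQK
open scoped Classical

section

variable {I : Type} [Fintype I]

/-- Zero-cycles modulo rational equivalence and torsion. -/
abbrev QN (W : I → WeierstrassCurve (AlgebraicClosure ℚ)) : Type := Z0N W ⧸ satur (RatEqN W)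

/-- The class of a point. -/
def clN (W : I → WeierstrassCurve (AlgebraicClosure ℚ)) (p : PtN W) : QN W :=
  QuotientAddGroup.mk' (satur (RatEqN W)) (Finsupp.single p 1)

variable {W : I → WeierstrassCurve (AlgebraicClosure ℚ)}

omit [Fintype I] in
theorem mk_eq_zero (z : Z0N W) :
    QuotientAddGroup.mk' (satur (RatEqN W)) z = 0 ↔ ∃ M : ℕ, 0 < M ∧ M • z ∈ RatEqN W :=
  QuotientAddGroup.eq_zero_iff z

omit [Fintype I] in
theorem QN_torsion (n : ℕ) (a : QN W) (hn : 0 < n) (h : n • a = 0) : a = 0 := by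
  obtain ⟨z, rfl⟩ := QuotientAddGroup.mk'_surjective (satur (RatEqN W)) a
  rw [← map_nsmul] at h
  have h1 : n • z ∈ satur (RatEqN W) := (QuotientAddGroup.eq_zero_iff _).1 h
  exact (QuotientAddGroup.eq_zero_iff z).2 (satur_sat hn h1)

omit [Fintype I] in
theorem mk_eq_sum (z : Z0N W) :
    QuotientAddGroup.mk' (satur (RatEqN W)) z = z.sum fun p n => n • clN W p := by
  conv_lhs => rw [← Finsupp.sum_single z]
  rw [Finsupp.sum, map_sum]
  apply Finset.sum_congr rfl
  intro p _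
  change _ = z p • QuotientAddGroup.mk' (satur (RatEqN W)) (Finsupp.single p 1)
  rw [← map_zsmul]
  congr 1
  rw [Finsupp.smul_single, smul_eq_mul, mul_one]

omit [Fintype I] in
private theorem mk_mem {z : Z0N W} (h : z ∈ RatEqN W) :
    QuotientAddGroup.mk' (satur (RatEqN W)) z = 0 :=
  (QuotientAddGroup.eq_zero_iff z).2 (le_satur _ h)

omit [Fintype I] in
theorem clN_aff (hW : ∀ i, (W i).IsElliptic) : Aff (clN W) := by
  intro x i a b
  have := hW i
  have h := mk_mem (RatEqN.push1 x i (two_add_left (W i) a b 0))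
  have e : Finsupp.mapDomain (fun ab : (W i).toAffine.Point × (W i).toAffine.Point =>
      update x i ab.1) ((2 : ℕ) • (Finsupp.single (a + b, (0 : (W i).toAffine.Point)) (1 : ℤ) -
        Finsupp.single (a, 0) 1 - Finsupp.single (b, 0) 1 + Finsupp.single (0, 0) 1)) =
      (2 : ℕ) • ((Finsupp.single (update x i (a + b)) (1 : ℤ) -
        Finsupp.single (update x i a) 1 - Finsupp.single (update x i b) 1 +
        Finsupp.single (update x i 0) 1 : Z0N W)) := by
    have h := map_nsmul (Finsupp.mapDomain.addMonoidHom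
      (fun ab : (W i).toAffine.Point × (W i).toAffine.Point => update x i ab.1) :
        Z0 (W i) (W i) →+ Z0N W) 2
      (Finsupp.single (a + b, (0 : (W i).toAffine.Point)) (1 : ℤ) -
        Finsupp.single (a, 0) 1 - Finsupp.single (b, 0) 1 + Finsupp.single (0, 0) 1)
    rw [map_add, map_sub, map_sub] at h
    simp only [Finsupp.mapDomain.addMonoidHom_apply, Finsupp.mapDomain_single] at h
    exact h
  rw [e, map_nsmul, map_add, map_sub, map_sub] at h
  have h1 := QN_torsion 2 _ two_pos h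
  have h2 : clN W (update x i (a + b)) - clN W (update x i a) - clN W (update x i b) +
      clN W (update x i 0) = 0 := h1
  rw [← sub_eq_zero, ← h2]
  abel

omit [Fintype I] in
theorem clN_orth {i j : I} (hij : i ≠ j) {u : AlgebraicClosure ℚ} {a : (W i).toAffine.Point}
    (ha : a ∈ SetE (W i) u) {b : (W j).toAffine.Point} (hb : b ∈ SetE (W j) u) :
    Orth (clN W) i j a b := by
  intro x
  have h := mk_mem (RatEqN.push2 x hij (SetE.sym ha hb))
  have e : Finsupp.mapDomain (ins2 x i j) ((2 : ℕ) • sym a b) =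
      (2 : ℕ) • ((Finsupp.single (update (update x i a) j b) (1 : ℤ) -
        Finsupp.single (update (update x i a) j 0) 1 -
        Finsupp.single (update (update x i 0) j b) 1 +
        Finsupp.single (update (update x i 0) j 0) 1 : Z0N W)) := by
    have h := map_nsmul (Finsupp.mapDomain.addMonoidHom (ins2 x i j) :
        Z0 (W i) (W j) →+ Z0N W) 2 (sym a b)
    unfold sym at h
    rw [map_add, map_sub, map_sub] at h
    simp only [Finsupp.mapDomain.addMonoidHom_apply, Finsupp.mapDomain_single] at h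
    exact h
  rw [e, map_nsmul, map_add, map_sub, map_sub] at h
  exact QN_torsion 2 _ two_pos h

omit [Fintype I] in
theorem clN_orth_satur (hW : ∀ i, (W i).IsElliptic) {i j : I} (hij : i ≠ j)
    {S : Set (W i).toAffine.Point} {T : Set (W j).toAffine.Point} {u : AlgebraicClosure ℚ}
    (hS : ∀ a ∈ S, a ∈ SetE (W i) u) (hT : ∀ b ∈ T, b ∈ SetE (W j) u)
    {a : (W i).toAffine.Point} (ha : a ∈ satur (AddSubgroup.closure S))
    {b : (W j).toAffine.Point} (hb : b ∈ satur (AddSubgroup.closure T)) :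
    Orth (clN W) i j a b := by
  obtain ⟨m, hm, ha'⟩ := ha
  obtain ⟨n, hn, hb'⟩ := hb
  exact orth_closure (clN_aff hW) (fun n a hn h => QN_torsion n a hn h) hij
    (fun a ha b hb => clN_orth hij (hS a ha) (hT b hb)) hm hn ha' hb'

end

/-- The saturation of the subgroup generated by the points of `E` which come from points with
abscissa `u` of Legendre curves. -/
def HE (E : WeierstrassCurve (AlgebraicClosure ℚ)) (u : AlgebraicClosure ℚ) :
    AddSubgroup E.toAffine.Point :=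
  satur (AddSubgroup.closure (SetE E u))

theorem gal_mem_HE {L : IntermediateField ℚ (AlgebraicClosure ℚ)} {W : WeierstrassCurve ℚ}
    {u : AlgebraicClosure ℚ} {P : (W⁄(AlgebraicClosure ℚ)).toAffine.Point}
    (hP : P ∈ HE (W⁄(AlgebraicClosure ℚ)) u) (τ : L.fixingSubgroup) :
    gal L W τ P ∈ HE (W⁄(AlgebraicClosure ℚ))
      ((τ : AlgebraicClosure ℚ ≃ₐ[ℚ] AlgebraicClosure ℚ) u) := by
  obtain ⟨m, hm, h⟩ := hP
  refine ⟨m, hm, ?_⟩
  have h1 : m • gal L W τ P = gact W (τ : AlgebraicClosure ℚ ≃ₐ[ℚ] AlgebraicClosure ℚ) (m • P) := by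
    rw [map_nsmul]
    rfl
  rw [h1]
  have h2 : AddSubgroup.closure (SetE (W⁄(AlgebraicClosure ℚ)) u) ≤
      (AddSubgroup.closure (SetE (W⁄(AlgebraicClosure ℚ))
        ((τ : AlgebraicClosure ℚ ≃ₐ[ℚ] AlgebraicClosure ℚ) u))).comap
          (gact W (τ : AlgebraicClosure ℚ ≃ₐ[ℚ] AlgebraicClosure ℚ)) := by
    rw [AddSubgroup.closure_le]
    intro a ha
    exact AddSubgroup.subset_closure (gact_mem_SetE W _ ha)
  exact h2 h

theorem gal_sq {L : IntermediateField ℚ (AlgebraicClosure ℚ)} {W : WeierstrassCurve ℚ} {r : ℕ}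
    {P : Fin r → W.toAffine.Point} {a : (W⁄(AlgebraicClosure ℚ)).toAffine.Point}
    (ha : a ∈ sq W P) (τ : L.fixingSubgroup) :
    ∃ n : ℕ, 0 < n ∧ n • (gal L W τ a) = n • a := by
  obtain ⟨m, hm, h⟩ := ha
  refine ⟨m, hm, ?_⟩
  have h2 : AddSubgroup.closure (Set.range fun i => up W (P i)) ≤
      (gact W (τ : AlgebraicClosure ℚ ≃ₐ[ℚ] AlgebraicClosure ℚ) - AddMonoidHom.id _).ker := by
    rw [AddSubgroup.closure_le]
    rintro _ ⟨i, rfl⟩
    have h3 : gact W (τ : AlgebraicClosure ℚ ≃ₐ[ℚ] AlgebraicClosure ℚ) (up W (P i)) =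
        up W (P i) := gal_up L W (P i) τ
    change gact W (τ : AlgebraicClosure ℚ ≃ₐ[ℚ] AlgebraicClosure ℚ) (up W (P i)) -
      up W (P i) = 0
    rw [h3, sub_self]
  have h3 : gact W (τ : AlgebraicClosure ℚ ≃ₐ[ℚ] AlgebraicClosure ℚ) (m • a) - m • a = 0 := h2 h
  rw [map_nsmul, sub_eq_zero] at h3
  exact h3

theorem cycleGal {N : ℕ} (E : Fin N → WeierstrassCurve ℚ) (hE : ∀ i, (E i).IsElliptic) (u : ℚ)
    (r : Fin N → ℕ) (P : (i : Fin N) → Fin (r i) → (E i).toAffine.Point)
    (hP : ∀ i l, up (E i) (P i l) ∈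
      SetE ((E i)⁄(AlgebraicClosure ℚ)) (algebraMap ℚ (AlgebraicClosure ℚ) u))
    (L : IntermediateField ℚ (AlgebraicClosure ℚ)) (z : Z0N fun i => (E i)⁄(AlgebraicClosure ℚ))
    (hz : ∀ τ : L.fixingSubgroup, z.mapDomain (fun p i => gal L (E i) τ (p i)) = z)
    (hsupp : ∀ p ∈ z.support, ∃ v, ∀ i,
      p i ∈ sq (E i) (P i) ⊔ HE ((E i)⁄(AlgebraicClosure ℚ)) v)
    (htr : ∀ p ∈ z.support, ∀ i, trc (gal L (E i)) (p i) ∈ sq (E i) (P i))
    (hd : z.sum (fun _ n => n) = 0) (hs : ∀ i, z.sum (fun p n => n • p i) = 0) :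
    ∃ M : ℕ, 0 < M ∧ M • z ∈ RatEqN fun i => (E i)⁄(AlgebraicClosure ℚ) := by
  have hW : ∀ i, ((E i)⁄(AlgebraicClosure ℚ)).IsElliptic := by
    intro i
    have h1 := hE i
    have h2 : ((E i).map (algebraMap ℚ (AlgebraicClosure ℚ))).IsElliptic := inferInstance
    exact h2
  rw [← mk_eq_zero, mk_eq_sum]
  refine avg (clN_aff hW) (fun n a hn h => QN_torsion n a hn h) (fun i => gal L (E i))
    (fun i => sq (E i) (P i)) (fun i j hij a ha b hb => ?_)
    (fun i a n hn h => satur_sat hn h) (fun i a ha τ => gal_sq ha τ)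
    (fun i x => gal_finite L (E i) x) z hz (fun p hp => ?_) htr hd hs
  · refine clN_orth_satur hW hij (u := algebraMap ℚ (AlgebraicClosure ℚ) u) ?_ ?_ ha hb
    · rintro _ ⟨l, rfl⟩
      exact hP i l
    · rintro _ ⟨l, rfl⟩
      exact hP j l
  · obtain ⟨v, hv⟩ := hsupp p hp
    have h1 : ∀ i, ∃ g ∈ sq (E i) (P i), ∃ h ∈ HE ((E i)⁄(AlgebraicClosure ℚ)) v, g + h = p i :=
      fun i => AddSubgroup.mem_sup.1 (hv i)
    choose g hg h hh hgh using h1
    refine ⟨h, fun i => ?_, fun τ i j hij => ?_⟩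
    · rw [← hgh i, add_sub_cancel_right]
      exact hg i
    · exact clN_orth_satur hW hij (fun a ha => ha) (fun b hb => hb)
        (gal_mem_HE (hh i) τ) (gal_mem_HE (hh j) τ)

end Pool.Agent.ZCQL
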