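import Pool.Agent.ZCQL.AltFormN
import Pool.Agent.ZCQL.RankCor

/-!
# Points of trace zero

`trF`: the trace of a point over a finite extension `F` of `L`. `rank_ge_tr`: the rank over `F` is
at least the rank over `L` plus the number of independent points of trace zero. `rank_dep`: if the
rank grows by at most one, two points of trace zero are dependent. `dep_HE`, `tor_HE`: dependent
points and torsion points are in common groups `HE`.
-/

set_option autoImplicit false

noncomputable section

namespace Pool.Agent.ZCQL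

open WeierstrassCurve Pool.Agent.ZC Pool.Agent.ZCQ Pool.Agent.ZCQK
open scoped Classical

variable {L : IntermediateField ℚ (AlgebraicClosure ℚ)}

/-- The trace of a point over the finite extension `F` of `L`. -/
def trF (F : IntermediateField L (AlgebraicClosure ℚ)) [FiniteDimensional L F]
    (E : WeierstrassCurve L) :
    (E⁄F).toAffine.Point →+ (E⁄(AlgebraicClosure ℚ)).toAffine.Point :=
  ∑ σ : F →ₐ[L] AlgebraicClosure ℚ, Affine.Point.map (W' := E.toAffine) σ

theorem trF_apply (F : IntermediateField L (AlgebraicClosure ℚ)) [FiniteDimensional L F]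
    (E : WeierstrassCurve L) (P : (E⁄F).toAffine.Point) :
    trF F E P = ∑ σ : F →ₐ[L] AlgebraicClosure ℚ, Affine.Point.map (W' := E.toAffine) σ P := by
  rw [trF, AddMonoidHom.finsetSum_apply]

/-- Points with a multiple in a group `HE`. -/
private theorem HE_sat {E : WeierstrassCurve (AlgebraicClosure ℚ)} {v : AlgebraicClosure ℚ}
    {P : E.toAffine.Point} {a : ℤ} (ha : a ≠ 0) (h : a • P ∈ HE E v) : P ∈ HE E v := by
  refine satur_sat (Int.natAbs_pos.2 ha) ?_
  change a.natAbs • P ∈ HE E v
  rcases Int.natAbs_eq a with h1 | h1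
  · rw [h1, natCast_zsmul] at h
    exact h
  · rw [h1, neg_smul, natCast_zsmul] at h
    exact neg_mem_iff.1 h

/-- Dependent points are in a common group `HE`. -/
theorem dep_HE {E : WeierstrassCurve (AlgebraicClosure ℚ)} (hE : E.IsElliptic)
    {P Q : E.toAffine.Point} {a c : ℤ} (h : a ≠ 0 ∨ c ≠ 0) (e : a • P + c • Q = 0) :
    ∃ v, P ∈ HE E v ∧ Q ∈ HE E v := by
  by_cases hc : c = 0
  · obtain ⟨v, hv⟩ := exists_HE E Q
    refine ⟨v, HE_sat (h.resolve_right (not_not.2 hc)) ?_, hv⟩
    rw [hc, zero_zsmul, add_zero] at e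
    rw [e]
    exact (HE E v).zero_mem
  · obtain ⟨v, hv⟩ := exists_HE E P
    refine ⟨v, hv, HE_sat hc ?_⟩
    rw [eq_neg_of_add_eq_zero_right e]
    exact (HE E v).neg_mem ((HE E v).zsmul_mem hv a)

/-- Two points, one of them torsion, are in groups `HE` with the same abscissa. -/
theorem tor_HE {E E' : WeierstrassCurve (AlgebraicClosure ℚ)} (hE' : E'.IsElliptic)
    {P : E.toAffine.Point} {Q : E'.toAffine.Point} {a : ℤ} (h : a ≠ 0) (e : a • P = 0) :
    ∃ v, P ∈ HE E v ∧ Q ∈ HE E' v := by
  obtain ⟨v, hv⟩ := exists_HE E' Q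
  refine ⟨v, HE_sat h ?_, hv⟩
  rw [e]
  exact (HE E v).zero_mem

/-- Points over `L` as points over `F`. -/
theorem exists_upF (W : WeierstrassCurve L) (F : IntermediateField L (AlgebraicClosure ℚ)) :
    ∃ f : W.toAffine.Point →+ (W⁄F).toAffine.Point, Function.Injective f ∧
      ∀ (σ : F →ₐ[L] AlgebraicClosure ℚ) P, Affine.Point.map (W' := W.toAffine) σ (f P) =
        Affine.Point.map (W' := W.toAffine) F.val (f P) := by
  have key : ∀ W₁ : WeierstrassCurve L, W₁ = W⁄L →
      ∃ f : W₁.toAffine.Point →+ (W⁄F).toAffine.Point, Function.Injective f ∧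
      ∀ (σ : F →ₐ[L] AlgebraicClosure ℚ) P, Affine.Point.map (W' := W.toAffine) σ (f P) =
        Affine.Point.map (W' := W.toAffine) F.val (f P) := by
    rintro W₁ rfl
    refine ⟨Affine.Point.map (W' := W.toAffine) (Algebra.ofId L F), Affine.Point.map_injective _,
      fun σ P => ?_⟩
    rcases P with _ | ⟨x, y, h⟩
    · rfl
    · refine (Affine.Point.some.injEq _ _ _ _ _ _).mpr ⟨?_, ?_⟩
      · exact (σ.commutes x).trans (F.val.commutes x).symm
      · exact (σ.commutes y).trans (F.val.commutes y).symm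
  refine key W ?_
  change W = W.map (algebraMap L L)
  rw [Algebra.algebraMap_self, WeierstrassCurve.map_id]

/-- The rank over `F` is at least the rank over `L` plus the number of independent points of trace
zero. -/
theorem rank_ge_tr (W : WeierstrassCurve L) (F : IntermediateField L (AlgebraicClosure ℚ))
    [FiniteDimensional L F] {r k : ℕ} (hr : r ≤ Module.finrank ℤ W.toAffine.Point)
    (R : Fin k → (W⁄F).toAffine.Point) (hR : LinearIndependent ℤ R)
    (htr : ∀ i, trF F W (R i) = 0) :
    ((r + k : ℕ) : Cardinal) ≤ Module.rank ℤ (W⁄F).toAffine.Point := by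
  obtain ⟨f, hf, hfix⟩ := exists_upF W F
  obtain ⟨v, hv⟩ := exists_linearIndependent_of_le_finrank hr
  have hfv : LinearIndependent ℤ fun i => f (v i) :=
    hv.map' f.toIntLinearMap (LinearMap.ker_eq_bot.2 hf)
  set d : ℕ := Fintype.card (F →ₐ[L] AlgebraicClosure ℚ) with hd
  have hd0 : d ≠ 0 := by
    have : Nonempty (F →ₐ[L] AlgebraicClosure ℚ) := ⟨F.val⟩
    exact Fintype.card_ne_zero
  have htf : ∀ P, trF F W (f P) = d • Affine.Point.map (W' := W.toAffine) F.val (f P) := by
    intro P
    rw [trF_apply, Finset.sum_congr rfl fun σ _ => hfix σ P, Finset.sum_const, Finset.card_univ]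
  have h1 : LinearIndependent ℤ (Sum.elim (fun i => f (v i)) R) := by
    rw [Fintype.linearIndependent_iff] at hfv hR ⊢
    intro g hg
    rw [Fintype.sum_sum_type] at hg
    simp only [Sum.elim_inl, Sum.elim_inr] at hg
    set a : (W⁄F).toAffine.Point := ∑ i, g (Sum.inl i) • f (v i) with ha
    set c : (W⁄F).toAffine.Point := ∑ i, g (Sum.inr i) • R i with hc
    have htc : trF F W c = 0 := by
      rw [hc, map_sum]
      refine Finset.sum_eq_zero fun i _ => ?_
      rw [map_zsmul, htr, zsmul_zero]
    have hta : trF F W a = d • Affine.Point.map (W' := W.toAffine) F.val a := by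
      have h2 : a = f (∑ i, g (Sum.inl i) • v i) := by
        rw [ha, map_sum]
        exact Finset.sum_congr rfl fun i _ => (map_zsmul f _ _).symm
      rw [h2, htf]
    have h3 : d • Affine.Point.map (W' := W.toAffine) F.val a = 0 := by
      have h4 := congrArg (trF F W) hg
      rwa [map_add, htc, hta, add_zero, map_zero] at h4
    have h5 : d • a = 0 := by
      refine Affine.Point.map_injective (W' := W.toAffine) F.val ?_
      rw [map_nsmul, h3, map_zero]
    have h6 : ∑ i, ((d : ℤ) * g (Sum.inl i)) • f (v i) = 0 := by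
      rw [← h5, ha, Finset.smul_sum]
      refine Finset.sum_congr rfl fun i _ => ?_
      rw [mul_zsmul, natCast_zsmul]
    have h7 : ∀ i, g (Sum.inl i) = 0 := by
      intro i
      rcases mul_eq_zero.1 (hfv _ h6 i) with h8 | h8
      · exact absurd (Int.natCast_eq_zero.1 h8) hd0
      · exact h8
    have h8 : c = 0 := by
      have h9 : a = 0 := by
        rw [ha]
        refine Finset.sum_eq_zero fun i _ => ?_
        rw [h7 i, zero_zsmul]
      rwa [h9, zero_add] at hg
    rintro (i | i)
    · exact h7 i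
    · exact hR _ h8 i
  have h9 := h1.cardinal_le_rank
  rwa [Cardinal.mk_sum, Cardinal.mk_fin, Cardinal.mk_fin, Cardinal.lift_natCast,
    Cardinal.lift_natCast, ← Nat.cast_add] at h9

/-- If the rank grows by at most one from `L` to `F`, two points over `F` of trace zero are
dependent. -/
theorem rank_dep (W : WeierstrassCurve L) (F : IntermediateField L (AlgebraicClosure ℚ))
    [FiniteDimensional L F] (h : Module.rank ℤ (W⁄F).toAffine.Point ≤
      ((Module.finrank ℤ W.toAffine.Point + 1 : ℕ) : Cardinal))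
    {P Q : (W⁄F).toAffine.Point} (hP : trF F W P = 0) (hQ : trF F W Q = 0) :
    ∃ a c : ℤ, (a ≠ 0 ∨ c ≠ 0) ∧ a • P + c • Q = 0 := by
  by_contra hno
  have h2 : LinearIndependent ℤ ![P, Q] := by
    rw [Fintype.linearIndependent_iff]
    intro g hg
    rw [Fin.sum_univ_two] at hg
    change g 0 • P + g 1 • Q = 0 at hg
    by_contra hne
    refine hno ⟨g 0, g 1, ?_, hg⟩
    by_contra h4
    push Not at h4
    refine hne fun k => ?_
    fin_cases k
    · exact h4.1
    · exact h4.2
  have h3 := (rank_ge_tr W F le_rfl ![P, Q] h2 fun i => by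
    fin_cases i
    · exact hP
    · exact hQ).trans h
  rw [Nat.cast_le] at h3
  omega

/-- Copies of the two curves of rank `4` and `3` over `L`, and a finite extension `F` of `L` such
that the sum of the ranks of the curves which occur grows by at most one: two points over `F` of
trace zero are in groups `HE` with the same abscissa. -/
theorem rankR_HE (E : Fin 2 → WeierstrassCurve ℚ) (h0 : E 0 = ⟨0, -10660, 0, 28138500, 0⟩)
    (h1 : E 1 = ⟨0, 1430, 0, -5272800, 0⟩) (F : IntermediateField L (AlgebraicClosure ℚ))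
    [FiniteDimensional L F] {N : ℕ} (c : Fin N → Fin 2)
    (hL : ∀ i, Module.finrank ℤ ((E (c i))⁄L).toAffine.Point = 4 - (c i : ℕ))
    (hR : ∑ n ∈ Finset.univ.image c, Module.rank ℤ (((E n)⁄L)⁄F).toAffine.Point ≤
      ((∑ n ∈ Finset.univ.image c, (4 - (n : ℕ)) + 1 : ℕ) : Cardinal))
    (i j : Fin N) {P : (((E (c i))⁄L)⁄F).toAffine.Point}
    {Q : (((E (c j))⁄L)⁄F).toAffine.Point} (hP : trF F ((E (c i))⁄L) P = 0)
    (hQ : trF F ((E (c j))⁄L) Q = 0) :
    ∃ v, Affine.Point.map (W' := ((E (c i))⁄L).toAffine) F.val P ∈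
        HE (((E (c i))⁄L)⁄(AlgebraicClosure ℚ)) v ∧
      Affine.Point.map (W' := ((E (c j))⁄L).toAffine) F.val Q ∈
        HE (((E (c j))⁄L)⁄(AlgebraicClosure ℚ)) v := by
  obtain ⟨-, -, W, hell, -, -, f0, f1, -, -, -, -⟩ := main_aux3
  have hEW : ∀ n : Fin 2, E n = W (n : ℕ) := by
    intro n
    fin_cases n
    · exact h0.trans f0.symm
    · exact h1.trans f1.symm
  have hell' : ∀ n, (((E n)⁄L)⁄(AlgebraicClosure ℚ)).IsElliptic := by
    intro n
    have h2 : (E n).IsElliptic := by
      rw [hEW n]
      exact hell n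
    exact inferInstanceAs (((E n).map (algebraMap ℚ L)).map
      (algebraMap L (AlgebraicClosure ℚ))).IsElliptic
  -- families of independent points of trace zero
  set K : Fin 2 → ℕ → Prop := fun n k => ∃ R : Fin k → (((E n)⁄L)⁄F).toAffine.Point,
    LinearIndependent ℤ R ∧ ∀ i, trF F ((E n)⁄L) (R i) = 0 with hK
  have hK0 : ∀ n, K n 0 := fun n =>
    ⟨fun i => i.elim0, linearIndependent_empty_type, fun i => i.elim0⟩
  have hsum : ∀ k : Fin 2 → ℕ, (∀ n, K n (k n)) → ∑ n ∈ Finset.univ.image c, k n ≤ 1 := by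
    intro k hk
    have h2 : ∑ n ∈ Finset.univ.image c, ((4 - (n : ℕ) + k n : ℕ) : Cardinal) ≤
        ∑ n ∈ Finset.univ.image c, Module.rank ℤ (((E n)⁄L)⁄F).toAffine.Point := by
      refine Finset.sum_le_sum fun n hn => ?_
      obtain ⟨i, -, rfl⟩ := Finset.mem_image.1 hn
      obtain ⟨R, hR1, hR2⟩ := hk (c i)
      exact rank_ge_tr ((E (c i))⁄L) F (hL i).ge R hR1 hR2
    have h3 := h2.trans hR
    rw [← Nat.cast_sum, Nat.cast_le, Finset.sum_add_distrib] at h3
    omega
  have hi : c i ∈ Finset.univ.image c := Finset.mem_image_of_mem c (Finset.mem_univ i)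
  have hj : c j ∈ Finset.univ.image c := Finset.mem_image_of_mem c (Finset.mem_univ j)
  revert P Q hP hQ
  generalize c i = n at hi
  generalize c j = n' at hj
  intro P Q hP hQ
  by_cases hn : n = n'
  · subst hn
    by_contra hno
    have h2 : LinearIndependent ℤ ![P, Q] := by
      rw [Fintype.linearIndependent_iff]
      intro g hg
      rw [Fin.sum_univ_two] at hg
      change g 0 • P + g 1 • Q = 0 at hg
      by_contra hne
      have h3 : g 0 ≠ 0 ∨ g 1 ≠ 0 := by
        by_contra h4
        push Not at h4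
        refine hne fun k => ?_
        fin_cases k
        · exact h4.1
        · exact h4.2
      refine hno (dep_HE (hell' n) h3 ?_)
      rw [← map_zsmul, ← map_zsmul, ← map_add, hg, map_zero]
    have h4 := hsum (fun m => if m = n then 2 else 0) fun m => by
      by_cases hm : m = n
      · subst hm
        rw [if_pos rfl]
        refine ⟨![P, Q], h2, fun k => ?_⟩
        fin_cases k
        · exact hP
        · exact hQ
      · rw [if_neg hm]
        exact hK0 m
    rw [Finset.sum_ite_eq', if_pos hi] at h4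
    omega
  · by_contra hno
    have one : ∀ (m : Fin 2) (S : (((E m)⁄L)⁄F).toAffine.Point), trF F ((E m)⁄L) S = 0 →
        (∀ a : ℤ, a ≠ 0 → a • S ≠ 0) → K m 1 := by
      intro m S hS h5
      refine ⟨fun _ => S, ?_, fun _ => hS⟩
      rw [Fintype.linearIndependent_iff]
      intro g hg k
      rw [Fin.sum_univ_one] at hg
      by_contra h6
      rw [Subsingleton.elim k 0] at h6
      exact h5 _ h6 hg
    have hPn : ∀ a : ℤ, a ≠ 0 → a • P ≠ 0 := by
      intro a ha e
      refine hno (tor_HE (hell' n') ha ?_)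
      rw [← map_zsmul, e, map_zero]
    have hQn : ∀ a : ℤ, a ≠ 0 → a • Q ≠ 0 := by
      intro a ha e
      obtain ⟨v, h5, h6⟩ := tor_HE (E := ((E n')⁄L)⁄(AlgebraicClosure ℚ)) (hell' n)
        (P := Affine.Point.map (W' := ((E n')⁄L).toAffine) F.val Q)
        (Q := Affine.Point.map (W' := ((E n)⁄L).toAffine) F.val P) ha (by
          rw [← map_zsmul, e, map_zero])
      exact hno ⟨v, h6, h5⟩
    have h4 := hsum (fun _ => 1) fun m => by
      have h7 : m = n ∨ m = n' := by omega
      rcases h7 with rfl | rfl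
      · exact one _ P hP hPn
      · exact one _ Q hQ hQn
    rw [Finset.sum_const, smul_eq_mul, mul_one] at h4
    exact hn (Finset.card_le_one.1 h4 n hi n' hj)

/-- The points over `L` of the two curves are in the groups `HE` of the abscissa `8 / 13`. -/
theorem rankR_L (E : Fin 2 → WeierstrassCurve ℚ) (h0 : E 0 = ⟨0, -10660, 0, 28138500, 0⟩)
    (h1 : E 1 = ⟨0, 1430, 0, -5272800, 0⟩) (n : Fin 2)
    (hL : Module.finrank ℤ ((E n)⁄L).toAffine.Point = 4 - (n : ℕ))
    (P : (((E n)⁄L)⁄(AlgebraicClosure ℚ)).toAffine.Point)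
    (hP : ∀ σ : AlgebraicClosure ℚ ≃ₐ[L] AlgebraicClosure ℚ, galL ((E n)⁄L) σ P = P) :
    P ∈ HE (((E n)⁄L)⁄(AlgebraicClosure ℚ)) (8 / 13) := by
  obtain ⟨-, -, W, hell, -, -, f0, f1, hHE, -, -, -⟩ := main_aux3
  have hEW : ∀ n : Fin 2, E n = W (n : ℕ) := by
    intro n
    fin_cases n
    · exact h0.trans f0.symm
    · exact h1.trans f1.symm
  revert hL P hP
  rw [hEW n]
  exact hHE n n.2 L

end Pool.Agent.ZCQL
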