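import Pool.Agent.ZCQL.Tower
import Pool.Agent.ZCQL.TrF

/-!
# Towers of fields and ranks

`rank_ge_trK`: the rank over `K'` is at least the rank over `K` plus the number of independent points over `K'` of trace
zero to `K`. `main_towerB`: Galois-invariant zero-cycles of degree and sum zero on a product of copies of elliptic curves
`B n` over `L` are torsion if every point in the support has its coordinates in the last field of a tower of finite
extensions of `L` such that the sum of the ranks of the curves `B n` rises by at most one at every step and is at most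
one over the first field (or any two points over the first field are in groups `HE` for a common abscissa).
-/

set_option autoImplicit false

noncomputable section

namespace Pool.Agent.ZCQL

open WeierstrassCurve Pool.Agent.ZC Pool.Agent.ZCQ Pool.Agent.ZCQK
open scoped Classical

variable {L : IntermediateField ℚ (AlgebraicClosure ℚ)}

/-- points over `K` as points over `K'` -/
theorem exists_upK (W : WeierstrassCurve L) (K K' : IntermediateField L (AlgebraicClosure ℚ))
    (hK : K ≤ K') : ∃ f : (W⁄K).toAffine.Point →+ (W⁄K').toAffine.Point, Function.Injective f ∧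
      ∀ P, toQbar K' W (f P) = toQbar K W P := by
  refine ⟨Affine.Point.map (W' := W.toAffine) (IntermediateField.inclusion hK),
    Affine.Point.map_injective _, fun P => ?_⟩
  rcases P with _ | ⟨x, y, h⟩
  · rfl
  · rfl

/-- The rank over `K'` is at least the rank over `K` plus the number of independent points of trace zero to `K`. -/
theorem rank_ge_trK (W : WeierstrassCurve L) (K K' : IntermediateField L (AlgebraicClosure ℚ))
    [FiniteDimensional L K'] (hK : K ≤ K') {r k : ℕ}
    (hr : r ≤ Module.finrank ℤ (W⁄K).toAffine.Point)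
    (R : Fin k → (W⁄K').toAffine.Point) (hR : LinearIndependent ℤ R)
    (htr : ∀ i, trK K K' W (R i) = 0) :
    ((r + k : ℕ) : Cardinal) ≤ Module.rank ℤ (W⁄K').toAffine.Point := by
  obtain ⟨f, hf, hfix⟩ := exists_upK W K K' hK
  obtain ⟨v, hv⟩ := exists_linearIndependent_of_le_finrank hr
  have hfv : LinearIndependent ℤ fun i => f (v i) :=
    hv.map' f.toIntLinearMap (LinearMap.ker_eq_bot.2 hf)
  set d : ℕ := (embK K K').card with hd
  have hd0 : d ≠ 0 := (card_embK K K').ne'
  have htf : ∀ P, trK K K' W (f P) = d • toQbar K' W (f P) := by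
    intro P
    refine trK_base K K' hK W _ ?_
    rw [hfix]
    exact ⟨P, rfl⟩
  have h1 : LinearIndependent ℤ (Sum.elim (fun i => f (v i)) R) := by
    rw [Fintype.linearIndependent_iff] at hfv hR ⊢
    intro g hg
    rw [Fintype.sum_sum_type] at hg
    simp only [Sum.elim_inl, Sum.elim_inr] at hg
    set a : (W⁄K').toAffine.Point := ∑ i, g (Sum.inl i) • f (v i) with ha
    set c : (W⁄K').toAffine.Point := ∑ i, g (Sum.inr i) • R i with hc
    have htc : trK K K' W c = 0 := by
      rw [hc, map_sum]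
      refine Finset.sum_eq_zero fun i _ => ?_
      rw [map_zsmul, htr, zsmul_zero]
    have hta : trK K K' W a = d • toQbar K' W a := by
      have h2 : a = f (∑ i, g (Sum.inl i) • v i) := by
        rw [ha, map_sum]
        exact Finset.sum_congr rfl fun i _ => (map_zsmul f _ _).symm
      rw [h2, htf]
    have h3 : d • toQbar K' W a = 0 := by
      have h4 := congrArg (trK K K' W) hg
      rwa [map_add, htc, hta, add_zero, map_zero] at h4
    have h5 : d • a = 0 := by
      refine Affine.Point.map_injective (W' := W.toAffine) K'.val ?_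
      change toQbar K' W (d • a) = toQbar K' W 0
      rw [map_nsmul, h3, map_zero]
    have h6 : ∑ i, ((d : ℤ) * g (Sum.inl i)) • f (v i) = 0 := by
      rw [← h5, ha, Finset.smul_sum]
      refine Finset.sum_congr rfl fun i _ => ?_
      rw [mul_zsmul, natCast_zsmul]
    have h7 : ∀ i, g (Sum.inl i) = 0 := by
      intro i
      rcases mul_eq_zero.1 (hfv _ h6 i) with h8 | h8
      · exact absurd (Int.natCast_eq_zero.1 h8) hd0
      · exact h8
    have h8 : c = 0 := by
      have h9 : a = 0 := by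
        rw [ha]
        refine Finset.sum_eq_zero fun i _ => ?_
        rw [h7 i, zero_zsmul]
      rwa [h9, zero_add] at hg
    rintro (i | i)
    · exact h7 i
    · exact hR _ h8 i
  have h9 := h1.cardinal_le_rank
  rwa [Cardinal.mk_sum, Cardinal.mk_fin, Cardinal.mk_fin, Cardinal.lift_natCast,
    Cardinal.lift_natCast, ← Nat.cast_add] at h9

/-- Subgroups `T n` of the groups `B n (F)` such that the sum of the ranks of the groups `B n (F)` does not allow two
independent elements in them: two elements are in groups `HE` for a common abscissa. -/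
private theorem fam_HE {s : ℕ} (B : Fin s → WeierstrassCurve L) (hB : ∀ n, (B n).IsElliptic)
    (S : Finset (Fin s)) (F : IntermediateField L (AlgebraicClosure ℚ))
    (T : (n : Fin s) → AddSubgroup ((B n)⁄F).toAffine.Point) (f : Fin s → ℕ)
    (hf : ∀ n k (R : Fin k → ((B n)⁄F).toAffine.Point), LinearIndependent ℤ R →
      (∀ i, R i ∈ T n) → ((f n + k : ℕ) : Cardinal) ≤ Module.rank ℤ ((B n)⁄F).toAffine.Point)
    (hR : ∑ n ∈ S, Module.rank ℤ ((B n)⁄F).toAffine.Point ≤ ((∑ n ∈ S, f n + 1 : ℕ) : Cardinal))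
    (n n' : Fin s) (hn : n ∈ S) (hn' : n' ∈ S) {P : ((B n)⁄F).toAffine.Point}
    {Q : ((B n')⁄F).toAffine.Point} (hP : P ∈ T n) (hQ : Q ∈ T n') :
    ∃ v, toQbar F (B n) P ∈ HE ((B n)⁄(AlgebraicClosure ℚ)) v ∧
      toQbar F (B n') Q ∈ HE ((B n')⁄(AlgebraicClosure ℚ)) v := by
  have hell : ∀ n, ((B n)⁄(AlgebraicClosure ℚ)).IsElliptic := fun n =>
    have := hB n
    inferInstanceAs ((B n).map (algebraMap L (AlgebraicClosure ℚ))).IsElliptic
  set X : Fin s → ℕ → Prop := fun n k => ∃ R : Fin k → ((B n)⁄F).toAffine.Point,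
    LinearIndependent ℤ R ∧ ∀ i, R i ∈ T n with hX
  have hX0 : ∀ n, X n 0 := fun n =>
    ⟨fun i => i.elim0, linearIndependent_empty_type, fun i => i.elim0⟩
  have hsum : ∀ k : Fin s → ℕ, (∀ n, X n (k n)) → ∑ n ∈ S, k n ≤ 1 := by
    intro k hk
    have h2 : ∑ n ∈ S, ((f n + k n : ℕ) : Cardinal) ≤
        ∑ n ∈ S, Module.rank ℤ ((B n)⁄F).toAffine.Point := by
      refine Finset.sum_le_sum fun n _ => ?_
      obtain ⟨R, hR1, hR2⟩ := hk n
      exact hf n _ R hR1 hR2
    have h3 := h2.trans hR
    rw [← Nat.cast_sum, Nat.cast_le, Finset.sum_add_distrib] at h3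
    omega
  by_cases hnn : n = n'
  · subst hnn
    by_contra hno
    have h2 : LinearIndependent ℤ ![P, Q] := by
      rw [Fintype.linearIndependent_iff]
      intro g hg
      rw [Fin.sum_univ_two] at hg
      change g 0 • P + g 1 • Q = 0 at hg
      by_contra hne
      have h3 : g 0 ≠ 0 ∨ g 1 ≠ 0 := by
        by_contra h4
        push Not at h4
        refine hne fun k => ?_
        fin_cases k
        · exact h4.1
        · exact h4.2
      refine hno (dep_HE (hell n) h3 ?_)
      rw [← map_zsmul, ← map_zsmul, ← map_add, hg, map_zero]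
    have h4 := hsum (fun m => if m = n then 2 else 0) fun m => by
      by_cases hm : m = n
      · subst hm
        rw [if_pos rfl]
        refine ⟨![P, Q], h2, fun k => ?_⟩
        fin_cases k
        · exact hP
        · exact hQ
      · rw [if_neg hm]
        exact hX0 m
    rw [Finset.sum_ite_eq', if_pos hn] at h4
    omega
  · by_contra hno
    have one : ∀ (m : Fin s) (R : ((B m)⁄F).toAffine.Point), R ∈ T m →
        (∀ a : ℤ, a ≠ 0 → a • R ≠ 0) → X m 1 := by
      intro m R hR h5
      refine ⟨fun _ => R, ?_, fun _ => hR⟩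
      rw [Fintype.linearIndependent_iff]
      intro g hg k
      rw [Fin.sum_univ_one] at hg
      by_contra h6
      rw [Subsingleton.elim k 0] at h6
      exact h5 _ h6 hg
    have hPn : ∀ a : ℤ, a ≠ 0 → a • P ≠ 0 := by
      intro a ha e
      refine hno (tor_HE (hell n') ha ?_)
      rw [← map_zsmul, e, map_zero]
    have hQn : ∀ a : ℤ, a ≠ 0 → a • Q ≠ 0 := by
      intro a ha e
      obtain ⟨v, h5, h6⟩ := tor_HE (E := (B n')⁄(AlgebraicClosure ℚ)) (hell n)
        (P := toQbar F (B n') Q) (Q := toQbar F (B n) P) ha (by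
          rw [← map_zsmul, e, map_zero])
      exact hno ⟨v, h6, h5⟩
    have h4 := hsum (fun m => if m = n ∨ m = n' then 1 else 0) fun m => by
      by_cases hm : m = n ∨ m = n'
      · rw [if_pos hm]
        rcases hm with rfl | rfl
        · exact one _ P hP hPn
        · exact one _ Q hQ hQn
      · rw [if_neg hm]
        exact hX0 m
    have h5 : ({n, n'} : Finset (Fin s)).card ≤ 1 := by
      refine le_trans (le_of_eq ?_) h4
      rw [← Finset.sum_filter, Finset.sum_const, smul_eq_mul, mul_one]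
      congr 1
      ext m
      rw [Finset.mem_filter, Finset.mem_insert, Finset.mem_singleton]
      constructor
      · rintro (rfl | rfl)
        · exact ⟨hn, Or.inl rfl⟩
        · exact ⟨hn', Or.inr rfl⟩
      · exact fun h => h.2
    rw [Finset.card_pair hnn] at h5
    omega

/-- Two points over `K'` of trace zero to `K`, if the sum of the ranks rises by at most one from `K` to `K'`. -/
theorem rankB_HE {s : ℕ} (B : Fin s → WeierstrassCurve L) (hB : ∀ n, (B n).IsElliptic)
    (S : Finset (Fin s)) (K K' : IntermediateField L (AlgebraicClosure ℚ))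
    [FiniteDimensional L K'] (hK : K ≤ K')
    (hR : ∑ n ∈ S, Module.rank ℤ ((B n)⁄K').toAffine.Point ≤
      ((∑ n ∈ S, Module.finrank ℤ ((B n)⁄K).toAffine.Point + 1 : ℕ) : Cardinal))
    (n n' : Fin s) (hn : n ∈ S) (hn' : n' ∈ S) {P : ((B n)⁄K').toAffine.Point} {Q : ((B n')⁄K').toAffine.Point}
    (hP : trK K K' (B n) P = 0) (hQ : trK K K' (B n') Q = 0) :
    ∃ v, toQbar K' (B n) P ∈ HE ((B n)⁄(AlgebraicClosure ℚ)) v ∧
      toQbar K' (B n') Q ∈ HE ((B n')⁄(AlgebraicClosure ℚ)) v :=
  fam_HE B hB S K' (fun n => (trK K K' (B n)).ker)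
    (fun n => Module.finrank ℤ ((B n)⁄K).toAffine.Point)
    (fun n _ R hR1 hR2 => rank_ge_trK (B n) K K' hK le_rfl R hR1 hR2) hR n n' hn hn' hP hQ

/-- Two points over `K`, if the sum of the ranks over `K` is at most one. -/
theorem rankB_HE0 {s : ℕ} (B : Fin s → WeierstrassCurve L) (hB : ∀ n, (B n).IsElliptic)
    (S : Finset (Fin s)) (K : IntermediateField L (AlgebraicClosure ℚ))
    (hR : ∑ n ∈ S, Module.rank ℤ ((B n)⁄K).toAffine.Point ≤ 1)
    (n n' : Fin s) (hn : n ∈ S) (hn' : n' ∈ S) (P : ((B n)⁄K).toAffine.Point)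
    (Q : ((B n')⁄K).toAffine.Point) :
    ∃ v, toQbar K (B n) P ∈ HE ((B n)⁄(AlgebraicClosure ℚ)) v ∧
      toQbar K (B n') Q ∈ HE ((B n')⁄(AlgebraicClosure ℚ)) v := by
  refine fam_HE B hB S K (fun _ => ⊤) (fun _ => 0) (fun n k R hR1 _ => ?_) ?_ n n' hn hn'
    (AddSubgroup.mem_top P) (AddSubgroup.mem_top Q)
  · have h := hR1.cardinal_le_rank
    rwa [Cardinal.mk_fin, ← zero_add k] at h
  · simpa using hR

/-- Galois-invariant zero-cycles of degree and sum zero on a product of copies of elliptic curves `B n` over `L` are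
torsion if every point in the support has its coordinates in the last field of a tower of finite extensions of `L` such
that the sum of the ranks of the curves `B n` rises by at most one at every step, and is at most one over the first field
or any two points over the first field on two of the factors are in groups `HE` for a common abscissa. -/
theorem main_towerB (L : IntermediateField ℚ (AlgebraicClosure ℚ)) (s N : ℕ)
    (B : Fin s → WeierstrassCurve L) (hB : ∀ n, (B n).IsElliptic) (c : Fin N → Fin s)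
    (z : Z0N fun i => (B (c i))⁄(AlgebraicClosure ℚ))
    (hz : ∀ σ : AlgebraicClosure ℚ ≃ₐ[L] AlgebraicClosure ℚ,
      z.mapDomain (fun p i => galL (B (c i)) σ (p i)) = z)
    (hdeg : z.sum (fun _ n => n) = 0) (hsum : ∀ i, z.sum (fun p n => n • p i) = 0)
    (hsupp : ∀ p ∈ z.support, ∃ (K : ℕ → IntermediateField L (AlgebraicClosure ℚ)) (r : ℕ),
      (∀ m, FiniteDimensional L (K m)) ∧ Monotone K ∧
      (∀ i x y h, p i = Affine.Point.some x y h → x ∈ K r ∧ y ∈ K r) ∧
      (∑ n ∈ Finset.univ.image c, Module.rank ℤ ((B n)⁄(K 0)).toAffine.Point ≤ 1 ∨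
        ∀ i j, i ≠ j → ∀ P Q, ∃ v,
        toQbar (K 0) (B (c i)) P ∈ HE ((B (c i))⁄(AlgebraicClosure ℚ)) v ∧
        toQbar (K 0) (B (c j)) Q ∈ HE ((B (c j))⁄(AlgebraicClosure ℚ)) v) ∧
      ∀ m < r, ∑ n ∈ Finset.univ.image c, Module.rank ℤ ((B n)⁄(K (m + 1))).toAffine.Point ≤
        ((∑ n ∈ Finset.univ.image c, Module.finrank ℤ ((B n)⁄(K m)).toAffine.Point + 1 : ℕ) :
          Cardinal)) :
    ∃ M : ℕ, 0 < M ∧ M • z ∈ RatEqN fun i => (B (c i))⁄(AlgebraicClosure ℚ) := by
  refine main_towerN L N (fun i => B (c i)) (fun i => hB (c i)) z hz hdeg hsum fun p hp => ?_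
  obtain ⟨K, r, hfin, hK, hcoord, h0, h1⟩ := hsupp p hp
  have hc : ∀ i, c i ∈ Finset.univ.image c := fun i =>
    Finset.mem_image_of_mem c (Finset.mem_univ i)
  refine ⟨K, r, hfin, hK, hcoord, ?_, fun m hm i j _ P Q hP hQ =>
    rankB_HE B hB _ (K m) (K (m + 1)) (hK (Nat.le_succ m)) (h1 m hm) (c i) (c j) (hc i) (hc j)
      hP hQ⟩
  rcases h0 with h0 | h0
  · exact fun i j _ P Q => rankB_HE0 B hB _ (K 0) h0 (c i) (c j) (hc i) (hc j) P Q
  · exact h0

/-- The case of the two curves of rank `4` and `3` over `L`: the tower begins with `L`. -/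
theorem main_towerE (E : Fin 2 → WeierstrassCurve ℚ) (h0 : E 0 = ⟨0, -10660, 0, 28138500, 0⟩)
    (h1 : E 1 = ⟨0, 1430, 0, -5272800, 0⟩) (L : IntermediateField ℚ (AlgebraicClosure ℚ))
    (N : ℕ) (c : Fin N → Fin 2) (z : Z0N fun i => ((E (c i))⁄L)⁄(AlgebraicClosure ℚ))
    (hL : ∀ i, Module.finrank ℤ ((E (c i))⁄L).toAffine.Point = 4 - (c i : ℕ))
    (hz : ∀ σ : AlgebraicClosure ℚ ≃ₐ[L] AlgebraicClosure ℚ,
      z.mapDomain (fun p i => galL ((E (c i))⁄L) σ (p i)) = z)
    (hdeg : z.sum (fun _ n => n) = 0) (hsum : ∀ i, z.sum (fun p n => n • p i) = 0)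
    (hsupp : ∀ p ∈ z.support, ∃ (K : ℕ → IntermediateField L (AlgebraicClosure ℚ)) (r : ℕ),
      (∀ m, FiniteDimensional L (K m)) ∧ Monotone K ∧ K 0 = ⊥ ∧
      (∀ i x y h, p i = Affine.Point.some x y h → x ∈ K r ∧ y ∈ K r) ∧
      ∀ m < r, ∑ n ∈ Finset.univ.image c,
          Module.rank ℤ (((E n)⁄L)⁄(K (m + 1))).toAffine.Point ≤
        ((∑ n ∈ Finset.univ.image c, Module.finrank ℤ (((E n)⁄L)⁄(K m)).toAffine.Point + 1 :
          ℕ) : Cardinal)) :
    ∃ M : ℕ, 0 < M ∧ M • z ∈ RatEqN fun i => ((E (c i))⁄L)⁄(AlgebraicClosure ℚ) := by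
  have hell : ∀ n, ((E n)⁄L).IsElliptic := by
    obtain ⟨-, -, W, hell, -, -, f0, f1, -, -, -, -⟩ := main_aux3
    intro n
    have h2 : (E n).IsElliptic := by
      fin_cases n
      · exact (h0.trans f0.symm) ▸ hell 0
      · exact (h1.trans f1.symm) ▸ hell 1
    exact inferInstanceAs ((E n).map (algebraMap ℚ L)).IsElliptic
  refine main_towerB L 2 N (fun n => (E n)⁄L) hell c z hz hdeg hsum fun p hp => ?_
  obtain ⟨K, r, hfin, hK, hK0, hcoord, h3⟩ := hsupp p hp
  refine ⟨K, r, hfin, hK, hcoord, Or.inr fun i j _ P Q => ⟨8 / 13, ?_, ?_⟩, h3⟩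
  · refine rankR_L E h0 h1 (c i) (hL i) _ fun σ => ?_
    refine (range_iff (K 0) _ _).1 ⟨P, rfl⟩ σ fun x hx => ?_
    rw [hK0, IntermediateField.mem_bot] at hx
    obtain ⟨y, rfl⟩ := hx
    exact σ.commutes y
  · refine rankR_L E h0 h1 (c j) (hL j) _ fun σ => ?_
    refine (range_iff (K 0) _ _).1 ⟨Q, rfl⟩ σ fun x hx => ?_
    rw [hK0, IntermediateField.mem_bot] at hx
    obtain ⟨y, rfl⟩ := hx
    exact σ.commutes y

end Pool.Agent.ZCQL
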